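import Pool.Agent.Lib.MP_8fac0f_nt.AC.Defs

/-!
# The class of polynomials for which the constants are uniform
-/

set_option autoImplicit false

namespace Pool.Agent.Lib.MP_8fac0f_nt.AC

open Finset Polynomial N

/-- `R` has degree at most some `e' ≤ e` with coefficient at `e'` not divisible by `2 ^ r`. -/
def Adm (R : ℤ[X]) (e r : ℕ) : Prop := ∃ e' ≤ e, R.natDegree ≤ e' ∧ ¬ (2 : ℤ) ^ r ∣ R.coeff e'

theorem Adm.neg {R : ℤ[X]} {e r : ℕ} (h : Adm R e r) : Adm (-R) e r := by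
  obtain ⟨e', he, h1, h2⟩ := h
  exact ⟨e', he, by rwa [natDegree_neg], by rwa [coeff_neg, dvd_neg]⟩

theorem pow_dvd_of_mul (y : ℤ) (u : ℕ) : ∀ (w : ℕ) (x : ℤ), ¬ (2 : ℤ) ^ u ∣ x → u ≤ w →
    (2 : ℤ) ^ w ∣ x * y → (2 : ℤ) ^ (w - u) ∣ y := by
  induction u with
  | zero =>
    intro w x hx
    exact absurd (by rw [pow_zero]; exact one_dvd x) hx
  | succ u ih =>
    intro w x hx huw hd
    by_cases h2 : (2 : ℤ) ∣ x
    · obtain ⟨x', rfl⟩ := h2
      have h3 : ¬ (2 : ℤ) ^ u ∣ x' := fun h => hx (by rw [pow_succ']; exact mul_dvd_mul_left 2 h)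
      obtain ⟨v, rfl⟩ : ∃ v, w = v + 1 := ⟨w - 1, by omega⟩
      have h4 : (2 : ℤ) ^ v ∣ x' * y := by
        rw [pow_succ', mul_assoc] at hd
        exact (mul_dvd_mul_iff_left (by norm_num)).mp hd
      have h5 := ih v x' h3 (by omega) h4
      rwa [Nat.add_sub_add_right]
    · have h3 := Int.prime_two.pow_dvd_of_dvd_mul_left w h2 hd
      exact (pow_dvd_pow 2 (by omega)).trans h3

theorem not_dvd_mul {r s : ℕ} {x a : ℤ} (ha : ¬ (2 : ℤ) ^ r ∣ a) (hx0 : x ≠ 0)
    (hx : x.natAbs < 2 ^ s) : ¬ (2 : ℤ) ^ (r + s) ∣ x * a := by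
  intro h
  have h1 : ¬ (2 : ℤ) ^ s ∣ x := by
    intro h2
    have h3 := Int.natAbs_dvd_natAbs.2 h2
    rw [Int.natAbs_pow] at h3
    have h4 := Nat.le_of_dvd (Int.natAbs_pos.2 hx0) h3
    simp at h4
    omega
  have h2 := pow_dvd_of_mul a s (r + s) x h1 (by omega) h
  rw [Nat.add_sub_cancel] at h2
  exact ha h2

/-- the derivative of an admissible nonconstant polynomial -/
theorem adm_derivative {R : ℤ[X]} {n e r s : ℕ} (hn : R.natDegree ≤ n + 1) (hne : n ≤ e)
    (hns : n + 1 < 2 ^ s) (hr : ¬ (2 : ℤ) ^ r ∣ R.coeff (n + 1)) : Adm R.derivative e (r + s) := by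
  refine ⟨n, hne, ?_, ?_⟩
  · refine (natDegree_derivative_le R).trans ?_
    omega
  · rw [coeff_derivative, mul_comm]
    refine not_dvd_mul hr ?_ ?_
    · exact_mod_cast Nat.succ_ne_zero n
    · have : ((n : ℤ) + 1).natAbs = n + 1 := by omega
      rw [this]
      exact hns

/-- top coefficients of a shifted polynomial -/
theorem coeff_shift (P : ℤ[X]) (n : ℕ) (hn : P.natDegree ≤ n + 1) (i : ℤ) :
    (P.comp (X + C i)).coeff (n + 1) = P.coeff (n + 1) ∧
      (P.comp (X + C i)).coeff n = P.coeff n + (n + 1) * i * P.coeff (n + 1) := by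
  rw [← taylor_apply]
  constructor
  · have h1 : (hasseDeriv (n + 1) P).natDegree < 1 := by
      have := natDegree_hasseDeriv_le P (n + 1)
      omega
    rw [taylor_coeff, eval_eq_sum_range' h1]
    simp [hasseDeriv_coeff]
  · have h1 : (hasseDeriv n P).natDegree < 2 := by
      have := natDegree_hasseDeriv_le P n
      omega
    rw [taylor_coeff, eval_eq_sum_range' h1]
    simp [sum_range_succ, hasseDeriv_coeff, add_comm 1 n]
    ring

/-- consecutive values of one polynomial: derivatives -/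
theorem adm_shift {P : ℤ[X]} {d r : ℕ} (hd : P.natDegree = d + 2) (hr : ¬ (2 : ℤ) ^ r ∣ P.leadingCoeff)
    (i : ℤ) (s : ℕ) (hs : d + 2 < 2 ^ s) : Adm (P.comp (X + C i)).derivative (d + 1) (r + s) := by
  have h1 := coeff_shift P (d + 1) hd.le i
  refine adm_derivative (n := d + 1) ?_ le_rfl hs ?_
  · rw [natDegree_comp, natDegree_X_add_C]
    omega
  · rw [h1.1]
    rwa [leadingCoeff, hd] at hr

/-- consecutive values of one polynomial: differences -/
theorem adm_shift_sub {P : ℤ[X]} {d r : ℕ} (hd : P.natDegree = d + 2)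
    (hr : ¬ (2 : ℤ) ^ r ∣ P.leadingCoeff) (i j : ℤ) (hij : i ≠ j) (s : ℕ)
    (hs : (d + 2) * (i - j).natAbs < 2 ^ s) (t : ℕ) (ht : d + 1 < 2 ^ t) :
    Adm ((P.comp (X + C i)).derivative - (P.comp (X + C j)).derivative) (d + 1) (r + s + t) := by
  rw [← derivative_sub]
  have h1 := coeff_shift P (d + 1) hd.le i
  have h2 := coeff_shift P (d + 1) hd.le j
  refine adm_derivative (n := d) ?_ (by omega) ht ?_
  · have h3 : (P.comp (X + C i) - P.comp (X + C j)).natDegree ≤ d + 2 := by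
      refine (natDegree_sub_le _ _).trans (max_le ?_ ?_) <;>
        rw [natDegree_comp, natDegree_X_add_C] <;> omega
    by_contra hcon
    have h4 : (P.comp (X + C i) - P.comp (X + C j)).natDegree = d + 1 + 1 := by omega
    have h5 : (P.comp (X + C i) - P.comp (X + C j)).coeff (d + 1 + 1) = 0 := by
      rw [coeff_sub, h1.1, h2.1, sub_self]
    rw [← h4] at h5
    have h6 := leadingCoeff_eq_zero.1 h5
    rw [h6] at h4
    simp at h4
  · rw [coeff_sub, h1.2, h2.2]
    have h3 : P.coeff (d + 1) + (((d + 1 : ℕ) : ℤ) + 1) * i * P.coeff (d + 1 + 1) -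
        (P.coeff (d + 1) + (((d + 1 : ℕ) : ℤ) + 1) * j * P.coeff (d + 1 + 1)) =
        (((d : ℤ) + 2) * (i - j)) * P.coeff (d + 1 + 1) := by
      push_cast
      ring
    rw [h3]
    rw [leadingCoeff, hd] at hr
    refine not_dvd_mul hr (mul_ne_zero (by positivity) (sub_ne_zero.2 hij)) ?_
    rw [Int.natAbs_mul]
    have h4 : ((d : ℤ) + 2).natAbs = d + 2 := by omega
    rw [h4]
    exact hs

end Pool.Agent.Lib.MP_8fac0f_nt.AC
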