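import Pool.Agent.Lib.MP_8fac0f_nt.AC.Defs

/-!
# Row DC: double counting for one block

two_bad: (D + 2^k (E x) + 2^k) mod 2^(k+t) < 2^(k+1) iff (((D + 2^k)/2^k) + E x) mod 2^t < 2 (floor
division), E odd: x -> c + E x is a bijection of the residues mod 2^t, so two x.

one_step: the set of the n with Q n and Bad (R n) is periodic mod 2^M, so its number of elements in [0, 2^M) does
not change under the shift by 2^(k-v) j; sum over j < 2^t and exchange the sums. If Q n, E(n) = R'(n) = 2^v E0, E0 odd,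
R(n + h) = R(n) + h R'(n) + h^2 (integer) (Polynomial.binomExpansion), h = 2^(k-v) j, so
R(n + h) = R(n) + 2^k E0 j mod 2^(2(k-v)), 2 (k - v) >= k + t: exactly two j < 2^t are bad
(two_bad), and Bad D k t depends on D mod 2^(k+t) only.
-/

set_option autoImplicit false

namespace Pool.Agent.Lib.MP_8fac0f_nt.AC

open Finset Polynomial N

theorem bad_congr (D D' : ℤ) (k t : ℕ) (h : (2 : ℤ) ^ (k + t) ∣ D - D') :
    Bad D k t ↔ Bad D' k t := by
  unfold Bad
  have e : (D + 2 ^ k) % 2 ^ (k + t) = (D' + 2 ^ k) % 2 ^ (k + t) := by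
    rw [Int.emod_eq_emod_iff_emod_sub_eq_zero]
    apply Int.emod_eq_zero_of_dvd
    have : D + 2 ^ k - (D' + 2 ^ k) = D - D' := by ring
    rw [this]
    exact h
  rw [e]

/-- Two of the `2 ^ t` values of `x` are bad. -/
theorem two_bad (D E : ℤ) (hE : Odd E) (k t : ℕ) (ht : 1 ≤ t) :
    ((range (2 ^ t)).filter fun x : ℕ => Bad (D + 2 ^ k * (E * x)) k t).card = 2 := by
  obtain ⟨c, hc⟩ : ∃ c, c = (D + 2 ^ k) / 2 ^ k := ⟨_, rfl⟩
  obtain ⟨r, hr⟩ : ∃ r, r = (D + 2 ^ k) % 2 ^ k := ⟨_, rfl⟩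
  have hk0 : (0 : ℤ) < 2 ^ k := by positivity
  have ht0 : (0 : ℤ) < 2 ^ t := by positivity
  have hr0 : 0 ≤ r := by rw [hr]; exact Int.emod_nonneg _ hk0.ne'
  have hr1 : r < 2 ^ k := by rw [hr]; exact Int.emod_lt_of_pos _ hk0
  have hD : D + 2 ^ k = 2 ^ k * c + r := by
    rw [hc, hr]
    exact (Int.mul_ediv_add_emod _ _).symm
  -- the residue
  have key : ∀ x : ℕ, Bad (D + 2 ^ k * (E * x)) k t ↔ ((c + E * x) % 2 ^ t).toNat < 2 := by
    intro x
    unfold Bad
    obtain ⟨y, hy⟩ : ∃ y, y = (c + E * x) % 2 ^ t := ⟨_, rfl⟩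
    obtain ⟨q, hq⟩ : ∃ q, q = (c + E * x) / 2 ^ t := ⟨_, rfl⟩
    have hy0 : 0 ≤ y := by rw [hy]; exact Int.emod_nonneg _ ht0.ne'
    have hy1 : y < 2 ^ t := by rw [hy]; exact Int.emod_lt_of_pos _ ht0
    have hcx : c + E * x = 2 ^ t * q + y := by
      rw [hq, hy]
      exact (Int.mul_ediv_add_emod _ _).symm
    have e1 : D + 2 ^ k * (E * x) + 2 ^ k = (2 ^ k * y + r) + 2 ^ (k + t) * q := by
      have : D + 2 ^ k * (E * x) + 2 ^ k = (D + 2 ^ k) + 2 ^ k * (E * x) := by ring
      rw [this, hD, pow_add]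
      linear_combination (2 ^ k : ℤ) * hcx
    have e2 : (D + 2 ^ k * (E * x) + 2 ^ k) % 2 ^ (k + t) = 2 ^ k * y + r := by
      rw [e1, Int.add_mul_emod_self_left]
      apply Int.emod_eq_of_lt (by positivity)
      rw [pow_add]
      nlinarith
    rw [e2, ← hy, pow_succ]
    constructor
    · intro h
      have : y < 2 := by nlinarith
      omega
    · intro h
      have h2 : y ≤ 1 := by omega
      nlinarith
  have hinj : Set.InjOn (fun x : ℕ => ((c + E * x) % 2 ^ t).toNat) (range (2 ^ t) : Finset ℕ) := by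
    intro x hx y hy hxy
    simp only [coe_range, Set.mem_Iio] at hx hy
    have h1 : (c + E * x) % 2 ^ t = (c + E * y) % 2 ^ t := by
      have a1 := Int.emod_nonneg (c + E * x) ht0.ne'
      have a2 := Int.emod_nonneg (c + E * y) ht0.ne'
      simp only at hxy
      omega
    rw [Int.emod_eq_emod_iff_emod_sub_eq_zero] at h1
    have h2 : (2 : ℤ) ^ t ∣ E * (x - y) := by
      have := Int.dvd_of_emod_eq_zero h1
      have e : c + E * x - (c + E * y) = E * (x - y) := by ring
      rwa [e] at this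
    have hcop : IsCoprime ((2 : ℤ) ^ t) E := by
      apply IsCoprime.pow_left
      rw [Int.isCoprime_iff_gcd_eq_one]
      obtain ⟨m, hm⟩ := hE
      rw [← Int.isCoprime_iff_gcd_eq_one]
      exact ⟨-m, 1, by rw [hm]; ring⟩
    have h3 : (2 : ℤ) ^ t ∣ (x : ℤ) - y := hcop.dvd_of_dvd_mul_left h2
    have h4 : ((x : ℤ) - y).natAbs < 2 ^ t := by omega
    have h5 : (x : ℤ) - y = 0 := by
      apply Int.eq_zero_of_dvd_of_natAbs_lt_natAbs h3
      rw [Int.natAbs_pow]
      exact h4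
    omega
  have himg : (range (2 ^ t)).image (fun x : ℕ => ((c + E * x) % 2 ^ t).toNat) = range (2 ^ t) := by
    apply Finset.eq_of_subset_of_card_le
    · intro y hy
      rw [mem_image] at hy
      obtain ⟨x, -, rfl⟩ := hy
      rw [mem_range]
      have a1 := Int.emod_nonneg (c + E * x) ht0.ne'
      have a2 := Int.emod_lt_of_pos (c + E * x) ht0
      zify
      rw [Int.toNat_of_nonneg a1]
      exact a2
    · rw [card_image_of_injOn hinj]
  have e3 : (range (2 ^ t)).filter (fun x : ℕ => Bad (D + 2 ^ k * (E * x)) k t) =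
      (range (2 ^ t)).filter (fun x : ℕ => ((c + E * x) % 2 ^ t).toNat < 2) :=
    filter_congr fun x _ => key x
  have e5 : ((range (2 ^ t)).filter (fun x : ℕ => ((c + E * x) % 2 ^ t).toNat < 2)).image
      (fun x : ℕ => ((c + E * x) % 2 ^ t).toNat) = (range (2 ^ t)).filter (fun x => x < 2) := by
    ext y
    rw [mem_image, mem_filter]
    constructor
    · rintro ⟨x, hx, rfl⟩
      rw [mem_filter] at hx
      exact ⟨himg.le (mem_image_of_mem _ hx.1), hx.2⟩
    · rintro ⟨h1, h2⟩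
      have h3 := himg.ge h1
      rw [mem_image] at h3
      obtain ⟨x, hx, hxy⟩ := h3
      refine ⟨x, mem_filter.2 ⟨hx, ?_⟩, hxy⟩
      rw [hxy]
      exact h2
  rw [e3, ← card_image_of_injOn (hinj.mono (by intro x hx; exact (mem_filter.1 hx).1)), e5]
  have e4 : (range (2 ^ t)).filter (fun x => x < 2) = range 2 := by
    ext x
    rw [mem_filter, mem_range, mem_range]
    have : 2 ≤ 2 ^ t := by
      calc 2 = 2 ^ 1 := by norm_num
        _ ≤ 2 ^ t := Nat.pow_le_pow_right (by norm_num) ht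
    omega
  rw [e4, card_range]

private theorem dc_shift (M : ℕ) (p : ℕ → Prop) [DecidablePred p] (hp : Function.Periodic p M) (h : ℕ) :
    ((range M).filter fun n => p (n + h)).card = ((range M).filter p).card := by
  have h1 := Nat.filter_Ico_card_eq_of_periodic h M p hp
  have h2 := Nat.filter_Ico_card_eq_of_periodic 0 M p hp
  rw [zero_add, ← range_eq_Ico] at h2
  rw [h2, ← h1]
  apply card_bij (fun n _ => n + h)
  · intro n hn
    rw [mem_filter, mem_range] at hn
    rw [mem_filter, mem_Ico]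
    exact ⟨⟨by omega, by omega⟩, hn.2⟩
  · intro a _ b _ hab
    omega
  · intro b hb
    rw [mem_filter, mem_Ico] at hb
    refine ⟨b - h, ?_, by omega⟩
    rw [mem_filter, mem_range, Nat.sub_add_cancel hb.1.1]
    exact ⟨by omega, hb.2⟩

theorem one_step (R : ℤ[X]) (v k t M : ℕ) (ht : 1 ≤ t) (hk : t + 2 * v + 1 ≤ k) (hM : k + t ≤ M)
    (Q : ℕ → Prop) [DecidablePred Q] (hper : ∀ n, Q (n + 2 ^ (k - v)) ↔ Q n)
    (hQ : ∀ n, Q n → (2 : ℤ) ^ v ∣ R.derivative.eval (n : ℤ) ∧
      ¬ (2 : ℤ) ^ (v + 1) ∣ R.derivative.eval (n : ℤ)) :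
    2 ^ (t - 1) * ((range (2 ^ M)).filter fun n : ℕ => Q n ∧ Bad (R.eval (n : ℤ)) k t).card =
      ((range (2 ^ M)).filter Q).card := by
  have hQj : ∀ j n : ℕ, Q (n + 2 ^ (k - v) * j) ↔ Q n := by
    intro j
    induction j with
    | zero => intro n; simp
    | succ j ih =>
      intro n
      rw [mul_add, mul_one, ← add_assoc, hper, ih]
  have hperM : Function.Periodic (fun n : ℕ => Q n ∧ Bad (R.eval (n : ℤ)) k t) (2 ^ M) := by
    intro n
    apply propext
    have e : (2 : ℕ) ^ M = 2 ^ (k - v) * 2 ^ (M - (k - v)) := by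
      rw [← pow_add]
      congr 1
      omega
    have h1 : Q (n + 2 ^ M) ↔ Q n := by rw [e]; exact hQj _ n
    have h2 : Bad (R.eval ((n + 2 ^ M : ℕ) : ℤ)) k t ↔ Bad (R.eval (n : ℤ)) k t := by
      apply bad_congr
      refine dvd_trans ?_ (Polynomial.sub_dvd_eval_sub _ _ R)
      push_cast
      rw [add_sub_cancel_left]
      exact pow_dvd_pow 2 hM
    exact and_congr h1 h2
  -- the number of bad shifts
  have hn : ∀ n, Q n → ((range (2 ^ t)).filter fun j : ℕ =>
      Q (n + 2 ^ (k - v) * j) ∧ Bad (R.eval ((n + 2 ^ (k - v) * j : ℕ) : ℤ)) k t).card = 2 := by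
    intro n hn
    obtain ⟨⟨E, hE⟩, h2⟩ := hQ n hn
    have hodd : Odd E := by
      by_contra hcon
      rw [Int.not_odd_iff_even] at hcon
      obtain ⟨m, hm⟩ := hcon
      apply h2
      rw [hE, hm]
      exact ⟨m, by rw [pow_succ]; ring⟩
    refine Eq.trans (congrArg card (filter_congr fun j _ => ?_)) (two_bad (R.eval (n : ℤ)) E hodd k t ht)
    have h3 : Bad (R.eval ((n + 2 ^ (k - v) * j : ℕ) : ℤ)) k t ↔ Bad (R.eval (n : ℤ) + 2 ^ k * (E * j)) k t := by
      apply bad_congr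
      obtain ⟨c, hc⟩ := Polynomial.binomExpansion R (n : ℤ) ((2 : ℤ) ^ (k - v) * j)
      have e1 : ((n + 2 ^ (k - v) * j : ℕ) : ℤ) = (n : ℤ) + 2 ^ (k - v) * j := by push_cast; ring
      rw [e1, hc, hE]
      have e2 : (2 : ℤ) ^ k = 2 ^ v * 2 ^ (k - v) := by
        rw [← pow_add]
        congr 1
        omega
      have e3 : R.eval (n : ℤ) + 2 ^ v * E * (2 ^ (k - v) * j) + c * (2 ^ (k - v) * j) ^ 2
          - (R.eval (n : ℤ) + 2 ^ k * (E * j)) = 2 ^ (k - v + (k - v)) * (c * j ^ 2) := by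
        rw [e2, pow_add]
        ring
      rw [e3]
      exact dvd_mul_of_dvd_left (pow_dvd_pow 2 (by omega)) _
    rw [h3, hQj]
    exact and_iff_right hn
  -- double counting
  have hsum : ∑ j ∈ range (2 ^ t), ((range (2 ^ M)).filter fun n : ℕ =>
      Q (n + 2 ^ (k - v) * j) ∧ Bad (R.eval ((n + 2 ^ (k - v) * j : ℕ) : ℤ)) k t).card
      = 2 * ((range (2 ^ M)).filter Q).card := by
    simp only [card_filter]
    rw [sum_comm, mul_sum]
    refine sum_congr rfl fun n _ => ?_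
    by_cases h : Q n
    · have hh := hn n h
      rw [card_filter] at hh
      rw [if_pos h, mul_one]
      exact hh
    · rw [if_neg h, mul_zero]
      refine sum_eq_zero fun j _ => ?_
      rw [if_neg]
      rw [hQj]
      exact fun hh => h hh.1
  have hconst : ∀ j ∈ range (2 ^ t), ((range (2 ^ M)).filter fun n : ℕ =>
      Q (n + 2 ^ (k - v) * j) ∧ Bad (R.eval ((n + 2 ^ (k - v) * j : ℕ) : ℤ)) k t).card
      = ((range (2 ^ M)).filter fun n : ℕ => Q n ∧ Bad (R.eval (n : ℤ)) k t).card := by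
    intro j _
    exact dc_shift (2 ^ M) (fun n : ℕ => Q n ∧ Bad (R.eval (n : ℤ)) k t) hperM (2 ^ (k - v) * j)
  rw [sum_congr rfl hconst, sum_const, card_range, smul_eq_mul] at hsum
  obtain ⟨u, rfl⟩ : ∃ u, t = u + 1 := ⟨t - 1, by omega⟩
  rw [Nat.add_sub_cancel]
  rw [pow_succ] at hsum
  nlinarith

end Pool.Agent.Lib.MP_8fac0f_nt.AC
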