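import Pool.Agent.Lib.MP_8fac0f_nt.AC.Va
import Pool.Agent.Lib.MP_8fac0f_nt.AC.Dc

/-!
# Row DZ: few n have many bad blocks

all_blocks: induction on Z (Finset.induction_on_max). Z = insert b Z', b larger than all of Z':
one_step with k = s0 + b l, M = s0 + B l and Q n = (2^v exactly divides R'(n)) and for all b' in Z'
Bad (R n) (s0 + b' l) t. Q has period 2^(k-v): R'(n + 2^(k-v)) = R'(n) mod 2^(k-v), k - v >= v + 1;
R(n + 2^(k-v)) = R(n) + 2^(k-v) R'(n) + 2^(2(k-v)) (..) = R(n) mod 2^k if 2^v | R'(n), and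
s0 + b' l + t <= s0 + b l = k (bad_congr).

bad_count: over one period n < 2^M, M = s0 + B l: if q <= nbad then either 2^(w) | R'(n) with
w = r + B e (at most e 2^M / 2^B such n, val_count with u = B; B <= M) or 2^v exactly divides R'(n)
for one v < w, and then some Z in powersetCard q (range B) has all its blocks bad: at most
sum_v sum_Z 2^(-(t-1) q) #(v exactly) <= 2^B 2^(-2B) 2^M. Total (e + 1) 2^M / 2^B. The predicate
has period 2^M in n (bad_congr, (s0 + b l) + t <= M), N <= ceil(N / 2^M) 2^M <= 2 N.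
-/

set_option autoImplicit false

namespace Pool.Agent.Lib.MP_8fac0f_nt.AC

open Finset Polynomial N

private theorem dz_per (p : ℕ → Prop) [DecidablePred p] (m : ℕ) (hp : ∀ n, p (n + m) ↔ p n) (K : ℕ) :
    ((range (K * m)).filter p).card = K * ((range m).filter p).card := by
  have hK : ∀ K n, p (K * m + n) ↔ p n := by
    intro K
    induction K with
    | zero => intro n; simp
    | succ K ih => intro n; rw [show (K + 1) * m + n = (K * m + n) + m by ring, hp, ih]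
  rw [← Nat.count_eq_card_filter_range, ← Nat.count_eq_card_filter_range]
  induction K with
  | zero => simp
  | succ K ih =>
    rw [add_mul, one_mul, Nat.count_add, ih, add_mul, one_mul]
    congr 1
    simp only [hK]

private theorem dz_exact {w : ℕ} {x : ℤ} (h : ¬ (2 : ℤ) ^ w ∣ x) :
    ∃ v, v < w ∧ (2 : ℤ) ^ v ∣ x ∧ ¬ (2 : ℤ) ^ (v + 1) ∣ x := by
  induction w with
  | zero => exact absurd (by simp) h
  | succ w ih =>
    by_cases h1 : (2 : ℤ) ^ w ∣ x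
    · exact ⟨w, Nat.lt_succ_self w, h1, h⟩
    · obtain ⟨v, hv, h2⟩ := ih h1
      exact ⟨v, by omega, h2⟩

private theorem dz_iff {m a b : ℤ} (h : m ∣ a - b) : m ∣ a ↔ m ∣ b := by
  constructor
  · intro ha
    have := dvd_sub ha h
    rwa [sub_sub_cancel] at this
  · intro hb
    have := dvd_add h hb
    rwa [sub_add_cancel] at this

private theorem dz_eval (R : ℤ[X]) (n : ℤ) (v k : ℕ) (hv : (2 : ℤ) ^ v ∣ R.derivative.eval n) (hk : 2 * v ≤ k) :
    (2 : ℤ) ^ k ∣ R.eval (n + 2 ^ (k - v)) - R.eval n := by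
  obtain ⟨c, hc⟩ := R.binomExpansion n (2 ^ (k - v))
  rw [hc]
  have h1 : (2 : ℤ) ^ k ∣ R.derivative.eval n * 2 ^ (k - v) := by
    have h2 : (2 : ℤ) ^ k = 2 ^ v * 2 ^ (k - v) := by
      rw [← pow_add]
      congr 1
      omega
    rw [h2]
    exact mul_dvd_mul hv dvd_rfl
  have h3 : (2 : ℤ) ^ k ∣ c * (2 ^ (k - v)) ^ 2 := by
    rw [← pow_mul]
    exact Dvd.dvd.mul_left (pow_dvd_pow 2 (by omega)) c
  have h4 := dvd_add h1 h3
  have e : R.eval n + R.derivative.eval n * 2 ^ (k - v) + c * (2 ^ (k - v)) ^ 2 - R.eval n =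
      R.derivative.eval n * 2 ^ (k - v) + c * (2 ^ (k - v)) ^ 2 := by ring
  rw [e]
  exact h4

theorem all_blocks (R : ℤ[X]) (v s₀ ℓ t B : ℕ) (ht : 1 ≤ t) (hℓ : t ≤ ℓ)
    (hs₀ : t + 2 * v + 1 ≤ s₀) (Z : Finset ℕ) (hZ : Z ⊆ range B) :
    2 ^ ((t - 1) * Z.card) * ((range (2 ^ (s₀ + B * ℓ))).filter fun n : ℕ =>
      ((2 : ℤ) ^ v ∣ R.derivative.eval (n : ℤ) ∧ ¬ (2 : ℤ) ^ (v + 1) ∣ R.derivative.eval (n : ℤ)) ∧
        ∀ b ∈ Z, Bad (R.eval (n : ℤ)) (s₀ + b * ℓ) t).card ≤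
      ((range (2 ^ (s₀ + B * ℓ))).filter fun n : ℕ =>
        (2 : ℤ) ^ v ∣ R.derivative.eval (n : ℤ) ∧
          ¬ (2 : ℤ) ^ (v + 1) ∣ R.derivative.eval (n : ℤ)).card := by
  induction Z using Finset.induction_on_max with
  | empty => simp
  | insert b Z' hb ih =>
    have hZ' : Z' ⊆ range B := (subset_insert _ _).trans hZ
    have hbB : b < B := mem_range.1 (hZ (mem_insert_self _ _))
    have hbn : b ∉ Z' := fun h => lt_irrefl _ (hb b h)
    have hM : s₀ + b * ℓ + t ≤ s₀ + B * ℓ := by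
      have h1 : (b + 1) * ℓ ≤ B * ℓ := Nat.mul_le_mul_right ℓ hbB
      rw [add_mul, one_mul] at h1
      omega
    have hk : t + 2 * v + 1 ≤ s₀ + b * ℓ := by omega
    have hstep := one_step R v (s₀ + b * ℓ) t (s₀ + B * ℓ) ht hk hM
      (fun n : ℕ => ((2 : ℤ) ^ v ∣ R.derivative.eval (n : ℤ) ∧ ¬ (2 : ℤ) ^ (v + 1) ∣ R.derivative.eval (n : ℤ)) ∧
        ∀ b' ∈ Z', Bad (R.eval (n : ℤ)) (s₀ + b' * ℓ) t)
      (by
        intro n
        have hc : ((n + 2 ^ (s₀ + b * ℓ - v) : ℕ) : ℤ) = (n : ℤ) + 2 ^ (s₀ + b * ℓ - v) := by push_cast; ring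
        rw [hc]
        have h1 : (2 : ℤ) ^ (s₀ + b * ℓ - v) ∣ R.derivative.eval ((n : ℤ) + 2 ^ (s₀ + b * ℓ - v)) - R.derivative.eval (n : ℤ) := by
          have h2 := R.derivative.sub_dvd_eval_sub ((n : ℤ) + 2 ^ (s₀ + b * ℓ - v)) (n : ℤ)
          rwa [add_sub_cancel_left] at h2
        have h3 : ∀ i, i ≤ s₀ + b * ℓ - v → ((2 : ℤ) ^ i ∣ R.derivative.eval ((n : ℤ) + 2 ^ (s₀ + b * ℓ - v)) ↔
            (2 : ℤ) ^ i ∣ R.derivative.eval (n : ℤ)) := fun i hi => dz_iff ((pow_dvd_pow 2 hi).trans h1)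
        rw [h3 v (by omega), h3 (v + 1) (by omega)]
        refine and_congr_right fun hE => ?_
        have h4 := dz_eval R (n : ℤ) v (s₀ + b * ℓ) hE.1 (by omega)
        have h5 : ∀ b' ∈ Z', (Bad (R.eval ((n : ℤ) + 2 ^ (s₀ + b * ℓ - v))) (s₀ + b' * ℓ) t ↔
            Bad (R.eval (n : ℤ)) (s₀ + b' * ℓ) t) := by
          intro b' hb'
          refine bad_congr _ _ _ _ ((pow_dvd_pow 2 ?_).trans h4)
          have h6 : (b' + 1) * ℓ ≤ b * ℓ := Nat.mul_le_mul_right ℓ (hb b' hb')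
          rw [add_mul, one_mul] at h6
          omega
        exact ⟨fun h b' hb' => (h5 b' hb').1 (h b' hb'), fun h b' hb' => (h5 b' hb').2 (h b' hb')⟩)
      (fun n h => h.1)
    have ih' := ih hZ'
    rw [card_insert_of_notMem hbn, mul_add, mul_one, pow_add]
    have he : ((range (2 ^ (s₀ + B * ℓ))).filter fun n : ℕ =>
      ((2 : ℤ) ^ v ∣ R.derivative.eval (n : ℤ) ∧ ¬ (2 : ℤ) ^ (v + 1) ∣ R.derivative.eval (n : ℤ)) ∧
        ∀ b' ∈ insert b Z', Bad (R.eval (n : ℤ)) (s₀ + b' * ℓ) t) =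
        ((range (2 ^ (s₀ + B * ℓ))).filter fun n : ℕ =>
      (((2 : ℤ) ^ v ∣ R.derivative.eval (n : ℤ) ∧ ¬ (2 : ℤ) ^ (v + 1) ∣ R.derivative.eval (n : ℤ)) ∧
        ∀ b' ∈ Z', Bad (R.eval (n : ℤ)) (s₀ + b' * ℓ) t) ∧ Bad (R.eval (n : ℤ)) (s₀ + b * ℓ) t) := by
      refine filter_congr fun n _ => ?_
      rw [forall_mem_insert]
      tauto
    rw [he, mul_assoc, hstep]
    exact ih'

private theorem dz_one (R : ℤ[X]) (r e : ℕ) (he : R.derivative.natDegree ≤ e)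
    (hr : ¬ (2 : ℤ) ^ r ∣ R.derivative.coeff e) (s₀ ℓ t B q : ℕ) (ht : 1 ≤ t) (hℓ : t ≤ ℓ)
    (hs₀ : t + 2 * (r + B * e) + 1 ≤ s₀) (hq : 2 * B ≤ (t - 1) * q) :
    (((range (2 ^ (s₀ + B * ℓ))).filter fun n : ℕ => q ≤ nbad (R.eval (n : ℤ)) s₀ ℓ t B).card : ℝ) ≤
      (e + 1) * 2 ^ (s₀ + B * ℓ) / 2 ^ B := by
  classical
  set M : ℕ := s₀ + B * ℓ with hM
  set w : ℕ := r + B * e with hw
  have hBM : B ≤ M := by
    have h1 : B * 1 ≤ B * ℓ := Nat.mul_le_mul_left B (ht.trans hℓ)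
    omega
  let U : ℕ → Finset ℕ := fun v => (range (2 ^ M)).filter fun n : ℕ =>
    (2 : ℤ) ^ v ∣ R.derivative.eval (n : ℤ) ∧ ¬ (2 : ℤ) ^ (v + 1) ∣ R.derivative.eval (n : ℤ)
  let T : ℕ → Finset ℕ → Finset ℕ := fun v Z => (range (2 ^ M)).filter fun n : ℕ =>
    ((2 : ℤ) ^ v ∣ R.derivative.eval (n : ℤ) ∧ ¬ (2 : ℤ) ^ (v + 1) ∣ R.derivative.eval (n : ℤ)) ∧
      ∀ b ∈ Z, Bad (R.eval (n : ℤ)) (s₀ + b * ℓ) t
  have hsub : ((range (2 ^ M)).filter fun n : ℕ => q ≤ nbad (R.eval (n : ℤ)) s₀ ℓ t B) ⊆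
      ((range (2 ^ M)).filter fun n : ℕ => (2 : ℤ) ^ w ∣ R.derivative.eval (n : ℤ)) ∪
        (range w).biUnion fun v => (powersetCard q (range B)).biUnion fun Z => T v Z := by
    intro n hn
    rw [mem_filter] at hn
    rw [mem_union, mem_filter]
    by_cases h1 : (2 : ℤ) ^ w ∣ R.derivative.eval (n : ℤ)
    · exact Or.inl ⟨hn.1, h1⟩
    · right
      obtain ⟨v, hv, hE⟩ := dz_exact h1
      have h2 := hn.2
      unfold nbad at h2
      obtain ⟨Z, hZ, hZc⟩ := exists_subset_card_eq h2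
      rw [mem_biUnion]
      refine ⟨v, mem_range.2 hv, ?_⟩
      rw [mem_biUnion]
      refine ⟨Z, mem_powersetCard.2 ⟨hZ.trans (filter_subset _ _), hZc⟩, ?_⟩
      simp only [T, mem_filter]
      exact ⟨hn.1, hE, fun b hb => (mem_filter.1 (hZ hb)).2⟩
  have hcard := card_le_card hsub
  have h1 : ((((range (2 ^ M)).filter fun n : ℕ => (2 : ℤ) ^ w ∣ R.derivative.eval (n : ℤ)).card : ℕ) : ℝ) ≤
      e * 2 ^ M / 2 ^ B := val_count r B e R.derivative he hr w le_rfl M hBM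
  have hT : ∀ v ∈ range w, ∀ Z ∈ powersetCard q (range B), (((T v Z).card : ℕ) : ℝ) ≤ ((U v).card : ℝ) / 2 ^ (2 * B) := by
    intro v hv Z hZ
    rw [mem_range] at hv
    rw [mem_powersetCard] at hZ
    have h2 := all_blocks R v s₀ ℓ t B ht hℓ (by omega) Z hZ.1
    rw [hZ.2] at h2
    have h3 : (2 : ℝ) ^ ((t - 1) * q) * ((T v Z).card : ℝ) ≤ ((U v).card : ℝ) := by exact_mod_cast h2
    have h4 : (2 : ℝ) ^ (2 * B) ≤ 2 ^ ((t - 1) * q) := pow_le_pow_right₀ (by norm_num) hq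
    rw [le_div_iff₀ (by positivity)]
    have h5 : (0 : ℝ) ≤ ((T v Z).card : ℝ) := Nat.cast_nonneg _
    have h6 := mul_le_mul_of_nonneg_right h4 h5
    linarith
  have hTs : ∀ v ∈ range w, ∑ Z ∈ powersetCard q (range B), (((T v Z).card : ℕ) : ℝ) ≤ ((U v).card : ℝ) / 2 ^ B := by
    intro v hv
    refine (Finset.sum_le_sum (hT v hv)).trans ?_
    rw [Finset.sum_const, card_powersetCard, card_range, nsmul_eq_mul]
    have h2 : ((B.choose q : ℕ) : ℝ) ≤ 2 ^ B := by exact_mod_cast Nat.choose_le_two_pow B q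
    have h3 : (0 : ℝ) ≤ ((U v).card : ℝ) / 2 ^ (2 * B) := by positivity
    refine (mul_le_mul_of_nonneg_right h2 h3).trans (le_of_eq ?_)
    rw [two_mul, pow_add]
    field_simp
  have hU : ∑ v ∈ range w, ((U v).card : ℝ) ≤ 2 ^ M := by
    have h2 : ((range w).biUnion U).card = ∑ v ∈ range w, (U v).card := by
      refine card_biUnion ?_
      intro v _ v' _ hvv
      rw [Function.onFun, Finset.disjoint_left]
      intro n hn hn'
      simp only [U, mem_filter] at hn hn'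
      rcases lt_or_gt_of_ne hvv with h | h
      · exact hn.2.2 ((pow_dvd_pow 2 h).trans hn'.2.1)
      · exact hn'.2.2 ((pow_dvd_pow 2 h).trans hn.2.1)
    have h3 : ((range w).biUnion U).card ≤ 2 ^ M := by
      have h4 : (range w).biUnion U ⊆ range (2 ^ M) := by
        intro n hn
        rw [mem_biUnion] at hn
        obtain ⟨v, -, hn⟩ := hn
        exact (mem_filter.1 hn).1
      have := card_le_card h4
      rwa [card_range] at this
    rw [h2] at h3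
    exact_mod_cast h3
  have h7 : ((((range (2 ^ M)).filter fun n : ℕ => q ≤ nbad (R.eval (n : ℤ)) s₀ ℓ t B).card : ℕ) : ℝ) ≤
      e * 2 ^ M / 2 ^ B + ∑ v ∈ range w, ((U v).card : ℝ) / 2 ^ B := by
    have h8 : (((((range w).biUnion fun v => (powersetCard q (range B)).biUnion fun Z => T v Z)).card : ℕ) : ℝ) ≤
        ∑ v ∈ range w, ∑ Z ∈ powersetCard q (range B), (((T v Z).card : ℕ) : ℝ) := by
      have h9 : ((range w).biUnion fun v => (powersetCard q (range B)).biUnion fun Z => T v Z).card ≤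
          ∑ v ∈ range w, ∑ Z ∈ powersetCard q (range B), (T v Z).card :=
        card_biUnion_le.trans (Finset.sum_le_sum fun v _ => card_biUnion_le)
      exact_mod_cast h9
    have h10 := hcard.trans (card_union_le _ _)
    have h11 : ((((range (2 ^ M)).filter fun n : ℕ => q ≤ nbad (R.eval (n : ℤ)) s₀ ℓ t B).card : ℕ) : ℝ) ≤
        ((((range (2 ^ M)).filter fun n : ℕ => (2 : ℤ) ^ w ∣ R.derivative.eval (n : ℤ)).card : ℕ) : ℝ) +
          (((((range w).biUnion fun v => (powersetCard q (range B)).biUnion fun Z => T v Z)).card : ℕ) : ℝ) := by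
      exact_mod_cast h10
    refine h11.trans (add_le_add h1 (h8.trans (Finset.sum_le_sum hTs)))
  refine h7.trans ?_
  rw [← Finset.sum_div]
  have h12 : (∑ v ∈ range w, ((U v).card : ℝ)) / 2 ^ B ≤ 2 ^ M / 2 ^ B :=
    div_le_div_of_nonneg_right hU (by positivity)
  have e1 : ((e : ℝ) + 1) * 2 ^ M / 2 ^ B = e * 2 ^ M / 2 ^ B + 2 ^ M / 2 ^ B := by ring
  rw [e1]
  linarith

/-- Few `n` have many bad blocks. -/
theorem bad_count (R : ℤ[X]) (r e : ℕ) (he : R.derivative.natDegree ≤ e)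
    (hr : ¬ (2 : ℤ) ^ r ∣ R.derivative.coeff e) (s₀ ℓ t B q : ℕ) (ht : 1 ≤ t) (hℓ : t ≤ ℓ)
    (hs₀ : t + 2 * (r + B * e) + 1 ≤ s₀) (hq : 2 * B ≤ (t - 1) * q) (N : ℕ)
    (hN : 2 ^ (s₀ + B * ℓ) ≤ N) :
    (((range N).filter fun n : ℕ => q ≤ nbad (R.eval (n : ℤ)) s₀ ℓ t B).card : ℝ) ≤
      2 * (e + 1) * N / 2 ^ B := by
  have h1 := dz_one R r e he hr s₀ ℓ t B q ht hℓ hs₀ hq
  set m : ℕ := 2 ^ (s₀ + B * ℓ) with hm
  have hm0 : 0 < m := by positivity
  have hper : ∀ n : ℕ, q ≤ nbad (R.eval ((n + m : ℕ) : ℤ)) s₀ ℓ t B ↔ q ≤ nbad (R.eval (n : ℤ)) s₀ ℓ t B := by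
    intro n
    have h2 : (2 : ℤ) ^ (s₀ + B * ℓ) ∣ R.eval ((n + m : ℕ) : ℤ) - R.eval (n : ℤ) := by
      have h3 := R.sub_dvd_eval_sub ((n + m : ℕ) : ℤ) (n : ℤ)
      have h4 : ((n + m : ℕ) : ℤ) - (n : ℤ) = 2 ^ (s₀ + B * ℓ) := by
        rw [hm]
        push_cast
        ring
      rwa [h4] at h3
    have h5 : nbad (R.eval ((n + m : ℕ) : ℤ)) s₀ ℓ t B = nbad (R.eval (n : ℤ)) s₀ ℓ t B := by
      unfold nbad
      congr 1
      refine filter_congr fun b hb => ?_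
      refine bad_congr _ _ _ _ ((pow_dvd_pow 2 ?_).trans h2)
      have h6 : (b + 1) * ℓ ≤ B * ℓ := Nat.mul_le_mul_right ℓ (mem_range.1 hb)
      rw [add_mul, one_mul] at h6
      omega
    rw [h5]
  have h2 := dz_per (fun n : ℕ => q ≤ nbad (R.eval (n : ℤ)) s₀ ℓ t B) m hper (N / m + 1)
  have h3 : ((range N).filter fun n : ℕ => q ≤ nbad (R.eval (n : ℤ)) s₀ ℓ t B).card ≤
      ((range ((N / m + 1) * m)).filter fun n : ℕ => q ≤ nbad (R.eval (n : ℤ)) s₀ ℓ t B).card := by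
    refine card_le_card (filter_subset_filter _ (range_subset_range.2 ?_))
    have h4 := Nat.div_add_mod N m
    have h5 := Nat.mod_lt N hm0
    rw [add_mul, one_mul, mul_comm]
    omega
  rw [h2] at h3
  have h4 : (((range N).filter fun n : ℕ => q ≤ nbad (R.eval (n : ℤ)) s₀ ℓ t B).card : ℝ) ≤
      ((N / m + 1 : ℕ) : ℝ) * (((range m).filter fun n : ℕ => q ≤ nbad (R.eval (n : ℤ)) s₀ ℓ t B).card : ℝ) := by
    exact_mod_cast h3
  have h5 : ((N / m + 1 : ℕ) : ℝ) * (m : ℝ) ≤ 2 * N := by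
    have h6 : (N / m + 1) * m ≤ 2 * N := by
      have h7 := Nat.div_mul_le_self N m
      rw [add_mul, one_mul]
      omega
    exact_mod_cast h6
  have hmr : ((m : ℕ) : ℝ) = 2 ^ (s₀ + B * ℓ) := by
    rw [hm]
    push_cast
    rfl
  rw [← hmr] at h1
  refine h4.trans ((mul_le_mul_of_nonneg_left h1 (Nat.cast_nonneg _)).trans ?_)
  have h8 : ((N / m + 1 : ℕ) : ℝ) * ((e + 1) * (m : ℝ) / 2 ^ B) = (((N / m + 1 : ℕ) : ℝ) * (m : ℝ)) * ((e + 1) / 2 ^ B) := by ring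
  rw [h8]
  have h9 : (0 : ℝ) ≤ ((e : ℝ) + 1) / 2 ^ B := by positivity
  refine (mul_le_mul_of_nonneg_right h5 h9).trans (le_of_eq ?_)
  ring

end Pool.Agent.Lib.MP_8fac0f_nt.AC
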