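import Pool.Agent.Lib.MP_8fac0f_nt.N.Defs

/-!
# Thue-Morse along polynomials, almost all constant terms: definitions

`sg n = (-1) ^ (binary sum of digits of n)` is in `N/Defs.lean`.
-/

set_option autoImplicit false

namespace Pool.Agent.Lib.MP_8fac0f_nt.AC

open Finset Polynomial N

/-- Signed transfer of `K` digits of the sums `u i + x`, `x < 2 ^ K`, with any function `h` of
the upper parts. -/
noncomputable def T {I : Type*} [Fintype I] (K : ℕ) (u : I → ℕ) (h : (I → ℕ) → ℝ) : ℝ :=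
  ∑ x ∈ range (2 ^ K), (∏ i, sg ((u i + x) % 2 ^ K)) * h (fun i => (u i + x) / 2 ^ K)

/-- `D` is at distance less than `2 ^ k` from a multiple of `2 ^ (k + t)`. -/
def Bad (D : ℤ) (k t : ℕ) : Prop := (D + 2 ^ k) % 2 ^ (k + t) < 2 ^ (k + 1)

instance (D : ℤ) (k t : ℕ) : Decidable (Bad D k t) := by unfold Bad; infer_instance

/-- Number of bad blocks among the `B` blocks `[s₀ + b ℓ, s₀ + b ℓ + ℓ)`. -/
def nbad (D : ℤ) (s₀ ℓ t B : ℕ) : ℕ := ((range B).filter fun b => Bad D (s₀ + b * ℓ) t).card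

/-- The product of the signs at `P j n + a`. -/
noncomputable def F {J : Type*} [Fintype J] (P : J → ℤ[X]) (n a : ℕ) : ℝ :=
  ∏ j, sg (((P j).eval (n : ℤ)).toNat + a)

/-- The Thue-Morse sequence. -/
def tm (n : ℕ) : ℕ := (Nat.digits 2 n).sum % 2

/-- Number of `n < N` such that `tm (P i n + a) = w i` for all `i`. -/
def cnt {m : ℕ} (P : Fin m → ℤ[X]) (w : Fin m → Fin 2) (a N : ℕ) : ℕ :=
  ((range N).filter fun n : ℕ => ∀ i, tm (((P i).eval (n : ℤ)).toNat + a) = w i).card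

end Pool.Agent.Lib.MP_8fac0f_nt.AC
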