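import Pool.Agent.Lib.MP_8fac0f_nt.AC.Defs

/-!
# Most scales in the logarithmic sense
-/

set_option autoImplicit false

namespace Pool.Agent.Lib.MP_8fac0f_nt.AC

open Finset

/-- the frequency of some word at scale `N` is off by more than `A ^ (-c)` -/
def BadAt {m : ℕ} (cnt : (Fin m → Fin 2) → ℕ → ℕ → ℕ) (c : ℝ) (A a N : ℕ) : Prop :=
  ∃ w : Fin m → Fin 2, (A : ℝ) ^ (-c) < |(cnt w a N : ℝ) / N - 1 / 2 ^ m|

open Classical in
/-- The bad scales up to `X` have logarithmic measure at most `A ^ (-c) * log X`. -/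
def LogGood {m : ℕ} (cnt : (Fin m → Fin 2) → ℕ → ℕ → ℕ) (c : ℝ) (A X a : ℕ) : Prop :=
  ∑ N ∈ (Icc 1 X).filter (BadAt cnt c A a), (1 / N : ℝ) ≤ (A : ℝ) ^ (-c) * Real.log X

theorem LogGood.mono {m : ℕ} {cnt : (Fin m → Fin 2) → ℕ → ℕ → ℕ} {c d : ℝ} (hcd : c ≤ d)
    {A X a : ℕ} (hA : 1 ≤ A) (h : LogGood cnt d A X a) : LogGood cnt c A X a := by
  classical
  have hA' : (1 : ℝ) ≤ A := by exact_mod_cast hA
  have h1 : (A : ℝ) ^ (-d) ≤ (A : ℝ) ^ (-c) :=
    Real.rpow_le_rpow_of_exponent_le hA' (by linarith)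
  unfold LogGood at h ⊢
  refine (sum_le_sum_of_subset_of_nonneg ?_ fun _ _ _ => by positivity).trans (h.trans ?_)
  · intro N hN
    rw [mem_filter] at hN ⊢
    obtain ⟨w, hw⟩ := hN.2
    exact ⟨hN.1, w, h1.trans_lt hw⟩
  · exact mul_le_mul_of_nonneg_right h1 (Real.log_natCast_nonneg _)

private theorem lg_harm (n : ℕ) : ∑ N ∈ Icc 1 n, (1 / N : ℝ) ≤ 1 + Real.log n := by
  have h := harmonic_le_one_add_log n
  rw [harmonic_eq_sum_Icc] at h
  push_cast at h
  simpa using h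

theorem log_one {m : ℕ} (c₀ K₀ : ℝ) (hc₀ : 0 < c₀) (hK₀ : 0 < K₀) :
    ∃ c K : ℝ, 0 < c ∧ 0 < K ∧ ∀ cnt : (Fin m → Fin 2) → ℕ → ℕ → ℕ,
      (∀ (w : Fin m → Fin 2) (b A N : ℕ), 1 ≤ A → 1 ≤ N →
        (∑ a ∈ Ico b (b + A), ((cnt w a N : ℝ) / N - 1 / 2 ^ m) ^ 2) / A ≤
          K₀ * ((A : ℝ) ^ (-c₀) + (N : ℝ) ^ (-c₀))) →
      ∀ b A X : ℕ, 1 ≤ A → (A : ℝ) ^ 2 ≤ Real.log X → ∃ E : Finset ℕ,
        (E.card : ℝ) ≤ K * (A : ℝ) ^ (1 - c) ∧
        ∀ a ∈ Ico b (b + A), a ∉ E → LogGood cnt c A X a := by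
  classical
  set d := min c₀ 1 with hd
  have hd0 : 0 < d := lt_min hc₀ one_pos
  have hd1 : d ≤ 1 := min_le_right _ _
  have hdc : d ≤ c₀ := min_le_left _ _
  refine ⟨d / 8, 2 + 2 ^ (m + 2) * K₀, by positivity, by positivity,
    fun cnt h b A X hA hX => ?_⟩
  set c := d / 8 with hc
  have hc0 : 0 < c := by positivity
  have hA' : (1 : ℝ) ≤ A := by exact_mod_cast hA
  have hA0 : (0 : ℝ) < A := by linarith
  have hlog : 1 ≤ Real.log X := le_trans (by nlinarith) hX
  set ε : ℝ := (A : ℝ) ^ (-c) with hε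
  have hε0 : 0 < ε := by positivity
  set U := Ico b (b + A) with hU
  have hUc : (U.card : ℝ) = A := by rw [hU, Nat.card_Ico, Nat.add_sub_cancel_left]
  set E := U.filter fun a => ¬ LogGood cnt c A X a with hE
  refine ⟨E, ?_, fun a ha haE => ?_⟩
  swap
  · by_contra hcon
    exact haE (mem_filter.2 ⟨ha, hcon⟩)
  -- number of constants which are bad at one scale
  have hN : ∀ N : ℕ, A ≤ N → ((U.filter fun a => BadAt cnt c A a N).card : ℝ) ≤
      2 ^ (m + 1) * K₀ * (A : ℝ) ^ (1 - d + 2 * c) := by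
    intro N hAN
    have hN1 : 1 ≤ N := hA.trans hAN
    have hN' : (A : ℝ) ≤ N := by exact_mod_cast hAN
    have e1 : ((U.filter fun a => BadAt cnt c A a N).card : ℝ) * ε ^ 2 ≤
        ∑ a ∈ U, ∑ w : Fin m → Fin 2, ((cnt w a N : ℝ) / N - 1 / 2 ^ m) ^ 2 := by
      calc ((U.filter fun a => BadAt cnt c A a N).card : ℝ) * ε ^ 2
          = ∑ a ∈ U.filter fun a => BadAt cnt c A a N, ε ^ 2 := by
            rw [sum_const, nsmul_eq_mul]
        _ ≤ ∑ a ∈ U.filter fun a => BadAt cnt c A a N,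
              ∑ w : Fin m → Fin 2, ((cnt w a N : ℝ) / N - 1 / 2 ^ m) ^ 2 := by
            refine sum_le_sum fun a ha => ?_
            obtain ⟨w, hw⟩ := (mem_filter.1 ha).2
            refine le_trans ?_ (single_le_sum (f := fun w => ((cnt w a N : ℝ) / N - 1 / 2 ^ m) ^ 2)
              (fun _ _ => sq_nonneg _) (mem_univ w))
            show ε ^ 2 ≤ ((cnt w a N : ℝ) / N - 1 / 2 ^ m) ^ 2
            rw [← sq_abs ((cnt w a N : ℝ) / N - 1 / 2 ^ m)]
            exact pow_le_pow_left₀ hε0.le hw.le 2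
        _ ≤ _ := sum_le_sum_of_subset_of_nonneg (filter_subset _ _) fun a _ _ =>
            sum_nonneg fun _ _ => sq_nonneg _
    have e2 : ∑ a ∈ U, ∑ w : Fin m → Fin 2, ((cnt w a N : ℝ) / N - 1 / 2 ^ m) ^ 2 ≤
        2 ^ m * (A * (K₀ * (2 * (A : ℝ) ^ (-d)))) := by
      rw [sum_comm]
      calc ∑ w : Fin m → Fin 2, ∑ a ∈ U, ((cnt w a N : ℝ) / N - 1 / 2 ^ m) ^ 2
          ≤ ∑ w : Fin m → Fin 2, A * (K₀ * (2 * (A : ℝ) ^ (-d))) := by
            refine sum_le_sum fun w _ => ?_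
            have h1 := h w b A N hA hN1
            rw [div_le_iff₀ hA0] at h1
            refine h1.trans ?_
            rw [mul_comm]
            apply mul_le_mul_of_nonneg_left _ hA0.le
            apply mul_le_mul_of_nonneg_left _ hK₀.le
            have e3 : (A : ℝ) ^ (-c₀) ≤ (A : ℝ) ^ (-d) :=
              Real.rpow_le_rpow_of_exponent_le hA' (by linarith)
            have e4 : (N : ℝ) ^ (-c₀) ≤ (A : ℝ) ^ (-d) :=
              (Real.rpow_le_rpow_of_nonpos hA0 hN' (by linarith)).trans e3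
            linarith
        _ = 2 ^ m * (A * (K₀ * (2 * (A : ℝ) ^ (-d)))) := by
            rw [sum_const, card_univ, Fintype.card_fun, Fintype.card_fin, Fintype.card_fin,
              nsmul_eq_mul]
            push_cast
            ring
    have e5 : ε ^ 2 * (A : ℝ) ^ (1 - d + 2 * c) = A * (A : ℝ) ^ (-d) := by
      rw [hε, ← Real.rpow_natCast, ← Real.rpow_mul hA0.le, ← Real.rpow_add hA0]
      nth_rw 2 [← Real.rpow_one (A : ℝ)]
      rw [← Real.rpow_add hA0]
      congr 1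
      push_cast
      ring
    have e6 : ((U.filter fun a => BadAt cnt c A a N).card : ℝ) * ε ^ 2 ≤
        (2 ^ (m + 1) * K₀ * (A : ℝ) ^ (1 - d + 2 * c)) * ε ^ 2 := by
      refine (e1.trans e2).trans (le_of_eq ?_)
      calc 2 ^ m * (A * (K₀ * (2 * (A : ℝ) ^ (-d)))) = 2 ^ (m + 1) * K₀ * (A * (A : ℝ) ^ (-d)) := by
            ring
        _ = _ := by rw [← e5]; ring
    exact le_of_mul_le_mul_right e6 (by positivity)
  -- the total
  have hX1 : A ≤ X := by
    by_contra hcon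
    push Not at hcon
    have h1 : Real.log X ≤ Real.log A := by
      rcases Nat.eq_zero_or_pos X with h0 | h0
      · rw [h0]
        simp
        exact Real.log_natCast_nonneg _
      · exact Real.log_le_log (by exact_mod_cast h0) (by exact_mod_cast hcon.le)
    have h2 : Real.log A < A := by
      have := Real.log_le_sub_one_of_pos hA0
      linarith
    nlinarith
  have htot : ∑ a ∈ U, ∑ N ∈ (Icc 1 X).filter (BadAt cnt c A a), (1 / N : ℝ) ≤
      A * (1 + Real.log A) + (1 + Real.log X) * (2 ^ (m + 1) * K₀ * (A : ℝ) ^ (1 - d + 2 * c)) := by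
    have e1 : ∑ a ∈ U, ∑ N ∈ (Icc 1 X).filter (BadAt cnt c A a), (1 / N : ℝ) =
        ∑ N ∈ Icc 1 X, (1 / N : ℝ) * (U.filter fun a => BadAt cnt c A a N).card := by
      simp only [sum_filter]
      rw [sum_comm]
      refine sum_congr rfl fun N _ => ?_
      rw [← sum_filter, sum_const, nsmul_eq_mul, mul_comm]
    rw [e1]
    have e2 : ∀ N ∈ Icc 1 X, (1 / N : ℝ) * (U.filter fun a => BadAt cnt c A a N).card ≤
        (if N ≤ A then (1 / N : ℝ) * A else 0) +
          (1 / N : ℝ) * (2 ^ (m + 1) * K₀ * (A : ℝ) ^ (1 - d + 2 * c)) := by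
      intro N _
      have hnn : (0 : ℝ) ≤ 1 / N := by positivity
      by_cases hNA : N ≤ A
      · rw [if_pos hNA]
        have e3 : ((U.filter fun a => BadAt cnt c A a N).card : ℝ) ≤ A := by
          rw [← hUc]
          exact_mod_cast card_le_card (filter_subset _ _)
        have e4 := mul_le_mul_of_nonneg_left e3 hnn
        have e5 : 0 ≤ (1 / N : ℝ) * (2 ^ (m + 1) * K₀ * (A : ℝ) ^ (1 - d + 2 * c)) := by positivity
        linarith
      · rw [if_neg hNA, zero_add]
        exact mul_le_mul_of_nonneg_left (hN N (by omega)) hnn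
    refine (sum_le_sum e2).trans ?_
    rw [sum_add_distrib, ← sum_mul, ← sum_filter, ← sum_mul]
    apply add_le_add
    · rw [mul_comm]
      apply mul_le_mul_of_nonneg_left _ hA0.le
      refine le_trans (sum_le_sum_of_subset_of_nonneg ?_ fun _ _ _ => by positivity) (lg_harm A)
      intro N hN
      rw [mem_filter, mem_Icc] at hN
      exact mem_Icc.2 ⟨hN.1.1, hN.2⟩
    · exact mul_le_mul_of_nonneg_right (lg_harm X) (by positivity)
  -- Markov
  have hmarkov : (E.card : ℝ) * (ε * Real.log X) ≤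
      ∑ a ∈ U, ∑ N ∈ (Icc 1 X).filter (BadAt cnt c A a), (1 / N : ℝ) := by
    calc (E.card : ℝ) * (ε * Real.log X) = ∑ a ∈ E, ε * Real.log X := by
          rw [sum_const, nsmul_eq_mul]
      _ ≤ ∑ a ∈ E, ∑ N ∈ (Icc 1 X).filter (BadAt cnt c A a), (1 / N : ℝ) := by
          refine sum_le_sum fun a ha => ?_
          have := (mem_filter.1 ha).2
          unfold LogGood at this
          push Not at this
          exact this.le
      _ ≤ _ := sum_le_sum_of_subset_of_nonneg (filter_subset _ _) fun a _ _ =>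
          sum_nonneg fun _ _ => by positivity
  have hlA : Real.log A ≤ A - 1 := Real.log_le_sub_one_of_pos hA0
  have f1 : A * (1 + Real.log A) ≤ Real.log X := by nlinarith
  have f2 : (E.card : ℝ) * (ε * Real.log X) ≤
      (2 + 2 ^ (m + 2) * K₀) * (A : ℝ) ^ (1 - c) * (ε * Real.log X) := by
    refine (hmarkov.trans htot).trans ?_
    have g1 : ε * (A : ℝ) ^ (1 - c) = (A : ℝ) ^ (1 - 2 * c) := by
      rw [hε, ← Real.rpow_add hA0]
      congr 1
      ring
    have g2 : (1 : ℝ) ≤ (A : ℝ) ^ (1 - 2 * c) := by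
      apply Real.one_le_rpow hA'
      rw [hc]
      linarith
    have g3 : (A : ℝ) ^ (1 - d + 2 * c) ≤ (A : ℝ) ^ (1 - 2 * c) := by
      apply Real.rpow_le_rpow_of_exponent_le hA'
      rw [hc]
      linarith
    calc A * (1 + Real.log A) + (1 + Real.log X) * (2 ^ (m + 1) * K₀ * (A : ℝ) ^ (1 - d + 2 * c))
        ≤ Real.log X * (A : ℝ) ^ (1 - 2 * c) +
          (2 * Real.log X) * (2 ^ (m + 1) * K₀ * (A : ℝ) ^ (1 - 2 * c)) := by
          apply add_le_add
          · nlinarith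
          · apply mul_le_mul (by linarith) _ (by positivity) (by positivity)
            exact mul_le_mul_of_nonneg_left g3 (by positivity)
      _ ≤ (2 + 2 ^ (m + 2) * K₀) * (A : ℝ) ^ (1 - c) * (ε * Real.log X) := by
          have g4 : (2 + 2 ^ (m + 2) * K₀) * (A : ℝ) ^ (1 - c) * (ε * Real.log X) =
              (2 + 2 ^ (m + 2) * K₀) * ((A : ℝ) ^ (1 - 2 * c) * Real.log X) := by
            rw [← g1]; ring
          rw [g4]
          have g5 : 0 ≤ (A : ℝ) ^ (1 - 2 * c) * Real.log X := by positivity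
          have g6 : (2 : ℝ) ^ (m + 2) = 2 * 2 ^ (m + 1) := by ring
          rw [g6]
          nlinarith
  exact le_of_mul_le_mul_right f2 (by positivity)

end Pool.Agent.Lib.MP_8fac0f_nt.AC
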