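import Pool.Agent.Lib.MP_8fac0f_nt.AC.Defs

/-!
# Row SC: all scales, upper and lower densities

Let c, C be as in h (c <= 1 without loss), g = c / 16 the new exponent. For A smaller than a constant
A0 take E = Ico b (b + A) (constant large). Otherwise let Q = floor(A^(2g)) (so 1/Q <= A^(-g)/8 or so),
scales N' = i 2^j with Q <= i < 2Q, 2^j <= exp(A^g): every N >= Q has N' <= N < N' + N'/Q for one of
them (j with Q <= N / 2^j < 2Q, i = floor(N/2^j)). For one scale and one word the a with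
|cnt - N'/2^m| > N'/Q are at most Q^2 C A (2 (A/2)^(-c)) (h, Markov; N' >= A/2). Scales: at most
2Q (2 A^g + 1). Total <= C' A^(1 - c + 2g * 3 + g) 2^m <= C' A^(1 - g). For N in [N', N' + N'/Q]:
|cnt N - cnt N'| <= N - N' <= N'/Q, so |cnt N - N/2^m| <= 3 N/Q.
Upper density: let E2(w) be the set of a in [b, b+A) for which the second statement fails: for N
beyond all their N0 (finite set) cnt < (1/2^m - A^(-g)) N for all a in E2, so by h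
#E2 A^(-2g) N^2 <= C A N^2 (A^(-c) + N^(-c)), N -> infinity or N >= A: #E2 <= 2 C A^(1 - c + 2g).
Same for the third statement. E = union.
-/

set_option autoImplicit false

namespace Pool.Agent.Lib.MP_8fac0f_nt.AC

open Finset Polynomial N

private theorem sc_markov (s : Finset ℕ) (p : ℕ → Prop) [DecidablePred p] (f : ℕ → ℝ) (t : ℝ) (ht : 0 ≤ t)
    (hp : ∀ a ∈ s, p a → t ≤ |f a|) : ((s.filter p).card : ℝ) * t ^ 2 ≤ ∑ a ∈ s, f a ^ 2 := by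
  calc ((s.filter p).card : ℝ) * t ^ 2 = ∑ a ∈ s.filter p, t ^ 2 := by rw [sum_const, nsmul_eq_mul]
    _ ≤ ∑ a ∈ s.filter p, f a ^ 2 := by
        refine sum_le_sum fun a ha => ?_
        rw [mem_filter] at ha
        rw [← sq_abs (f a)]
        exact pow_le_pow_left₀ ht (hp a ha.1 ha.2) 2
    _ ≤ ∑ a ∈ s, f a ^ 2 := sum_le_sum_of_subset_of_nonneg (filter_subset _ _) fun a _ _ => sq_nonneg _

private theorem sc_biUnion {ι : Type*} (s : Finset ι) (f : ι → Finset ℕ) (B : ℝ)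
    (h : ∀ i ∈ s, ((f i).card : ℝ) ≤ B) : ((s.biUnion f).card : ℝ) ≤ s.card * B := by
  calc ((s.biUnion f).card : ℝ) ≤ ((∑ i ∈ s, (f i).card : ℕ) : ℝ) := by exact_mod_cast card_biUnion_le
    _ = ∑ i ∈ s, ((f i).card : ℝ) := by push_cast; rfl
    _ ≤ ∑ _i ∈ s, B := sum_le_sum h
    _ = s.card * B := by rw [sum_const, nsmul_eq_mul]

private theorem sc_cnt {m : ℕ} (P : Fin m → ℤ[X]) (w : Fin m → Fin 2) (a N' N : ℕ) (h : N' ≤ N) :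
    cnt P w a N' ≤ cnt P w a N ∧ cnt P w a N ≤ cnt P w a N' + (N - N') := by
  classical
  unfold cnt
  refine ⟨card_le_card (filter_subset_filter _ (range_mono h)), ?_⟩
  have h1 : ((range N).filter fun n : ℕ => ∀ i, tm (((P i).eval (n : ℤ)).toNat + a) = w i) ⊆
      ((range N').filter fun n : ℕ => ∀ i, tm (((P i).eval (n : ℤ)).toNat + a) = w i) ∪ Ico N' N := by
    intro x hx
    rw [mem_filter, mem_range] at hx
    rw [mem_union, mem_filter, mem_range, mem_Ico]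
    by_cases hx' : x < N'
    · exact Or.inl ⟨hx', hx.2⟩
    · exact Or.inr ⟨not_lt.1 hx', hx.1⟩
  refine (card_le_card h1).trans ((card_union_le _ _).trans ?_)
  rw [Nat.card_Ico]

private theorem sc_dev {m : ℕ} (P : Fin m → ℤ[X]) (w : Fin m → Fin 2) (a N' N : ℕ) (h : N' ≤ N) :
    |(cnt P w a N : ℝ) - N / 2 ^ m| ≤ |(cnt P w a N' : ℝ) - N' / 2 ^ m| + ((N : ℝ) - N') := by
  obtain ⟨h1, h2⟩ := sc_cnt P w a N' N h
  have h3 : (cnt P w a N' : ℝ) ≤ cnt P w a N := by exact_mod_cast h1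
  have h4 : (cnt P w a N : ℝ) ≤ cnt P w a N' + ((N : ℝ) - N') := by
    rw [← Nat.cast_sub h]
    exact_mod_cast h2
  have h5 : (0 : ℝ) ≤ (N : ℝ) - N' := by
    rw [sub_nonneg]
    exact_mod_cast h
  have h6 : (1 : ℝ) ≤ 2 ^ m := one_le_pow₀ (by norm_num)
  have h7 : (N : ℝ) / 2 ^ m - N' / 2 ^ m ≤ (N : ℝ) - N' := by
    rw [← sub_div]
    exact div_le_self h5 h6
  have h8 : (0 : ℝ) ≤ (N : ℝ) / 2 ^ m - N' / 2 ^ m := by
    rw [← sub_div]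
    positivity
  have h9 := le_abs_self ((cnt P w a N' : ℝ) - N' / 2 ^ m)
  have h10 := neg_abs_le ((cnt P w a N' : ℝ) - N' / 2 ^ m)
  rw [abs_le]
  constructor <;> linarith

/-- the second moment with exponent at most one -/
private theorem sc_min {m : ℕ} (P : Fin m → ℤ[X])
    (h : ∃ c C : ℝ, 0 < c ∧ 0 < C ∧ ∀ (w : Fin m → Fin 2) (b A N : ℕ), 1 ≤ A → 1 ≤ N →
      ∑ a ∈ Ico b (b + A), ((cnt P w a N : ℝ) - N / 2 ^ m) ^ 2 ≤
        C * A * (N : ℝ) ^ 2 * ((A : ℝ) ^ (-c) + (N : ℝ) ^ (-c))) :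
    ∃ c C : ℝ, 0 < c ∧ c ≤ 1 ∧ 0 < C ∧ ∀ (w : Fin m → Fin 2) (b A N : ℕ), 1 ≤ A → A ≤ 2 * N →
      ∑ a ∈ Ico b (b + A), ((cnt P w a N : ℝ) - N / 2 ^ m) ^ 2 ≤ 3 * C * (A : ℝ) ^ (1 - c) * (N : ℝ) ^ 2 := by
  obtain ⟨c, C, hc, hC, h⟩ := h
  refine ⟨min c 1, C, lt_min hc one_pos, min_le_right _ _, hC, fun w b A N hA hN => ?_⟩
  have hN1 : 1 ≤ N := by omega
  have hA' : (1 : ℝ) ≤ A := by exact_mod_cast hA
  have hN' : (1 : ℝ) ≤ N := by exact_mod_cast hN1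
  have hAN : (A : ℝ) / 2 ≤ N := by
    have : (A : ℝ) ≤ 2 * N := by exact_mod_cast hN
    linarith
  set d : ℝ := min c 1 with hd
  have hd0 : 0 < d := lt_min hc one_pos
  have hd1 : d ≤ 1 := min_le_right _ _
  have hdc : d ≤ c := min_le_left _ _
  have e1 : (A : ℝ) ^ (-c) ≤ (A : ℝ) ^ (-d) := Real.rpow_le_rpow_of_exponent_le hA' (by linarith)
  have e2 : (N : ℝ) ^ (-c) ≤ (N : ℝ) ^ (-d) := Real.rpow_le_rpow_of_exponent_le hN' (by linarith)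
  have e3 : (N : ℝ) ^ (-d) ≤ ((A : ℝ) / 2) ^ (-d) :=
    Real.rpow_le_rpow_of_nonpos (by positivity) hAN (by linarith)
  have e4 : ((A : ℝ) / 2) ^ (-d) ≤ 2 * (A : ℝ) ^ (-d) := by
    rw [Real.div_rpow (by positivity) (by norm_num), Real.rpow_neg (by norm_num : (0 : ℝ) ≤ 2), div_inv_eq_mul, mul_comm]
    refine mul_le_mul_of_nonneg_right ?_ (by positivity)
    calc (2 : ℝ) ^ d ≤ 2 ^ (1 : ℝ) := Real.rpow_le_rpow_of_exponent_le (by norm_num) hd1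
      _ = 2 := Real.rpow_one 2
  have e5 : (A : ℝ) ^ (1 - d) = A * (A : ℝ) ^ (-d) := by
    rw [sub_eq_add_neg, Real.rpow_add (by positivity), Real.rpow_one]
  refine (h w b A N hA hN1).trans ?_
  rw [e5]
  have e6 : (A : ℝ) ^ (-c) + (N : ℝ) ^ (-c) ≤ 3 * (A : ℝ) ^ (-d) := by linarith
  calc C * A * (N : ℝ) ^ 2 * ((A : ℝ) ^ (-c) + (N : ℝ) ^ (-c)) ≤ C * A * (N : ℝ) ^ 2 * (3 * (A : ℝ) ^ (-d)) :=
        mul_le_mul_of_nonneg_left e6 (by positivity)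
    _ = 3 * C * (A * (A : ℝ) ^ (-d)) * (N : ℝ) ^ 2 := by ring

/-- the second moment with exponent at most one -/
private theorem sc_min' {m : ℕ} (P : Fin m → ℤ[X]) (c C : ℝ) (hc : 0 < c) (hC : 0 < C)
    (h : ∀ (w : Fin m → Fin 2) (b A N : ℕ), 1 ≤ A → 1 ≤ N →
      ∑ a ∈ Ico b (b + A), ((cnt P w a N : ℝ) - N / 2 ^ m) ^ 2 ≤
        C * A * (N : ℝ) ^ 2 * ((A : ℝ) ^ (-c) + (N : ℝ) ^ (-c))) :
    ∀ (w : Fin m → Fin 2) (b A N : ℕ), 1 ≤ A → A ≤ 2 * N →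
      ∑ a ∈ Ico b (b + A), ((cnt P w a N : ℝ) - N / 2 ^ m) ^ 2 ≤
        3 * C * (A : ℝ) ^ (1 - min c 1) * (N : ℝ) ^ 2 := by
  intro w b A N hA hN
  have hN1 : 1 ≤ N := by omega
  have hA' : (1 : ℝ) ≤ A := by exact_mod_cast hA
  have hN' : (1 : ℝ) ≤ N := by exact_mod_cast hN1
  have hAN : (A : ℝ) / 2 ≤ N := by
    have : (A : ℝ) ≤ 2 * N := by exact_mod_cast hN
    linarith
  set d : ℝ := min c 1 with hd
  have hd0 : 0 < d := lt_min hc one_pos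
  have hd1 : d ≤ 1 := min_le_right _ _
  have hdc : d ≤ c := min_le_left _ _
  have e1 : (A : ℝ) ^ (-c) ≤ (A : ℝ) ^ (-d) := Real.rpow_le_rpow_of_exponent_le hA' (by linarith)
  have e2 : (N : ℝ) ^ (-c) ≤ (N : ℝ) ^ (-d) := Real.rpow_le_rpow_of_exponent_le hN' (by linarith)
  have e3 : (N : ℝ) ^ (-d) ≤ ((A : ℝ) / 2) ^ (-d) :=
    Real.rpow_le_rpow_of_nonpos (by positivity) hAN (by linarith)
  have e4 : ((A : ℝ) / 2) ^ (-d) ≤ 2 * (A : ℝ) ^ (-d) := by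
    rw [Real.div_rpow (by positivity) (by norm_num), Real.rpow_neg (by norm_num : (0 : ℝ) ≤ 2), div_inv_eq_mul, mul_comm]
    refine mul_le_mul_of_nonneg_right ?_ (by positivity)
    calc (2 : ℝ) ^ d ≤ 2 ^ (1 : ℝ) := Real.rpow_le_rpow_of_exponent_le (by norm_num) hd1
      _ = 2 := Real.rpow_one 2
  have e5 : (A : ℝ) ^ (1 - d) = A * (A : ℝ) ^ (-d) := by
    rw [sub_eq_add_neg, Real.rpow_add (by positivity), Real.rpow_one]
  refine (h w b A N hA hN1).trans ?_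
  rw [e5]
  have e6 : (A : ℝ) ^ (-c) + (N : ℝ) ^ (-c) ≤ 3 * (A : ℝ) ^ (-d) := by linarith
  calc C * A * (N : ℝ) ^ 2 * ((A : ℝ) ^ (-c) + (N : ℝ) ^ (-c)) ≤ C * A * (N : ℝ) ^ 2 * (3 * (A : ℝ) ^ (-d)) :=
        mul_le_mul_of_nonneg_left e6 (by positivity)
    _ = 3 * C * (A * (A : ℝ) ^ (-d)) * (N : ℝ) ^ 2 := by ring

private theorem sc_card {S : Finset ℕ} {k x N D : ℝ} (hx : 0 < x) (hN : 0 < N) (h1 : (S.card : ℝ) * (N / x) ^ 2 ≤ D)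
    (h2 : D ≤ k * N ^ 2) : (S.card : ℝ) ≤ k * x ^ 2 := by
  have h3 : (S.card : ℝ) * N ^ 2 ≤ k * x ^ 2 * N ^ 2 := by
    have e : (S.card : ℝ) * N ^ 2 = (S.card : ℝ) * (N / x) ^ 2 * x ^ 2 := by
      field_simp
    rw [e]
    calc (S.card : ℝ) * (N / x) ^ 2 * x ^ 2 ≤ (k * N ^ 2) * x ^ 2 :=
          mul_le_mul_of_nonneg_right (h1.trans h2) (by positivity)
      _ = k * x ^ 2 * N ^ 2 := by ring
  exact le_of_mul_le_mul_right h3 (by positivity)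

/-- the scale of `N` -/
private theorem sc_scale (Q N : ℕ) (hQ : 1 ≤ Q) (hN : Q ≤ N) :
    ∃ i j : ℕ, i ∈ Ico Q (2 * Q) ∧ 2 ^ j ≤ N ∧ i * 2 ^ j ≤ N ∧ N < i * 2 ^ j + 2 ^ j ∧ Q * 2 ^ j ≤ i * 2 ^ j := by
  set j := Nat.log 2 (N / Q) with hj
  have h0 : N / Q ≠ 0 := by
    have := Nat.div_pos hN hQ
    omega
  have h1 : 2 ^ j ≤ N / Q := Nat.pow_log_le_self 2 h0
  have h2 : N / Q < 2 ^ (j + 1) := Nat.lt_pow_succ_log_self (by norm_num) _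
  have h3 : 2 ^ j * Q ≤ N := (Nat.le_div_iff_mul_le hQ).1 h1
  have h4 : N < 2 ^ (j + 1) * Q := (Nat.div_lt_iff_lt_mul hQ).1 h2
  have hp : 0 < 2 ^ j := by positivity
  have h5 : Q ≤ N / 2 ^ j := (Nat.le_div_iff_mul_le hp).2 (by rw [mul_comm]; exact h3)
  have h6 : N / 2 ^ j < 2 * Q := (Nat.div_lt_iff_lt_mul hp).2 (by
    calc N < 2 ^ (j + 1) * Q := h4
      _ = 2 * Q * 2 ^ j := by ring)
  refine ⟨N / 2 ^ j, j, mem_Ico.2 ⟨h5, h6⟩, h1.trans (Nat.div_le_self _ _), Nat.div_mul_le_self _ _, ?_,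
    Nat.mul_le_mul_right _ h5⟩
  exact Nat.lt_div_mul_add hp

private theorem sc_final {m : ℕ} (P : Fin m → ℤ[X]) (c C g : ℝ) (hc : 0 < c) (hc1 : c ≤ 1) (hC : 0 < C) (hg : g = c / 16)
    (h : ∀ (w : Fin m → Fin 2) (b A N : ℕ), 1 ≤ A → A ≤ 2 * N →
      ∑ a ∈ Ico b (b + A), ((cnt P w a N : ℝ) - N / 2 ^ m) ^ 2 ≤ 3 * C * (A : ℝ) ^ (1 - c) * (N : ℝ) ^ 2)
    (b A : ℕ) (hA : 1 ≤ A) (Q : ℕ) (hQ1 : 3 * (A : ℝ) ^ g ≤ Q) (hQ2 : (Q : ℝ) ≤ 4 * (A : ℝ) ^ g) (hQA : Q ≤ A) :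
    ∃ E : Finset ℕ, (E.card : ℝ) ≤ 582 * 2 ^ m * C * (A : ℝ) ^ (1 - g) ∧
      ∀ a ∈ Ico b (b + A), a ∉ E → ∀ w : Fin m → Fin 2,
        (∀ N : ℕ, A ≤ N → (N : ℝ) ≤ Real.exp ((A : ℝ) ^ g) →
          |(cnt P w a N : ℝ) - N / 2 ^ m| ≤ (A : ℝ) ^ (-g) * N) ∧
        (∀ N₀ : ℕ, ∃ N ≥ N₀, (1 / 2 ^ m - (A : ℝ) ^ (-g)) * N ≤ cnt P w a N) ∧
        (∀ N₀ : ℕ, ∃ N ≥ N₀, (cnt P w a N : ℝ) ≤ (1 / 2 ^ m + (A : ℝ) ^ (-g)) * N) := by
  classical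
  have hA' : (1 : ℝ) ≤ A := by exact_mod_cast hA
  have hA0 : (0 : ℝ) < A := by linarith
  have hg0 : 0 < g := by rw [hg]; positivity
  set x : ℝ := (A : ℝ) ^ g with hx
  have hx1 : 1 ≤ x := Real.one_le_rpow hA' hg0.le
  have hx0 : 0 < x := by linarith
  have hxi : (A : ℝ) ^ (-g) = x⁻¹ := Real.rpow_neg hA0.le g
  have hQ0 : (0 : ℝ) < Q := by linarith
  have hQn : 1 ≤ Q := by
    have : 0 < Q := by exact_mod_cast hQ0
    omega
  set J : ℕ := ⌊2 * x⌋₊ with hJ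
  have hJ1 : (J : ℝ) ≤ 2 * x := Nat.floor_le (by positivity)
  set y : ℝ := (A : ℝ) ^ (1 - c) with hy
  have hy0 : 0 < y := by positivity
  have hpow : ∀ k : ℕ, k ≤ 4 → x ^ k * y ≤ (A : ℝ) ^ (1 - g) := by
    intro k hk
    rw [hx, hy, ← Real.rpow_natCast, ← Real.rpow_mul hA0.le, ← Real.rpow_add hA0]
    refine Real.rpow_le_rpow_of_exponent_le hA' ?_
    have hk' : (k : ℝ) ≤ 4 := by exact_mod_cast hk
    have h1 : g * k ≤ g * 4 := mul_le_mul_of_nonneg_left hk' hg0.le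
    rw [hg] at h1 ⊢
    linarith
  -- the exceptional sets
  set B1 : (Fin m → Fin 2) → ℕ × ℕ → Finset ℕ := fun w ij => (Ico b (b + A)).filter fun a =>
    A ≤ 2 * (ij.1 * 2 ^ ij.2) ∧ ((ij.1 * 2 ^ ij.2 : ℕ) : ℝ) / Q < |(cnt P w a (ij.1 * 2 ^ ij.2) : ℝ) - ((ij.1 * 2 ^ ij.2 : ℕ) : ℝ) / 2 ^ m| with hB1
  set B2 : (Fin m → Fin 2) → Finset ℕ := fun w => (Ico b (b + A)).filter fun a =>
    ¬ ∀ N₀ : ℕ, ∃ N ≥ N₀, (1 / 2 ^ m - (A : ℝ) ^ (-g)) * N ≤ cnt P w a N with hB2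
  set B3 : (Fin m → Fin 2) → Finset ℕ := fun w => (Ico b (b + A)).filter fun a =>
    ¬ ∀ N₀ : ℕ, ∃ N ≥ N₀, (cnt P w a N : ℝ) ≤ (1 / 2 ^ m + (A : ℝ) ^ (-g)) * N with hB3
  have c1 : ∀ w, ∀ ij ∈ Ico Q (2 * Q) ×ˢ range (J + 1), ((B1 w ij).card : ℝ) ≤ 3 * C * y * (Q : ℝ) ^ 2 := by
    intro w ij hij
    rw [mem_product, mem_Ico] at hij
    have hi : 1 ≤ ij.1 := hQn.trans hij.1.1
    have hNp : 0 < ij.1 * 2 ^ ij.2 := Nat.mul_pos hi (by positivity)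
    by_cases hcase : A ≤ 2 * (ij.1 * 2 ^ ij.2)
    · have hNr : (0 : ℝ) < ((ij.1 * 2 ^ ij.2 : ℕ) : ℝ) := by exact_mod_cast hNp
      exact sc_card hQ0 hNr (sc_markov (Ico b (b + A)) _ (fun a => (cnt P w a (ij.1 * 2 ^ ij.2) : ℝ) -
        ((ij.1 * 2 ^ ij.2 : ℕ) : ℝ) / 2 ^ m) _ (by positivity) fun a _ hp => hp.2.le) (h w b A _ hA hcase)
    · have he : B1 w ij = ∅ := by
        rw [hB1]
        refine filter_eq_empty_iff.2 fun a _ hp => hcase hp.1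
      rw [he, card_empty, Nat.cast_zero]
      positivity
  have key : ∀ (w : Fin m → Fin 2) (p : ℕ → Prop) [DecidablePred p],
      (∀ a ∈ Ico b (b + A), p a → ∃ N₀ : ℕ, ∀ N ≥ N₀, (N : ℝ) / x ≤ |(cnt P w a N : ℝ) - N / 2 ^ m|) →
      (((Ico b (b + A)).filter p).card : ℝ) ≤ 3 * C * y * x ^ 2 := by
    intro w p _ hp
    choose! M hM using hp
    set N := ∑ a ∈ Ico b (b + A), M a + A with hN
    have hNA : A ≤ N := Nat.le_add_left _ _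
    have hNr : (0 : ℝ) < N := by
      have : 0 < N := by omega
      exact_mod_cast this
    exact sc_card hx0 hNr (sc_markov (Ico b (b + A)) _ (fun a => (cnt P w a N : ℝ) - (N : ℝ) / 2 ^ m) _ (by positivity)
      fun a ha hpa => hM a ha hpa N ((single_le_sum (f := M) (fun _ _ => Nat.zero_le _) ha).trans (Nat.le_add_right _ _)))
      (h w b A N hA (by omega))
  have c2 : ∀ w ∈ (univ : Finset (Fin m → Fin 2)), ((B2 w).card : ℝ) ≤ 3 * C * y * x ^ 2 := by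
    intro w _
    refine key w _ fun a _ hp => ?_
    push Not at hp
    obtain ⟨N₀, hN₀⟩ := hp
    refine ⟨N₀, fun N hN => ?_⟩
    have h1 := hN₀ N hN
    rw [hxi] at h1
    have h2 := neg_abs_le ((cnt P w a N : ℝ) - N / 2 ^ m)
    have h3 : (1 / 2 ^ m - x⁻¹) * (N : ℝ) = N / 2 ^ m - N / x := by ring
    rw [h3] at h1
    linarith
  have c3 : ∀ w ∈ (univ : Finset (Fin m → Fin 2)), ((B3 w).card : ℝ) ≤ 3 * C * y * x ^ 2 := by
    intro w _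
    refine key w _ fun a _ hp => ?_
    push Not at hp
    obtain ⟨N₀, hN₀⟩ := hp
    refine ⟨N₀, fun N hN => ?_⟩
    have h1 := hN₀ N hN
    rw [hxi] at h1
    have h2 := le_abs_self ((cnt P w a N : ℝ) - N / 2 ^ m)
    have h3 : (1 / 2 ^ m + x⁻¹) * (N : ℝ) = N / 2 ^ m + N / x := by ring
    rw [h3] at h1
    linarith
  have c1' : ∀ w ∈ (univ : Finset (Fin m → Fin 2)),
      ((((Ico Q (2 * Q) ×ˢ range (J + 1)).biUnion (B1 w)).card : ℕ) : ℝ) ≤ 576 * C * (A : ℝ) ^ (1 - g) := by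
    intro w _
    refine (sc_biUnion _ _ _ (c1 w)).trans ?_
    rw [card_product, Nat.card_Ico, card_range]
    have e1 : ((((2 * Q - Q) * (J + 1) : ℕ)) : ℝ) = (Q : ℝ) * (J + 1) := by
      rw [show 2 * Q - Q = Q by omega]
      push_cast
      ring
    rw [e1]
    have e2 : (J : ℝ) + 1 ≤ 3 * x := by linarith
    have e3 : (Q : ℝ) ^ 3 ≤ (4 * x) ^ 3 := pow_le_pow_left₀ hQ0.le hQ2 3
    calc (Q : ℝ) * (J + 1) * (3 * C * y * (Q : ℝ) ^ 2) = 3 * C * y * ((Q : ℝ) ^ 3 * (J + 1)) := by ring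
      _ ≤ 3 * C * y * ((4 * x) ^ 3 * (3 * x)) :=
          mul_le_mul_of_nonneg_left (mul_le_mul e3 e2 (by positivity) (by positivity)) (by positivity)
      _ = 576 * C * (x ^ 4 * y) := by ring
      _ ≤ 576 * C * (A : ℝ) ^ (1 - g) := mul_le_mul_of_nonneg_left (hpow 4 le_rfl) (by positivity)
  have cw : ((univ : Finset (Fin m → Fin 2)).card : ℝ) = 2 ^ m := by
    rw [card_univ, Fintype.card_fun, Fintype.card_fin, Fintype.card_fin]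
    push_cast
    rfl
  refine ⟨(univ.biUnion fun w => (Ico Q (2 * Q) ×ˢ range (J + 1)).biUnion (B1 w)) ∪ (univ.biUnion B2 ∪ univ.biUnion B3),
    ?_, ?_⟩
  · have d1 := sc_biUnion _ _ _ c1'
    have d2 := sc_biUnion _ _ _ c2
    have d3 := sc_biUnion _ _ _ c3
    rw [cw] at d1 d2 d3
    have d4 : 3 * C * y * x ^ 2 ≤ 3 * C * (A : ℝ) ^ (1 - g) := by
      calc 3 * C * y * x ^ 2 = 3 * C * (x ^ 2 * y) := by ring
        _ ≤ _ := mul_le_mul_of_nonneg_left (hpow 2 (by norm_num)) (by positivity)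
    have d5 : (2 : ℝ) ^ m * (3 * C * y * x ^ 2) ≤ 2 ^ m * (3 * C * (A : ℝ) ^ (1 - g)) :=
      mul_le_mul_of_nonneg_left d4 (by positivity)
    have d6 := card_union_le (univ.biUnion fun w => (Ico Q (2 * Q) ×ˢ range (J + 1)).biUnion (B1 w))
      (univ.biUnion B2 ∪ univ.biUnion B3)
    have d7 := card_union_le (univ.biUnion B2) (univ.biUnion B3)
    have d8 : (((univ.biUnion fun w => (Ico Q (2 * Q) ×ˢ range (J + 1)).biUnion (B1 w)) ∪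
        (univ.biUnion B2 ∪ univ.biUnion B3)).card : ℝ) ≤
        ((univ.biUnion fun w => (Ico Q (2 * Q) ×ˢ range (J + 1)).biUnion (B1 w)).card : ℝ) +
        (((univ.biUnion B2).card : ℝ) + ((univ.biUnion B3).card : ℝ)) := by
      exact_mod_cast d6.trans (Nat.add_le_add_left d7 _)
    refine d8.trans ?_
    have d9 : 582 * 2 ^ m * C * (A : ℝ) ^ (1 - g) = 2 ^ m * (576 * C * (A : ℝ) ^ (1 - g)) +
        (2 ^ m * (3 * C * (A : ℝ) ^ (1 - g)) + 2 ^ m * (3 * C * (A : ℝ) ^ (1 - g))) := by ring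
    rw [d9]
    linarith
  · intro a ha haE w
    rw [mem_union, mem_union, not_or, not_or] at haE
    obtain ⟨n1, n2, n3⟩ := haE
    refine ⟨fun N hAN hNe => ?_, ?_, ?_⟩
    · obtain ⟨i, j, hi, hj1, hN1, hN2, hQi⟩ := sc_scale Q N hQn (hQA.trans hAN)
      have hjJ : j ∈ range (J + 1) := by
        rw [mem_range, Nat.lt_succ_iff, hJ]
        refine Nat.le_floor ?_
        have e1 : ((2 : ℝ)) ^ j ≤ Real.exp x := by
          refine le_trans ?_ hNe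
          exact_mod_cast hj1
        have e2 := Real.log_le_log (by positivity) e1
        rw [Real.log_pow, Real.log_exp] at e2
        have e3 : (0.6931471803 : ℝ) < Real.log 2 := Real.log_two_gt_d9
        have e4 : (0 : ℝ) ≤ j := Nat.cast_nonneg j
        nlinarith
      have hpos : 0 < 2 ^ j := by positivity
      have hi1 : 1 ≤ i := hQn.trans (mem_Ico.1 hi).1
      have hle : 2 ^ j ≤ i * 2 ^ j := Nat.le_mul_of_pos_left _ hi1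
      have hA2 : A ≤ 2 * (i * 2 ^ j) := by omega
      have n4 : |(cnt P w a (i * 2 ^ j) : ℝ) - ((i * 2 ^ j : ℕ) : ℝ) / 2 ^ m| ≤ ((i * 2 ^ j : ℕ) : ℝ) / Q := by
        by_contra hcon
        push Not at hcon
        refine n1 (mem_biUnion.2 ⟨w, mem_univ _, mem_biUnion.2 ⟨(i, j), mem_product.2 ⟨hi, hjJ⟩, ?_⟩⟩)
        rw [hB1, mem_filter]
        exact ⟨ha, hA2, hcon⟩
      have n5 := sc_dev P w a (i * 2 ^ j) N hN1
      have n6 : (N : ℝ) - ((i * 2 ^ j : ℕ) : ℝ) ≤ ((i * 2 ^ j : ℕ) : ℝ) / Q := by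
        rw [le_div_iff₀ hQ0]
        have e1 : (N : ℝ) ≤ ((i * 2 ^ j : ℕ) : ℝ) + ((2 ^ j : ℕ) : ℝ) := by exact_mod_cast hN2.le
        have e2 : (Q : ℝ) * ((2 ^ j : ℕ) : ℝ) ≤ ((i * 2 ^ j : ℕ) : ℝ) := by exact_mod_cast hQi
        have e3 : ((N : ℝ) - ((i * 2 ^ j : ℕ) : ℝ)) * Q ≤ ((2 ^ j : ℕ) : ℝ) * Q :=
          mul_le_mul_of_nonneg_right (by linarith) hQ0.le
        linarith
      have n7 : ((i * 2 ^ j : ℕ) : ℝ) ≤ N := by exact_mod_cast hN1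
      have n8 : ((i * 2 ^ j : ℕ) : ℝ) / Q ≤ (N : ℝ) / (3 * x) :=
        div_le_div₀ (Nat.cast_nonneg _) n7 (by positivity) hQ1
      have n9 : (N : ℝ) / (3 * x) = x⁻¹ * N / 3 := by
        field_simp
      rw [hxi]
      have n10 : 0 ≤ x⁻¹ * (N : ℝ) := by positivity
      rw [n9] at n8
      linarith
    · by_contra hcon
      exact n2 (mem_biUnion.2 ⟨w, mem_univ _, mem_filter.2 ⟨ha, hcon⟩⟩)
    · by_contra hcon
      exact n3 (mem_biUnion.2 ⟨w, mem_univ _, mem_filter.2 ⟨ha, hcon⟩⟩)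

theorem scales {m : ℕ} (P : Fin m → ℤ[X])
    (h : ∃ c C : ℝ, 0 < c ∧ 0 < C ∧ ∀ (w : Fin m → Fin 2) (b A N : ℕ), 1 ≤ A → 1 ≤ N →
      ∑ a ∈ Ico b (b + A), ((cnt P w a N : ℝ) - N / 2 ^ m) ^ 2 ≤
        C * A * (N : ℝ) ^ 2 * ((A : ℝ) ^ (-c) + (N : ℝ) ^ (-c))) :
    ∃ c C : ℝ, 0 < c ∧ 0 < C ∧ ∀ b A : ℕ, 1 ≤ A → ∃ E : Finset ℕ, (E.card : ℝ) ≤ C * (A : ℝ) ^ (1 - c) ∧
      ∀ a ∈ Ico b (b + A), a ∉ E → ∀ w : Fin m → Fin 2,
        (∀ N : ℕ, A ≤ N → (N : ℝ) ≤ Real.exp ((A : ℝ) ^ c) →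
          |(cnt P w a N : ℝ) - N / 2 ^ m| ≤ (A : ℝ) ^ (-c) * N) ∧
        (∀ N₀ : ℕ, ∃ N ≥ N₀, (1 / 2 ^ m - (A : ℝ) ^ (-c)) * N ≤ cnt P w a N) ∧
        (∀ N₀ : ℕ, ∃ N ≥ N₀, (cnt P w a N : ℝ) ≤ (1 / 2 ^ m + (A : ℝ) ^ (-c)) * N) := by
  obtain ⟨c, C, hc, hc1, hC, h'⟩ := sc_min P h
  refine ⟨c / 16, 582 * 2 ^ m * C + 4, by positivity, by positivity, fun b A hA => ?_⟩
  have hA' : (1 : ℝ) ≤ A := by exact_mod_cast hA
  have hA0 : (0 : ℝ) < A := by linarith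
  have hx1 : 1 ≤ (A : ℝ) ^ (c / 16) := Real.one_le_rpow hA' (by positivity)
  have hQ1 : 3 * (A : ℝ) ^ (c / 16) ≤ (⌈3 * (A : ℝ) ^ (c / 16)⌉₊ : ℕ) := Nat.le_ceil _
  have hQ2 : ((⌈3 * (A : ℝ) ^ (c / 16)⌉₊ : ℕ) : ℝ) ≤ 4 * (A : ℝ) ^ (c / 16) := by
    have := Nat.ceil_lt_add_one (a := 3 * (A : ℝ) ^ (c / 16)) (by positivity)
    linarith
  by_cases hQA : ⌈3 * (A : ℝ) ^ (c / 16)⌉₊ ≤ A
  · obtain ⟨E, hE, hE2⟩ := sc_final P c C (c / 16) hc hc1 hC rfl h' b A hA _ hQ1 hQ2 hQA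
    refine ⟨E, hE.trans ?_, hE2⟩
    have e1 : (0 : ℝ) ≤ (A : ℝ) ^ (1 - c / 16) := by positivity
    rw [add_mul]
    linarith
  · refine ⟨Ico b (b + A), ?_, fun a ha ha' => absurd ha ha'⟩
    rw [Nat.card_Ico, Nat.add_sub_cancel_left]
    push Not at hQA
    have e1 : (A : ℝ) < 4 * (A : ℝ) ^ (c / 16) := by
      have : (A : ℝ) < ((⌈3 * (A : ℝ) ^ (c / 16)⌉₊ : ℕ) : ℝ) := by exact_mod_cast hQA
      linarith
    have e2 : (A : ℝ) = (A : ℝ) ^ (c / 16) * (A : ℝ) ^ (1 - c / 16) := by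
      rw [← Real.rpow_add hA0, show c / 16 + (1 - c / 16) = 1 by ring, Real.rpow_one]
    have e3 : (A : ℝ) ^ (c / 16) ≤ (A : ℝ) ^ (1 - c / 16) :=
      Real.rpow_le_rpow_of_exponent_le hA' (by linarith)
    have e4 : (A : ℝ) ^ (1 - c / 16) < 4 := by
      have h1 : (A : ℝ) ^ (c / 16) * (A : ℝ) ^ (1 - c / 16) < (A : ℝ) ^ (c / 16) * 4 := by
        rw [← e2]
        linarith
      exact lt_of_mul_lt_mul_left h1 (by positivity)
    have e5 : (A : ℝ) ≤ 4 * (A : ℝ) ^ (1 - c / 16) := by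
      calc (A : ℝ) = (A : ℝ) ^ (c / 16) * (A : ℝ) ^ (1 - c / 16) := e2
        _ ≤ 4 * (A : ℝ) ^ (1 - c / 16) := mul_le_mul_of_nonneg_right (e3.trans e4.le) (by positivity)
    refine e5.trans ?_
    refine mul_le_mul_of_nonneg_right ?_ (by positivity)
    have e6 : 0 ≤ 582 * 2 ^ m * C := by positivity
    linarith

private theorem sc_finalY {m : ℕ} (P : Fin m → ℤ[X]) (c C g : ℝ) (hc : 0 < c) (hc1 : c ≤ 1) (hC : 0 < C) (hg : g = c / 16)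
    (h : ∀ (w : Fin m → Fin 2) (b A N : ℕ), 1 ≤ A → A ≤ 2 * N →
      ∑ a ∈ Ico b (b + A), ((cnt P w a N : ℝ) - N / 2 ^ m) ^ 2 ≤ 3 * C * (A : ℝ) ^ (1 - c) * (N : ℝ) ^ 2)
    (b A Y : ℕ) (hA : 1 ≤ A) (hAY : A ≤ Y) (Q : ℕ) (hQ1 : 3 * (A : ℝ) ^ g ≤ Q) (hQ2 : (Q : ℝ) ≤ 4 * (A : ℝ) ^ g) (hQA : Q ≤ A) :
    ∃ E : Finset ℕ, (E.card : ℝ) ≤ 768 * 2 ^ m * C * (A : ℝ) ^ (1 - g) ∧
      ∀ a ∈ Ico b (b + A), a ∉ E → ∀ N : ℕ, Y ≤ N → (N : ℝ) ≤ Y * Real.exp ((A : ℝ) ^ g) → ∀ w : Fin m → Fin 2,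
          |(cnt P w a N : ℝ) - N / 2 ^ m| ≤ (A : ℝ) ^ (-g) * N := by
  classical
  have hA' : (1 : ℝ) ≤ A := by exact_mod_cast hA
  have hA0 : (0 : ℝ) < A := by linarith
  have hg0 : 0 < g := by rw [hg]; positivity
  set x : ℝ := (A : ℝ) ^ g with hx
  have hx1 : 1 ≤ x := Real.one_le_rpow hA' hg0.le
  have hx0 : 0 < x := by linarith
  have hxi : (A : ℝ) ^ (-g) = x⁻¹ := Real.rpow_neg hA0.le g
  have hQ0 : (0 : ℝ) < Q := by linarith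
  have hQn : 1 ≤ Q := by
    have : 0 < Q := by exact_mod_cast hQ0
    omega
  set J : ℕ := ⌊2 * x⌋₊ with hJ
  have hJ1 : (J : ℝ) ≤ 2 * x := Nat.floor_le (by positivity)
  set j0 : ℕ := Nat.log 2 (Y / Q) with hj0
  have hY0 : Y < Q * 2 ^ (j0 + 1) := by
    have h2 : Y / Q < 2 ^ (j0 + 1) := Nat.lt_pow_succ_log_self (by norm_num) _
    have h4 : Y < 2 ^ (j0 + 1) * Q := (Nat.div_lt_iff_lt_mul hQn).1 h2
    rw [mul_comm]
    exact h4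
  set y : ℝ := (A : ℝ) ^ (1 - c) with hy
  have hy0 : 0 < y := by positivity
  have hpow : x ^ 4 * y ≤ (A : ℝ) ^ (1 - g) := by
    rw [hx, hy, ← Real.rpow_natCast, ← Real.rpow_mul hA0.le, ← Real.rpow_add hA0]
    refine Real.rpow_le_rpow_of_exponent_le hA' ?_
    rw [hg]
    push_cast
    linarith
  -- the exceptional set
  set B1 : (Fin m → Fin 2) → ℕ × ℕ → Finset ℕ := fun w ij => (Ico b (b + A)).filter fun a =>
    A ≤ 2 * (ij.1 * 2 ^ ij.2) ∧ ((ij.1 * 2 ^ ij.2 : ℕ) : ℝ) / Q < |(cnt P w a (ij.1 * 2 ^ ij.2) : ℝ) - ((ij.1 * 2 ^ ij.2 : ℕ) : ℝ) / 2 ^ m| with hB1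
  have c1 : ∀ w, ∀ ij ∈ Ico Q (2 * Q) ×ˢ Ico j0 (j0 + (J + 2)), ((B1 w ij).card : ℝ) ≤ 3 * C * y * (Q : ℝ) ^ 2 := by
    intro w ij hij
    rw [mem_product, mem_Ico] at hij
    have hi : 1 ≤ ij.1 := hQn.trans hij.1.1
    have hNp : 0 < ij.1 * 2 ^ ij.2 := Nat.mul_pos hi (by positivity)
    by_cases hcase : A ≤ 2 * (ij.1 * 2 ^ ij.2)
    · have hNr : (0 : ℝ) < ((ij.1 * 2 ^ ij.2 : ℕ) : ℝ) := by exact_mod_cast hNp
      exact sc_card hQ0 hNr (sc_markov (Ico b (b + A)) _ (fun a => (cnt P w a (ij.1 * 2 ^ ij.2) : ℝ) -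
        ((ij.1 * 2 ^ ij.2 : ℕ) : ℝ) / 2 ^ m) _ (by positivity) fun a _ hp => hp.2.le) (h w b A _ hA hcase)
    · have he : B1 w ij = ∅ := by
        rw [hB1]
        refine filter_eq_empty_iff.2 fun a _ hp => hcase hp.1
      rw [he, card_empty, Nat.cast_zero]
      positivity
  have c1' : ∀ w ∈ (univ : Finset (Fin m → Fin 2)),
      ((((Ico Q (2 * Q) ×ˢ Ico j0 (j0 + (J + 2))).biUnion (B1 w)).card : ℕ) : ℝ) ≤ 768 * C * (A : ℝ) ^ (1 - g) := by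
    intro w _
    refine (sc_biUnion _ _ _ (c1 w)).trans ?_
    rw [card_product, Nat.card_Ico, Nat.card_Ico]
    have e1 : ((((2 * Q - Q) * (j0 + (J + 2) - j0) : ℕ)) : ℝ) = (Q : ℝ) * (J + 2) := by
      rw [show 2 * Q - Q = Q by omega, show j0 + (J + 2) - j0 = J + 2 by omega]
      push_cast
      ring
    rw [e1]
    have e2 : (J : ℝ) + 2 ≤ 4 * x := by linarith
    have e3 : (Q : ℝ) ^ 3 ≤ (4 * x) ^ 3 := pow_le_pow_left₀ hQ0.le hQ2 3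
    calc (Q : ℝ) * (J + 2) * (3 * C * y * (Q : ℝ) ^ 2) = 3 * C * y * ((Q : ℝ) ^ 3 * (J + 2)) := by ring
      _ ≤ 3 * C * y * ((4 * x) ^ 3 * (4 * x)) :=
          mul_le_mul_of_nonneg_left (mul_le_mul e3 e2 (by positivity) (by positivity)) (by positivity)
      _ = 768 * C * (x ^ 4 * y) := by ring
      _ ≤ 768 * C * (A : ℝ) ^ (1 - g) := mul_le_mul_of_nonneg_left hpow (by positivity)
  have cw : ((univ : Finset (Fin m → Fin 2)).card : ℝ) = 2 ^ m := by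
    rw [card_univ, Fintype.card_fun, Fintype.card_fin, Fintype.card_fin]
    push_cast
    rfl
  refine ⟨univ.biUnion fun w => (Ico Q (2 * Q) ×ˢ Ico j0 (j0 + (J + 2))).biUnion (B1 w), ?_, ?_⟩
  · have d1 := sc_biUnion _ _ _ c1'
    rw [cw] at d1
    refine d1.trans (le_of_eq ?_)
    ring
  · intro a ha haE N hYN hNe w
    have hAN : A ≤ N := hAY.trans hYN
    obtain ⟨i, j, hi, hj1, hN1, hN2, hQi⟩ := sc_scale Q N hQn (hQA.trans hAN)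
    have hi' := mem_Ico.1 hi
    have hpos : 0 < 2 ^ j := by positivity
    have hi1 : 1 ≤ i := hQn.trans hi'.1
    have hle : 2 ^ j ≤ i * 2 ^ j := Nat.le_mul_of_pos_left _ hi1
    have hjJ : j ∈ Ico j0 (j0 + (J + 2)) := by
      rw [mem_Ico]
      constructor
      · -- `2 ^ j0 * Q ≤ Y ≤ N < 2 Q 2 ^ j`
        by_contra hcon
        push Not at hcon
        have hYQ : Y / Q ≠ 0 := by
          have := Nat.div_pos (hQA.trans hAY) hQn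
          omega
        have h1 : 2 ^ j0 ≤ Y / Q := Nat.pow_log_le_self 2 hYQ
        have h3 : 2 ^ j0 * Q ≤ Y := (Nat.le_div_iff_mul_le hQn).1 h1
        have h5 : 2 ^ (j + 1) ≤ 2 ^ j0 := Nat.pow_le_pow_right (by norm_num) hcon
        have h6 : N < 2 * Q * 2 ^ j := by
          have h7 : i + 1 ≤ 2 * Q := hi'.2
          have h8 : (i + 1) * 2 ^ j ≤ 2 * Q * 2 ^ j := Nat.mul_le_mul_right _ h7
          have h9 : N < (i + 1) * 2 ^ j := by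
            rw [add_mul, one_mul]
            exact hN2
          exact lt_of_lt_of_le h9 h8
        have h10 : 2 ^ (j + 1) * Q ≤ 2 ^ j0 * Q := Nat.mul_le_mul_right _ h5
        have h11 : 2 * Q * 2 ^ j = 2 ^ (j + 1) * Q := by ring
        omega
      · have e0 : (j : ℝ) ≤ j0 + 1 + 2 * x := by
          have e1 : (Q : ℝ) * 2 ^ j ≤ Y * Real.exp x := by
            refine le_trans ?_ hNe
            exact_mod_cast hQi.trans hN1
          have e2 : (Y : ℝ) ≤ Q * 2 ^ (j0 + 1) := by exact_mod_cast hY0.le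
          have e3 : (Q : ℝ) * 2 ^ j ≤ Q * (2 ^ (j0 + 1) * Real.exp x) := by
            calc (Q : ℝ) * 2 ^ j ≤ Y * Real.exp x := e1
              _ ≤ Q * 2 ^ (j0 + 1) * Real.exp x := mul_le_mul_of_nonneg_right e2 (Real.exp_pos x).le
              _ = Q * (2 ^ (j0 + 1) * Real.exp x) := by ring
          have e4 : (2 : ℝ) ^ j ≤ 2 ^ (j0 + 1) * Real.exp x := le_of_mul_le_mul_left e3 hQ0
          have e5 := Real.log_le_log (by positivity) e4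
          rw [Real.log_mul (by positivity) (Real.exp_pos x).ne', Real.log_pow, Real.log_pow, Real.log_exp] at e5
          push_cast at e5
          have e6 : (0.6931471803 : ℝ) < Real.log 2 := Real.log_two_gt_d9
          by_contra hcon
          push Not at hcon
          nlinarith
        have e7 : ((j - (j0 + 1) : ℕ) : ℝ) ≤ 2 * x := by
          rcases le_total j (j0 + 1) with h1 | h1
          · rw [Nat.sub_eq_zero_of_le h1, Nat.cast_zero]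
            positivity
          · rw [Nat.cast_sub h1]
            push_cast
            linarith
        have e8 : j - (j0 + 1) ≤ J := Nat.le_floor e7
        omega
    have hA2 : A ≤ 2 * (i * 2 ^ j) := by omega
    have n4 : |(cnt P w a (i * 2 ^ j) : ℝ) - ((i * 2 ^ j : ℕ) : ℝ) / 2 ^ m| ≤ ((i * 2 ^ j : ℕ) : ℝ) / Q := by
      by_contra hcon
      push Not at hcon
      refine haE (mem_biUnion.2 ⟨w, mem_univ _, mem_biUnion.2 ⟨(i, j), mem_product.2 ⟨hi, hjJ⟩, ?_⟩⟩)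
      rw [hB1, mem_filter]
      exact ⟨ha, hA2, hcon⟩
    have n5 := sc_dev P w a (i * 2 ^ j) N hN1
    have n6 : (N : ℝ) - ((i * 2 ^ j : ℕ) : ℝ) ≤ ((i * 2 ^ j : ℕ) : ℝ) / Q := by
      rw [le_div_iff₀ hQ0]
      have e1 : (N : ℝ) ≤ ((i * 2 ^ j : ℕ) : ℝ) + ((2 ^ j : ℕ) : ℝ) := by exact_mod_cast hN2.le
      have e2 : (Q : ℝ) * ((2 ^ j : ℕ) : ℝ) ≤ ((i * 2 ^ j : ℕ) : ℝ) := by exact_mod_cast hQi
      have e3 : ((N : ℝ) - ((i * 2 ^ j : ℕ) : ℝ)) * Q ≤ ((2 ^ j : ℕ) : ℝ) * Q :=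
        mul_le_mul_of_nonneg_right (by linarith) hQ0.le
      linarith
    have n7 : ((i * 2 ^ j : ℕ) : ℝ) ≤ N := by exact_mod_cast hN1
    have n8 : ((i * 2 ^ j : ℕ) : ℝ) / Q ≤ (N : ℝ) / (3 * x) :=
      div_le_div₀ (Nat.cast_nonneg _) n7 (by positivity) hQ1
    have n9 : (N : ℝ) / (3 * x) = x⁻¹ * N / 3 := by
      field_simp
    rw [hxi]
    have n10 : 0 ≤ x⁻¹ * (N : ℝ) := by positivity
    rw [n9] at n8
    linarith

theorem scales' {m : ℕ} (c₀ C₀ : ℝ) (hc₀ : 0 < c₀) (hC₀ : 0 < C₀) :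
    ∃ c C : ℝ, 0 < c ∧ 0 < C ∧ ∀ P : Fin m → ℤ[X],
      (∀ (w : Fin m → Fin 2) (b A N : ℕ), 1 ≤ A → 1 ≤ N →
        ∑ a ∈ Ico b (b + A), ((cnt P w a N : ℝ) - N / 2 ^ m) ^ 2 ≤
          C₀ * A * (N : ℝ) ^ 2 * ((A : ℝ) ^ (-c₀) + (N : ℝ) ^ (-c₀))) →
      ∀ b A Y : ℕ, 1 ≤ A → A ≤ Y →
        ∃ E : Finset ℕ, (E.card : ℝ) ≤ C * (A : ℝ) ^ (1 - c) ∧ ∀ a ∈ Ico b (b + A), a ∉ E →
          ∀ N : ℕ, Y ≤ N → (N : ℝ) ≤ Y * Real.exp ((A : ℝ) ^ c) → ∀ w : Fin m → Fin 2,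
            |(cnt P w a N : ℝ) - N / 2 ^ m| ≤ (A : ℝ) ^ (-c) * N := by
  obtain ⟨c, hcdef⟩ : ∃ c : ℝ, c = min c₀ 1 := ⟨_, rfl⟩
  obtain ⟨C, hCdef⟩ : ∃ C : ℝ, C = C₀ := ⟨_, rfl⟩
  have hc : 0 < c := by rw [hcdef]; exact lt_min hc₀ one_pos
  have hc1 : c ≤ 1 := by rw [hcdef]; exact min_le_right _ _
  have hC : 0 < C := by rw [hCdef]; exact hC₀
  refine ⟨c / 16, 768 * 2 ^ m * C + 4, by positivity, by positivity, fun P h b A Y hA hAY => ?_⟩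
  have h' := sc_min' P c₀ C₀ hc₀ hC₀ h
  rw [← hcdef, ← hCdef] at h'
  have hA' : (1 : ℝ) ≤ A := by exact_mod_cast hA
  have hA0 : (0 : ℝ) < A := by linarith
  have hx1 : 1 ≤ (A : ℝ) ^ (c / 16) := Real.one_le_rpow hA' (by positivity)
  have hQ1 : 3 * (A : ℝ) ^ (c / 16) ≤ (⌈3 * (A : ℝ) ^ (c / 16)⌉₊ : ℕ) := Nat.le_ceil _
  have hQ2 : ((⌈3 * (A : ℝ) ^ (c / 16)⌉₊ : ℕ) : ℝ) ≤ 4 * (A : ℝ) ^ (c / 16) := by
    have := Nat.ceil_lt_add_one (a := 3 * (A : ℝ) ^ (c / 16)) (by positivity)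
    linarith
  by_cases hQA : ⌈3 * (A : ℝ) ^ (c / 16)⌉₊ ≤ A
  · obtain ⟨E, hE, hE2⟩ := sc_finalY P c C (c / 16) hc hc1 hC rfl h' b A Y hA hAY _ hQ1 hQ2 hQA
    refine ⟨E, hE.trans ?_, hE2⟩
    have e1 : (0 : ℝ) ≤ (A : ℝ) ^ (1 - c / 16) := by positivity
    rw [add_mul]
    linarith
  · refine ⟨Ico b (b + A), ?_, fun a ha ha' => absurd ha ha'⟩
    rw [Nat.card_Ico, Nat.add_sub_cancel_left]
    push Not at hQA
    have e1 : (A : ℝ) < 4 * (A : ℝ) ^ (c / 16) := by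
      have : (A : ℝ) < ((⌈3 * (A : ℝ) ^ (c / 16)⌉₊ : ℕ) : ℝ) := by exact_mod_cast hQA
      linarith
    have e2 : (A : ℝ) = (A : ℝ) ^ (c / 16) * (A : ℝ) ^ (1 - c / 16) := by
      rw [← Real.rpow_add hA0, show c / 16 + (1 - c / 16) = 1 by ring, Real.rpow_one]
    have e3 : (A : ℝ) ^ (c / 16) ≤ (A : ℝ) ^ (1 - c / 16) :=
      Real.rpow_le_rpow_of_exponent_le hA' (by linarith)
    have e4 : (A : ℝ) ^ (1 - c / 16) < 4 := by
      have h1 : (A : ℝ) ^ (c / 16) * (A : ℝ) ^ (1 - c / 16) < (A : ℝ) ^ (c / 16) * 4 := by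
        rw [← e2]
        linarith
      exact lt_of_mul_lt_mul_left h1 (by positivity)
    have e5 : (A : ℝ) ≤ 4 * (A : ℝ) ^ (1 - c / 16) := by
      calc (A : ℝ) = (A : ℝ) ^ (c / 16) * (A : ℝ) ^ (1 - c / 16) := e2
        _ ≤ 4 * (A : ℝ) ^ (1 - c / 16) := mul_le_mul_of_nonneg_right (e3.trans e4.le) (by positivity)
    refine e5.trans ?_
    refine mul_le_mul_of_nonneg_right ?_ (by positivity)
    have e6 : 0 ≤ 768 * 2 ^ m * C := by positivity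
    linarith

end Pool.Agent.Lib.MP_8fac0f_nt.AC
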