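import Pool.Agent.Lib.MP_8fac0f_nt.AC.TB
import Pool.Agent.Lib.MP_8fac0f_nt.AC.DZ
import Pool.Agent.Lib.MP_8fac0f_nt.AC.Ad

/-!
# The second moment on one block of constants, uniformly in the polynomials
-/

set_option autoImplicit false

namespace Pool.Agent.Lib.MP_8fac0f_nt.AC

open Finset Polynomial N

/-- the derivative of the difference polynomial -/
private noncomputable def dQ {J : Type*} (P : J → ℤ[X]) (j₀ : J) : J ⊕ J → ℤ[X]
  | Sum.inl j => (P j).derivative - (P j₀).derivative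
  | Sum.inr _ => -(P j₀).derivative

/-- the difference polynomial -/
private noncomputable def dR {J : Type*} (P : J → ℤ[X]) (j₀ : J) (n' : ℕ) : J ⊕ J → ℤ[X]
  | Sum.inl j => P j - P j₀
  | Sum.inr j => C ((P j).eval (n' : ℤ)) - P j₀

private theorem dR_deriv {J : Type*} (P : J → ℤ[X]) (j₀ : J) (n' : ℕ) (i : J ⊕ J) :
    (dR P j₀ n' i).derivative = dQ P j₀ i := by
  rcases i with j | j <;> simp [dR, dQ]

/-- the sum of the two -/
private def uu {J : Type*} (P : J → ℤ[X]) (n n' c : ℕ) : J ⊕ J → ℕ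
  | Sum.inl j => ((P j).eval (n : ℤ)).toNat + c
  | Sum.inr j => ((P j).eval (n' : ℤ)).toNat + c

private theorem uu_sub {J : Type*} (P : J → ℤ[X]) (hpos : ∀ j, ∀ n : ℕ, 0 ≤ (P j).eval (n : ℤ))
    (j₀ : J) (n n' c : ℕ) (i : J ⊕ J) :
    (uu P n n' c i : ℤ) - uu P n n' c (Sum.inl j₀) = (dR P j₀ n' i).eval (n : ℤ) := by
  rcases i with j | j <;> simp [dR, uu, Int.toNat_of_nonneg (hpos _ _)]

theorem pair_block {J : Type*} [Fintype J] [Nonempty J] (e r : ℕ) :
    ∃ θ C : ℝ, 0 < θ ∧ θ < 1 ∧ 0 < C ∧ ∃ α β : ℕ, 1 ≤ α ∧ ∀ P : J → ℤ[X],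
      (∀ j, ∀ n : ℕ, 0 ≤ (P j).eval (n : ℤ)) → (∀ j, Adm (P j).derivative e r) →
      (∀ i j, i ≠ j → Adm ((P i).derivative - (P j).derivative) e r) →
      ∀ q N c : ℕ, 2 ^ (α * q + β) ≤ N →
        ∑ n ∈ range N, ∑ n' ∈ range N, |∑ x ∈ range (2 ^ (α * q + β)),
          F P n (c + x) * F P n' (c + x)| ≤ C * θ ^ q * 2 ^ (α * q + β) * N ^ 2 := by
  classical
  obtain ⟨j₀⟩ := ‹Nonempty J›
  set k := Fintype.card J with hk
  have hk1 : 1 ≤ k := Fintype.card_pos_iff.2 ⟨j₀⟩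
  set i₀ : J ⊕ J := Sum.inl j₀ with hi₀
  set t := 8 * k + 1 with ht
  set s := 2 * k + 4 with hs
  set ℓ := t + s with hℓ
  have hcard : Fintype.card (J ⊕ J) = 2 * k := by rw [Fintype.card_sum]; ring
  have hcs : Fintype.card (J ⊕ J) + 2 ≤ 2 ^ (s - 2) := by
    rw [hcard, hs, show 2 * k + 4 - 2 = 2 * k + 2 by omega]
    exact Nat.lt_two_pow_self.le
  set ρ : ℝ := 1 - 2 / 2 ^ ℓ with hρ
  have h2ℓ : (4 : ℝ) ≤ 2 ^ ℓ := by
    have : (2 : ℝ) ^ 2 ≤ 2 ^ ℓ := pow_le_pow_right₀ (by norm_num) (by omega)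
    linarith
  have hρ0 : 0 < ρ := by
    have : (2 : ℝ) / 2 ^ ℓ < 1 := by rw [div_lt_one (by positivity)]; linarith
    rw [hρ]; linarith
  have hρ1 : ρ < 1 := by
    have : (0 : ℝ) < 2 / 2 ^ ℓ := by positivity
    rw [hρ]; linarith
  set θ : ℝ := max (ρ ^ (2 * k)) (1 / 2) with hθ
  refine ⟨θ, 1 + 2 * k * (2 * (e + 1)), ?_, ?_, by positivity, 8 * k * e + 4 * k * ℓ,
    t + 2 * r + 1, ?_, ?_⟩
  · exact lt_of_lt_of_le (by norm_num) (le_max_right _ _)
  · refine max_lt (pow_lt_one₀ hρ0.le hρ1 (by omega)) (by norm_num)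
  · have : 1 ≤ k * ℓ := Nat.mul_pos hk1 (by omega)
    nlinarith
  intro P hpos hd hdd q N c hN
  have hQ : ∀ i, i ≠ i₀ → Adm (dQ P j₀ i) e r := by
    intro i hi
    rcases i with j | j
    · exact hdd j j₀ fun h => hi (by rw [h])
    · exact (hd j₀).neg
  set B := 4 * k * q with hB
  set s₀ := t + 2 * (r + B * e) + 1 with hs₀
  have hκ : (8 * k * e + 4 * k * ℓ) * q + (t + 2 * r + 1) = s₀ + B * ℓ := by
    rw [hs₀, hB]; ring
  rw [hκ] at hN ⊢
  have hθ0 : 0 < θ := lt_of_lt_of_le (by norm_num) (le_max_right _ _)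
  have hρθ : ρ ^ (2 * k * q) ≤ θ ^ q := by
    rw [pow_mul]
    exact pow_le_pow_left₀ (by positivity) (le_max_left _ _) _
  have h2θ : (1 : ℝ) / 2 ^ B ≤ θ ^ q := by
    have h1 : (1 : ℝ) / 2 ^ B ≤ (1 / 2) ^ q := by
      rw [one_div_pow]
      apply one_div_le_one_div_of_le (by positivity)
      apply pow_le_pow_right₀ (by norm_num)
      rw [hB]
      nlinarith
    exact h1.trans (pow_le_pow_left₀ (by norm_num) (le_max_right _ _) _)
  -- the bound for one pair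
  have hone : ∀ n n' : ℕ, |∑ x ∈ range (2 ^ (s₀ + B * ℓ)), F P n (c + x) * F P n' (c + x)| ≤
      2 ^ (s₀ + B * ℓ) * (ρ ^ (2 * k * q) + ∑ i ∈ univ.erase i₀,
        if q ≤ nbad ((dR P j₀ n' i).eval (n : ℤ)) s₀ ℓ t B then (1 : ℝ) else 0) := by
    intro n n'
    have h1 : ∑ x ∈ range (2 ^ (s₀ + B * ℓ)), F P n (c + x) * F P n' (c + x) =
        T (s₀ + B * ℓ) (uu P n n' c) (fun v => ∏ i, sg (v i)) := by
      rw [← sum_sg_eq]
      refine sum_congr rfl fun x _ => ?_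
      unfold F
      rw [Fintype.prod_sum_type]
      congr 1 <;> refine prod_congr rfl fun j _ => ?_ <;> simp only [uu] <;> congr 1 <;> ring
    rw [h1]
    have h2 := T_blocks t s (by omega) (uu P n n' c) i₀ hcs s₀ B (fun v => ∏ i, sg (v i))
      (fun v => by rw [abs_prod]; simp [abs_sg])
    simp only [hi₀, uu_sub P hpos j₀ n n' c] at h2
    rw [← hi₀] at h2
    refine h2.trans ?_
    rw [← hℓ, ← hρ]
    apply mul_le_mul_of_nonneg_left _ (by positivity)
    by_cases hall : ∀ i ∈ univ.erase i₀, nbad ((dR P j₀ n' i).eval (n : ℤ)) s₀ ℓ t B < q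
    · have h3 : ∑ i ∈ univ.erase i₀, nbad ((dR P j₀ n' i).eval (n : ℤ)) s₀ ℓ t B ≤
          (2 * k) * q := by
        calc _ ≤ ∑ i ∈ univ.erase i₀, q := sum_le_sum fun i hi => (hall i hi).le
          _ ≤ ∑ i : J ⊕ J, q := sum_le_sum_of_subset (erase_subset _ _)
          _ = (2 * k) * q := by rw [sum_const, card_univ, hcard, smul_eq_mul]
      have h4 : ρ ^ (B - ∑ i ∈ univ.erase i₀, nbad ((dR P j₀ n' i).eval (n : ℤ)) s₀ ℓ t B) ≤
          ρ ^ (2 * k * q) := by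
        apply pow_le_pow_of_le_one hρ0.le hρ1.le
        have : B = 2 * k * q + 2 * k * q := by rw [hB]; ring
        omega
      refine h4.trans (le_add_of_nonneg_right (sum_nonneg fun i _ => ?_))
      split_ifs <;> norm_num
    · push Not at hall
      obtain ⟨i, hi, hiq⟩ := hall
      have h3 : ρ ^ (B - ∑ i ∈ univ.erase i₀, nbad ((dR P j₀ n' i).eval (n : ℤ)) s₀ ℓ t B) ≤ 1 :=
        pow_le_one₀ hρ0.le hρ1.le
      have h4 : (1 : ℝ) ≤ ∑ i ∈ univ.erase i₀,
          if q ≤ nbad ((dR P j₀ n' i).eval (n : ℤ)) s₀ ℓ t B then (1 : ℝ) else 0 := by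
        have := single_le_sum (f := fun i => if q ≤ nbad ((dR P j₀ n' i).eval (n : ℤ)) s₀ ℓ t B
          then (1 : ℝ) else 0) (fun i _ => by split_ifs <;> norm_num) hi
        simpa [hiq] using this
      have h5 : 0 ≤ ρ ^ (2 * k * q) := by positivity
      linarith
  -- the count for one index
  have hcount : ∀ i, i ≠ i₀ → ∀ n' : ℕ, ∑ n ∈ range N,
      (if q ≤ nbad ((dR P j₀ n' i).eval (n : ℤ)) s₀ ℓ t B then (1 : ℝ) else 0) ≤
      2 * (e + 1) * N / 2 ^ B := by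
    intro i hi n'
    obtain ⟨e', he', hdeg, hco⟩ := hQ i hi
    have h1 := bad_count (dR P j₀ n' i) r e' (by rwa [dR_deriv])
      (by rwa [dR_deriv]) s₀ ℓ t B q (by omega) (by omega)
      (by
        rw [hs₀]
        have := Nat.mul_le_mul_left B he'
        omega)
      (by rw [hB, ht]; apply le_of_eq; rw [Nat.add_sub_cancel]; ring) N hN
    rw [← sum_filter, sum_const, nsmul_eq_mul, mul_one]
    refine h1.trans ?_
    have : (e' : ℝ) ≤ e := by exact_mod_cast he'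
    gcongr
  rw [sum_comm]
  calc ∑ n' ∈ range N, ∑ n ∈ range N, |∑ x ∈ range (2 ^ (s₀ + B * ℓ)),
        F P n (c + x) * F P n' (c + x)|
      ≤ ∑ n' ∈ range N, ∑ n ∈ range N, 2 ^ (s₀ + B * ℓ) * (ρ ^ (2 * k * q) +
          ∑ i ∈ univ.erase i₀,
            if q ≤ nbad ((dR P j₀ n' i).eval (n : ℤ)) s₀ ℓ t B then (1 : ℝ) else 0) :=
        sum_le_sum fun n' _ => sum_le_sum fun n _ => hone n n'
    _ ≤ ∑ n' ∈ range N, 2 ^ (s₀ + B * ℓ) * (N * θ ^ q + (2 * k) * (2 * (e + 1) * N * θ ^ q)) := by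
        refine sum_le_sum fun n' _ => ?_
        rw [← mul_sum]
        apply mul_le_mul_of_nonneg_left _ (by positivity)
        rw [sum_add_distrib, sum_comm (s := range N), sum_const, card_range, nsmul_eq_mul]
        apply add_le_add
        · gcongr
        · calc ∑ i ∈ univ.erase i₀, ∑ n ∈ range N,
              (if q ≤ nbad ((dR P j₀ n' i).eval (n : ℤ)) s₀ ℓ t B then (1 : ℝ) else 0)
              ≤ ∑ i ∈ univ.erase i₀, 2 * (e + 1) * N * θ ^ q := by
                refine sum_le_sum fun i hi => (hcount i (ne_of_mem_erase hi) n').trans ?_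
                rw [div_eq_mul_one_div]
                gcongr
            _ ≤ ∑ i : J ⊕ J, 2 * (e + 1) * N * θ ^ q :=
                sum_le_sum_of_subset_of_nonneg (erase_subset _ _) fun i _ _ => by positivity
            _ = (2 * k) * (2 * (e + 1) * N * θ ^ q) := by
                rw [sum_const, card_univ, hcard, nsmul_eq_mul]
                push_cast
                ring
    _ = (1 + 2 * k * (2 * (e + 1))) * θ ^ q * 2 ^ (s₀ + B * ℓ) * N ^ 2 := by
        rw [sum_const, card_range, nsmul_eq_mul]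
        ring

end Pool.Agent.Lib.MP_8fac0f_nt.AC
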