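import Pool.Agent.Lib.MP_8fac0f_nt.AC.Sm

/-!
# Row S2: the second moment on any interval of constants, with power saving

|F P n a| = 1. Given th, C, al, be of pair_block. Let m = min A N. If m < 4^(al + be) use the trivial
bound A N^2 with a large constant. Otherwise take the largest q with 4^(al q + be) <= m
(Nat.findGreatest or floor of a logarithm), K = al q + be: cut [b, b + A) into floor(A / 2^K)
blocks [c, c + 2^K) and a rest of less than 2^K: sum_a (sum_n F)^2 <= sum over blocks of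
sum_{n,n'} |sum_{x < 2^K} F P n (c+x) F P n' (c+x)| + 2^K N^2 <= (C th^q + 2^K/A) A N^2, 2^K / A <= 2^(-K)
<= 2^(-q), and q + 1 > (log_4 m - be)/al, so (max(th, 1/2))^q <= C' m^(-c), m^(-c) <= A^(-c) + N^(-c).
-/

set_option autoImplicit false

namespace Pool.Agent.Lib.MP_8fac0f_nt.AC

open Finset Polynomial N

private theorem S2_abs {J : Type*} [Fintype J] (P : J → ℤ[X]) (n a : ℕ) : |F P n a| = 1 := by
  unfold F
  rw [Finset.abs_prod]
  apply Finset.prod_eq_one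
  intro j _
  rcases sg_cases (((P j).eval (n : ℤ)).toNat + a) with h | h <;> rw [h] <;> simp

private theorem S2_triv {J : Type*} [Fintype J] (P : J → ℤ[X]) (N a : ℕ) :
    (∑ n ∈ range N, F P n a) ^ 2 ≤ (N : ℝ) ^ 2 := by
  have h : |∑ n ∈ range N, F P n a| ≤ N := by
    calc |∑ n ∈ range N, F P n a| ≤ ∑ n ∈ range N, |F P n a| := Finset.abs_sum_le_sum_abs _ _
      _ = ∑ n ∈ range N, (1 : ℝ) := Finset.sum_congr rfl fun n _ => S2_abs P n a
      _ = N := by simp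
  rw [← sq_abs]
  exact pow_le_pow_left₀ (abs_nonneg _) h 2

private theorem S2_block {J : Type*} [Fintype J] (P : J → ℤ[X]) (N c M : ℕ) :
    ∑ x ∈ range M, (∑ n ∈ range N, F P n (c + x)) ^ 2 ≤
      ∑ n ∈ range N, ∑ n' ∈ range N, |∑ x ∈ range M, F P n (c + x) * F P n' (c + x)| := by
  calc ∑ x ∈ range M, (∑ n ∈ range N, F P n (c + x)) ^ 2
      = ∑ x ∈ range M, ∑ n ∈ range N, ∑ n' ∈ range N, F P n (c + x) * F P n' (c + x) := by
        refine Finset.sum_congr rfl fun x _ => ?_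
        rw [sq, Finset.sum_mul_sum]
    _ = ∑ n ∈ range N, ∑ n' ∈ range N, ∑ x ∈ range M, F P n (c + x) * F P n' (c + x) := by
        rw [Finset.sum_comm]
        refine Finset.sum_congr rfl fun n _ => ?_
        rw [Finset.sum_comm]
    _ ≤ _ := Finset.sum_le_sum fun n _ => Finset.sum_le_sum fun n' _ => le_abs_self _

private theorem S2_blocks (G : ℕ → ℝ) (M : ℕ) (B : ℝ) (hB : ∀ c, ∑ x ∈ range M, G (c + x) ≤ B) (b k : ℕ) :
    ∑ i ∈ range (M * k), G (b + i) ≤ k * B := by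
  induction k with
  | zero => simp
  | succ k ih =>
    rw [Nat.mul_succ, Finset.sum_range_add]
    have h := hB (b + M * k)
    have e : ∑ x ∈ range M, G (b + (M * k + x)) = ∑ x ∈ range M, G (b + M * k + x) :=
      Finset.sum_congr rfl fun x _ => by rw [add_assoc]
    rw [e]
    push_cast
    nlinarith

private theorem S2_cut (G : ℕ → ℝ) (M : ℕ) (hM : 0 < M) (B D : ℝ) (hB : ∀ c, ∑ x ∈ range M, G (c + x) ≤ B)
    (hB0 : 0 ≤ B) (hD0 : 0 ≤ D) (hD : ∀ a, G a ≤ D) (b A : ℕ) :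
    ∑ a ∈ Ico b (b + A), G a ≤ (A : ℝ) / M * B + M * D := by
  rw [Finset.sum_Ico_eq_sum_range, Nat.add_sub_cancel_left]
  obtain ⟨k, hk⟩ : ∃ k, k = A / M := ⟨_, rfl⟩
  obtain ⟨r, hr⟩ : ∃ r, r = A % M := ⟨_, rfl⟩
  have hA : A = M * k + r := by rw [hk, hr]; exact (Nat.div_add_mod A M).symm
  have hrM : r < M := by rw [hr]; exact Nat.mod_lt _ hM
  have hMr : (0 : ℝ) < M := by exact_mod_cast hM
  have h1 := S2_blocks G M B hB b k
  have h2 : ∑ x ∈ range r, G (b + (M * k + x)) ≤ r * D := by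
    calc ∑ x ∈ range r, G (b + (M * k + x)) ≤ ∑ x ∈ range r, D := Finset.sum_le_sum fun x _ => hD _
      _ = r * D := by simp
  have h3 : (r : ℝ) ≤ M := by exact_mod_cast hrM.le
  have h4 : (k : ℝ) ≤ (A : ℝ) / M := by
    rw [le_div_iff₀ hMr, hA]
    push_cast
    nlinarith [Nat.cast_nonneg (α := ℝ) r]
  have e : ∑ k_1 ∈ range A, G (b + k_1) = ∑ i ∈ range (M * k), G (b + i) + ∑ x ∈ range r, G (b + (M * k + x)) := by
    rw [hA, Finset.sum_range_add]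
  rw [e]
  have h5 := mul_le_mul_of_nonneg_right h4 hB0
  have h6 := mul_le_mul_of_nonneg_right h3 hD0
  linarith

private theorem S2_exp (ρ : ℝ) (h0 : 0 < ρ) (h1 : ρ < 1) (α β : ℕ) (hα : 1 ≤ α) :
    ∃ c y : ℝ, 0 < c ∧ 1 ≤ y ∧ (∀ m : ℕ, 1 ≤ m → m < 4 ^ β → (m : ℝ) ^ c ≤ y) ∧
      ∀ m q : ℕ, 1 ≤ m → m < 4 ^ (α * (q + 1) + β) → ρ ^ q * (m : ℝ) ^ c ≤ ρ⁻¹ * y := by
  have hαr : (0 : ℝ) < α := by exact_mod_cast (show 0 < α by omega)
  have hl4 : 0 < Real.log 4 := Real.log_pos (by norm_num)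
  have hlr : Real.log ρ < 0 := Real.log_neg h0 h1
  obtain ⟨c, hc⟩ : ∃ c : ℝ, c = -Real.log ρ / (α * Real.log 4) := ⟨_, rfl⟩
  have hc0 : 0 < c := by
    rw [hc]
    exact div_pos (by linarith) (mul_pos hαr hl4)
  obtain ⟨z, hz⟩ : ∃ z : ℝ, z = (4 : ℝ) ^ c := ⟨_, rfl⟩
  have hz1 : 1 ≤ z := by
    rw [hz]
    exact Real.one_le_rpow (by norm_num) hc0.le
  have hzα : z ^ α = ρ⁻¹ := by
    rw [hz, ← Real.rpow_natCast, ← Real.rpow_mul (by norm_num), Real.rpow_def_of_pos (by norm_num)]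
    have : Real.log 4 * (c * α) = -Real.log ρ := by
      rw [hc]
      field_simp
    rw [this, Real.exp_neg, Real.exp_log h0]
  have hpow : ∀ n : ℕ, ((4 : ℝ) ^ n) ^ c = z ^ n := by
    intro n
    rw [hz, ← Real.rpow_natCast, ← Real.rpow_natCast, ← Real.rpow_mul (by norm_num), ← Real.rpow_mul (by norm_num),
      mul_comm]
  have hm : ∀ m n : ℕ, m < 4 ^ n → (m : ℝ) ^ c ≤ z ^ n := by
    intro m n hmn
    rw [← hpow]
    apply Real.rpow_le_rpow (Nat.cast_nonneg m) _ hc0.le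
    have : (m : ℝ) < ((4 ^ n : ℕ) : ℝ) := by exact_mod_cast hmn
    push_cast at this
    exact this.le
  refine ⟨c, z ^ β, hc0, one_le_pow₀ hz1, fun m _ h => hm m β h, fun m q _ h => ?_⟩
  have h2 := hm m _ h
  have e : z ^ (α * (q + 1) + β) = ρ⁻¹ ^ (q + 1) * z ^ β := by
    rw [pow_add, pow_mul, hzα]
  rw [e] at h2
  have h3 := mul_le_mul_of_nonneg_left h2 (pow_pos h0 q).le
  have e2 : ρ ^ q * (ρ⁻¹ ^ (q + 1) * z ^ β) = ρ⁻¹ * z ^ β := by
    rw [inv_pow, pow_succ]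
    field_simp
  rw [e2] at h3
  exact h3

theorem second_moment {J : Type*} [Fintype J] [Nonempty J] (e r : ℕ) :
    ∃ c C : ℝ, 0 < c ∧ 0 < C ∧ ∀ P : J → ℤ[X],
      (∀ j, ∀ n : ℕ, 0 ≤ (P j).eval (n : ℤ)) → (∀ j, Adm (P j).derivative e r) →
      (∀ i j, i ≠ j → Adm ((P i).derivative - (P j).derivative) e r) →
      ∀ b A N : ℕ, 1 ≤ A → 1 ≤ N →
        ∑ a ∈ Ico b (b + A), (∑ n ∈ range N, F P n a) ^ 2 ≤
          C * A * (N : ℝ) ^ 2 * ((A : ℝ) ^ (-c) + (N : ℝ) ^ (-c)) := by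
  obtain ⟨θ, C, hθ0, hθ1, hC, α, β, hα, hblock0⟩ := pair_block (J := J) e r
  obtain ⟨ρ, hρ⟩ : ∃ ρ : ℝ, ρ = max θ (1 / 2) := ⟨_, rfl⟩
  have hρ0 : 0 < ρ := by rw [hρ]; exact lt_max_of_lt_left hθ0
  have hρ1 : ρ < 1 := by rw [hρ]; exact max_lt hθ1 (by norm_num)
  have hθρ : θ ≤ ρ := by rw [hρ]; exact le_max_left _ _
  have hhρ : 1 / 2 ≤ ρ := by rw [hρ]; exact le_max_right _ _
  obtain ⟨c, y, hc, hy, hsmall, hlarge⟩ := S2_exp ρ hρ0 hρ1 α β hα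
  have hρi : 1 ≤ ρ⁻¹ := (one_le_inv₀ hρ0).2 hρ1.le
  refine ⟨c, (C + 1) * (ρ⁻¹ * y), hc, by positivity, fun P hpos hd hdd b A N hA hN => ?_⟩
  have hblock := hblock0 P hpos hd hdd
  have hAr : (1 : ℝ) ≤ A := by exact_mod_cast hA
  have hNr : (1 : ℝ) ≤ N := by exact_mod_cast hN
  obtain ⟨m, hm⟩ : ∃ m, m = min A N := ⟨_, rfl⟩
  have hm1 : 1 ≤ m := by rw [hm]; exact le_min hA hN
  have hmA : m ≤ A := by rw [hm]; exact min_le_left _ _
  have hmN : m ≤ N := by rw [hm]; exact min_le_right _ _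
  have hmr : (1 : ℝ) ≤ m := by exact_mod_cast hm1
  have hAc : 0 ≤ (A : ℝ) ^ (-c) := Real.rpow_nonneg (by linarith) _
  have hNc : 0 ≤ (N : ℝ) ^ (-c) := Real.rpow_nonneg (by linarith) _
  have hmc : (m : ℝ) ^ (-c) ≤ (A : ℝ) ^ (-c) + (N : ℝ) ^ (-c) := by
    rcases min_choice A N with h | h
    · rw [hm, h]; linarith
    · rw [hm, h]; linarith
  have hmpos : 0 < (m : ℝ) ^ c := Real.rpow_pos_of_pos (by linarith) _
  have hminv : (m : ℝ) ^ (-c) = ((m : ℝ) ^ c)⁻¹ := Real.rpow_neg (by linarith) _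
  have hAN : 0 ≤ (A : ℝ) * (N : ℝ) ^ 2 := by positivity
  -- it suffices to prove a bound with a number at most the constant times `m ^ (-c)`
  have key : ∀ t : ℝ, 0 ≤ t → t * (m : ℝ) ^ c ≤ (C + 1) * (ρ⁻¹ * y) →
      ∑ a ∈ Ico b (b + A), (∑ n ∈ range N, F P n a) ^ 2 ≤ t * (A * (N : ℝ) ^ 2) →
      ∑ a ∈ Ico b (b + A), (∑ n ∈ range N, F P n a) ^ 2 ≤
        (C + 1) * (ρ⁻¹ * y) * A * (N : ℝ) ^ 2 * ((A : ℝ) ^ (-c) + (N : ℝ) ^ (-c)) := by
    intro t ht h1 h2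
    have h3 : t ≤ (C + 1) * (ρ⁻¹ * y) * (m : ℝ) ^ (-c) := by
      rw [hminv, ← div_eq_mul_inv, le_div_iff₀ hmpos]
      exact h1
    have h4 : t ≤ (C + 1) * (ρ⁻¹ * y) * ((A : ℝ) ^ (-c) + (N : ℝ) ^ (-c)) :=
      h3.trans (mul_le_mul_of_nonneg_left hmc (by positivity))
    calc ∑ a ∈ Ico b (b + A), (∑ n ∈ range N, F P n a) ^ 2 ≤ t * (A * (N : ℝ) ^ 2) := h2
      _ ≤ (C + 1) * (ρ⁻¹ * y) * ((A : ℝ) ^ (-c) + (N : ℝ) ^ (-c)) * (A * (N : ℝ) ^ 2) :=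
          mul_le_mul_of_nonneg_right h4 hAN
      _ = _ := by ring
  rcases lt_or_ge m (4 ^ β) with hlt | hge
  · -- the trivial bound
    apply key 1 zero_le_one
    · have h1 := hsmall m hm1 hlt
      have h2 : y ≤ ρ⁻¹ * y := by nlinarith
      have h3 : ρ⁻¹ * y ≤ (C + 1) * (ρ⁻¹ * y) := by nlinarith [mul_nonneg hC.le (show 0 ≤ ρ⁻¹ * y by positivity)]
      linarith
    · calc ∑ a ∈ Ico b (b + A), (∑ n ∈ range N, F P n a) ^ 2 ≤ ∑ a ∈ Ico b (b + A), (N : ℝ) ^ 2 :=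
            Finset.sum_le_sum fun a _ => S2_triv P N a
        _ = 1 * (A * (N : ℝ) ^ 2) := by simp
  · obtain ⟨q, hq⟩ : ∃ q, q = (Nat.log 4 m - β) / α := ⟨_, rfl⟩
    have hl : β ≤ Nat.log 4 m := (Nat.le_log_iff_pow_le (by norm_num) (by omega)).2 hge
    have hq1 : α * q + β ≤ Nat.log 4 m := by
      have := Nat.mul_div_le (Nat.log 4 m - β) α
      rw [← hq] at this
      omega
    have hq2 : Nat.log 4 m + 1 ≤ α * (q + 1) + β := by
      have := Nat.lt_mul_div_succ (Nat.log 4 m - β) (show 0 < α by omega)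
      rw [← hq] at this
      omega
    have h4K : 4 ^ (α * q + β) ≤ m :=
      (Nat.pow_le_pow_right (by norm_num) hq1).trans (Nat.pow_log_le_self 4 (by omega))
    have hm4 : m < 4 ^ (α * (q + 1) + β) :=
      (Nat.lt_pow_succ_log_self (by norm_num) m).trans_le (Nat.pow_le_pow_right (by norm_num) hq2)
    obtain ⟨K, hK⟩ : ∃ K, K = α * q + β := ⟨_, rfl⟩
    rw [← hK] at h4K
    have hqK : q ≤ K := by
      rw [hK]
      nlinarith
    have h2K : 2 ^ K ≤ N := by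
      calc 2 ^ K ≤ 4 ^ K := Nat.pow_le_pow_left (by norm_num) K
        _ ≤ N := h4K.trans hmN
    have hMM : 2 ^ K * 2 ^ K ≤ A := by
      calc 2 ^ K * 2 ^ K = 4 ^ K := by rw [← Nat.mul_pow]
        _ ≤ A := h4K.trans hmA
    have hMpos : 0 < 2 ^ K := pow_pos (by norm_num) K
    have hBl : ∀ d : ℕ, ∑ x ∈ range (2 ^ K), (∑ n ∈ range N, F P n (d + x)) ^ 2 ≤ C * θ ^ q * 2 ^ K * (N : ℝ) ^ 2 := by
      intro d
      refine (S2_block P N d (2 ^ K)).trans ?_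
      have := hblock q N d (by rw [← hK]; exact h2K)
      rw [← hK] at this
      exact this
    have hcut := S2_cut (fun a => (∑ n ∈ range N, F P n a) ^ 2) (2 ^ K) hMpos (C * θ ^ q * 2 ^ K * (N : ℝ) ^ 2)
      ((N : ℝ) ^ 2) hBl (by positivity) (by positivity) (fun a => S2_triv P N a) b A
    have hMr : (0 : ℝ) < 2 ^ K := by positivity
    have hMMr : (2 : ℝ) ^ K * 2 ^ K ≤ A := by exact_mod_cast hMM
    have e1 : (A : ℝ) / ((2 ^ K : ℕ) : ℝ) * (C * θ ^ q * 2 ^ K * (N : ℝ) ^ 2) = C * θ ^ q * (A * (N : ℝ) ^ 2) := by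
      push_cast
      field_simp
    have e2 : (((2 ^ K : ℕ) : ℝ)) * (N : ℝ) ^ 2 ≤ (1 / 2) ^ q * (A * (N : ℝ) ^ 2) := by
      push_cast
      have k1 : (2 : ℝ) ^ K ≤ (1 / 2) ^ K * A := by
        rw [one_div, inv_pow, ← div_eq_inv_mul, le_div_iff₀ hMr]
        exact hMMr
      have k2 : ((1 : ℝ) / 2) ^ K ≤ (1 / 2) ^ q := pow_le_pow_of_le_one (by norm_num) (by norm_num) hqK
      calc (2 : ℝ) ^ K * (N : ℝ) ^ 2 ≤ (1 / 2) ^ K * A * (N : ℝ) ^ 2 := mul_le_mul_of_nonneg_right k1 (by positivity)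
        _ = (1 / 2) ^ K * (A * (N : ℝ) ^ 2) := by ring
        _ ≤ (1 / 2) ^ q * (A * (N : ℝ) ^ 2) := mul_le_mul_of_nonneg_right k2 hAN
    rw [e1] at hcut
    have hθq : θ ^ q ≤ ρ ^ q := pow_le_pow_left₀ hθ0.le hθρ q
    have hhq : ((1 : ℝ) / 2) ^ q ≤ ρ ^ q := pow_le_pow_left₀ (by norm_num) hhρ q
    apply key ((C + 1) * ρ ^ q) (by positivity)
    · have h1 := hlarge m q hm1 hm4
      calc (C + 1) * ρ ^ q * (m : ℝ) ^ c = (C + 1) * (ρ ^ q * (m : ℝ) ^ c) := by ring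
        _ ≤ (C + 1) * (ρ⁻¹ * y) := mul_le_mul_of_nonneg_left h1 (by positivity)
    · calc ∑ a ∈ Ico b (b + A), (∑ n ∈ range N, F P n a) ^ 2
          ≤ C * θ ^ q * (A * (N : ℝ) ^ 2) + ((2 ^ K : ℕ) : ℝ) * (N : ℝ) ^ 2 := hcut
        _ ≤ C * ρ ^ q * (A * (N : ℝ) ^ 2) + ρ ^ q * (A * (N : ℝ) ^ 2) := by
            apply add_le_add
            · exact mul_le_mul_of_nonneg_right (mul_le_mul_of_nonneg_left hθq hC.le) hAN
            · exact e2.trans (mul_le_mul_of_nonneg_right hhq hAN)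
        _ = (C + 1) * ρ ^ q * (A * (N : ℝ) ^ 2) := by ring

end Pool.Agent.Lib.MP_8fac0f_nt.AC
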