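import Pool.Agent.Lib.MP_8fac0f_nt.AC.Tr

/-!
# Row TB: product over the blocks

bad_of_dvd: a + x = 2^k v + r, b + x = 2^k w + r', |r - r'| < 2^k, so a - b = 2^k (v - w) + (r - r')
with 2^t | v - w: (a - b + 2^k) mod 2^(k+t) = r - r' + 2^k, in (0, 2^(k+1)).

T_blocks: induction on B, with h only bounded on the upper parts (v = (u i + x) / 2^K, x < 2^K), as
in T_le and T_good: T (K + l) u h = T K u (fun v => T l v h) (T_add, K = s0 + B l, l = t + s);
if no i != i0 is bad at K then T_good gives the bound (2^l - 2) M for every v = (u + x)/2^K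
(bad_of_dvd), otherwise T_le gives 2^l M. The number of good blocks is at least B - sum of nbad.

sum_sg_eq: sg_mod_div.
-/

set_option autoImplicit false

namespace Pool.Agent.Lib.MP_8fac0f_nt.AC

open Finset Polynomial N

theorem bad_of_dvd (k t : ℕ) (ht : 1 ≤ t) (a b x : ℕ)
    (h : (2 : ℤ) ^ t ∣ (((a + x) / 2 ^ k : ℕ) : ℤ) - ((b + x) / 2 ^ k : ℕ)) :
    Bad ((a : ℤ) - b) k t := by
  obtain ⟨c, hc⟩ := h
  have h1 := Nat.div_add_mod (a + x) (2 ^ k)
  have h2 := Nat.div_add_mod (b + x) (2 ^ k)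
  have h3 : (a + x) % 2 ^ k < 2 ^ k := Nat.mod_lt _ (pow_pos (by norm_num) k)
  have h4 : (b + x) % 2 ^ k < 2 ^ k := Nat.mod_lt _ (pow_pos (by norm_num) k)
  generalize (a + x) / 2 ^ k = v at hc h1
  generalize (b + x) / 2 ^ k = w at hc h2
  generalize (a + x) % 2 ^ k = r at h1 h3
  generalize (b + x) % 2 ^ k = r' at h2 h4
  have h1' : (2 : ℤ) ^ k * v + r = a + x := by exact_mod_cast h1
  have h2' : (2 : ℤ) ^ k * w + r' = b + x := by exact_mod_cast h2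
  have h3' : (r : ℤ) < 2 ^ k := by exact_mod_cast h3
  have h4' : (r' : ℤ) < 2 ^ k := by exact_mod_cast h4
  have h5 : (0 : ℤ) ≤ r := Int.natCast_nonneg r
  have h6 : (0 : ℤ) ≤ r' := Int.natCast_nonneg r'
  have h7 : (2 : ℤ) ^ (k + 1) ≤ 2 ^ (k + t) := pow_le_pow_right₀ (by norm_num) (by omega)
  have h8 : (2 : ℤ) ^ (k + 1) = 2 * 2 ^ k := by rw [pow_succ, mul_comm]
  have e : (a : ℤ) - b + 2 ^ k = (r - r' + 2 ^ k) + 2 ^ (k + t) * c := by
    have e1 : (2 : ℤ) ^ (k + t) * c = 2 ^ k * ((v : ℤ) - w) := by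
      rw [hc, pow_add, mul_assoc]
    rw [e1]
    linarith
  unfold Bad
  rw [e, Int.add_mul_emod_self_left, Int.emod_eq_of_lt (by linarith) (by linarith)]
  linarith

private theorem nbad_succ (D : ℤ) (s₀ ℓ t B : ℕ) :
    nbad D s₀ ℓ t (B + 1) = nbad D s₀ ℓ t B + if Bad D (s₀ + B * ℓ) t then 1 else 0 := by
  unfold nbad
  rw [range_add_one, filter_insert]
  split_ifs with hb
  · rw [card_insert_of_notMem]
    simp
  · simp

private theorem blocks_aux {I : Type*} [Fintype I] [DecidableEq I] (t s : ℕ) (ht : 1 ≤ t) (u : I → ℕ) (i₀ : I)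
    (hs : Fintype.card I + 2 ≤ 2 ^ (s - 2)) (s₀ : ℕ) (B : ℕ) : ∀ (h : (I → ℕ) → ℝ) (M : ℝ),
    (∀ x < 2 ^ (s₀ + B * (t + s)), |h (fun i => (u i + x) / 2 ^ (s₀ + B * (t + s)))| ≤ M) →
    |T (s₀ + B * (t + s)) u h| ≤ 2 ^ (s₀ + B * (t + s)) *
      (1 - 2 / 2 ^ (t + s) : ℝ) ^ (B - ∑ i ∈ univ.erase i₀, nbad ((u i : ℤ) - u i₀) s₀ (t + s) t B) * M := by
  have hl0 : (0 : ℝ) < 2 ^ (t + s) := by positivity
  have hl2 : (2 : ℝ) ≤ 2 ^ (t + s) := by
    calc (2 : ℝ) = 2 ^ 1 := (pow_one 2).symm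
      _ ≤ 2 ^ (t + s) := pow_le_pow_right₀ (by norm_num) (by omega)
  have hq0 : (0 : ℝ) ≤ 1 - 2 / 2 ^ (t + s) := by
    have := (div_le_one hl0).2 hl2
    linarith
  have hq1 : (1 - 2 / 2 ^ (t + s) : ℝ) ≤ 1 := by
    have : (0 : ℝ) ≤ 2 / 2 ^ (t + s) := by positivity
    linarith
  obtain ⟨q, hq⟩ : ∃ q : ℝ, q = 1 - 2 / 2 ^ (t + s) := ⟨_, rfl⟩
  rw [← hq] at hq0 hq1 ⊢
  have hql : (2 : ℝ) ^ (t + s) * q = 2 ^ (t + s) - 2 := by
    rw [hq]
    field_simp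
  induction B with
  | zero =>
    intro h M hM
    rw [Nat.zero_sub, pow_zero, mul_one]
    exact T_le _ u h M hM
  | succ B ih =>
    intro h M hM
    obtain ⟨K, hK⟩ : ∃ K, K = s₀ + B * (t + s) := ⟨_, rfl⟩
    have hK1 : s₀ + (B + 1) * (t + s) = K + (t + s) := by
      rw [hK]
      ring
    have hM0 : 0 ≤ M := (abs_nonneg _).trans (hM 0 (by positivity))
    rw [hK1] at hM ⊢
    rw [← hK] at ih
    rw [T_add K (t + s) u h]
    obtain ⟨S, hS⟩ : ∃ S : ℕ → ℕ, ∀ b, S b = ∑ i ∈ univ.erase i₀, nbad ((u i : ℤ) - u i₀) s₀ (t + s) t b :=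
      ⟨_, fun _ => rfl⟩
    have hSs : S (B + 1) = S B + ∑ i ∈ univ.erase i₀, if Bad ((u i : ℤ) - u i₀) K t then 1 else 0 := by
      rw [hS, hS, ← sum_add_distrib]
      refine sum_congr rfl fun i _ => ?_
      rw [nbad_succ, ← hK]
    rw [← hS]
    simp only [← hS] at ih
    have horb : ∀ x < 2 ^ K, ∀ y < 2 ^ (t + s), |h (fun i => ((u i + x) / 2 ^ K + y) / 2 ^ (t + s))| ≤ M := by
      intro x hx y hy
      have h1 : x + 2 ^ K * y < 2 ^ (K + (t + s)) := by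
        rw [pow_add]
        calc x + 2 ^ K * y < 2 ^ K + 2 ^ K * y := by omega
          _ = 2 ^ K * (y + 1) := by ring
          _ ≤ 2 ^ K * 2 ^ (t + s) := Nat.mul_le_mul_left _ hy
      have h2 := hM _ h1
      have h3 : (fun i => (u i + (x + 2 ^ K * y)) / 2 ^ (K + (t + s))) =
          fun i => ((u i + x) / 2 ^ K + y) / 2 ^ (t + s) := by
        funext i
        rw [pow_add, ← Nat.div_div_eq_div_mul, ← add_assoc, Nat.add_mul_div_left _ _ (by positivity)]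
      rwa [h3] at h2
    by_cases hg : ∀ i, i ≠ i₀ → ¬ Bad ((u i : ℤ) - u i₀) K t
    · have hS1 : S (B + 1) = S B := by
        rw [hSs, sum_eq_zero, add_zero]
        intro i hi
        rw [if_neg (hg i (ne_of_mem_erase hi))]
      have h1 := ih (fun v => T (t + s) v h) (2 ^ (t + s) * q * M) (by
        intro x hx
        rw [hql]
        exact T_good t s ht _ i₀ hs (fun i hi hd => hg i hi (bad_of_dvd K t ht _ _ x hd)) h M (horb x hx))
      refine h1.trans ?_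
      rw [hS1]
      have h2 : q ^ (B - S B + 1) ≤ q ^ (B + 1 - S B) := pow_le_pow_of_le_one hq0 hq1 (by omega)
      calc 2 ^ K * q ^ (B - S B) * (2 ^ (t + s) * q * M) = 2 ^ K * 2 ^ (t + s) * q ^ (B - S B + 1) * M := by ring
        _ ≤ 2 ^ K * 2 ^ (t + s) * q ^ (B + 1 - S B) * M := by gcongr
        _ = 2 ^ (K + (t + s)) * q ^ (B + 1 - S B) * M := by rw [pow_add 2 K (t + s)]
    · have hS1 : S B + 1 ≤ S (B + 1) := by
        rw [hSs]
        push Not at hg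
        obtain ⟨i, hi, hb⟩ := hg
        have h1 := single_le_sum (f := fun i => if Bad ((u i : ℤ) - u i₀) K t then 1 else 0)
          (fun j _ => Nat.zero_le _) (mem_erase.2 ⟨hi, mem_univ i⟩)
        simp only [if_pos hb] at h1
        omega
      have h1 := ih (fun v => T (t + s) v h) (2 ^ (t + s) * M) (by
        intro x hx
        exact T_le _ _ h M (horb x hx))
      refine h1.trans ?_
      have h2 : q ^ (B - S B) ≤ q ^ (B + 1 - S (B + 1)) := pow_le_pow_of_le_one hq0 hq1 (by omega)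
      calc 2 ^ K * q ^ (B - S B) * (2 ^ (t + s) * M) = 2 ^ K * 2 ^ (t + s) * q ^ (B - S B) * M := by ring
        _ ≤ 2 ^ K * 2 ^ (t + s) * q ^ (B + 1 - S (B + 1)) * M := by gcongr
        _ = 2 ^ (K + (t + s)) * q ^ (B + 1 - S (B + 1)) * M := by rw [pow_add 2 K (t + s)]

theorem T_blocks {I : Type*} [Fintype I] [DecidableEq I] (t s : ℕ) (ht : 1 ≤ t) (u : I → ℕ) (i₀ : I)
    (hs : Fintype.card I + 2 ≤ 2 ^ (s - 2)) (s₀ B : ℕ) (h : (I → ℕ) → ℝ) (hM : ∀ v, |h v| ≤ 1) :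
    |T (s₀ + B * (t + s)) u h| ≤ 2 ^ (s₀ + B * (t + s)) *
      (1 - 2 / 2 ^ (t + s) : ℝ) ^ (B - ∑ i ∈ univ.erase i₀, nbad ((u i : ℤ) - u i₀) s₀ (t + s) t B)
    := by
  have h1 := blocks_aux t s ht u i₀ hs s₀ B h 1 (fun x _ => hM _)
  rwa [mul_one] at h1

theorem sum_sg_eq {I : Type*} [Fintype I] (K : ℕ) (u : I → ℕ) :
    ∑ x ∈ range (2 ^ K), ∏ i, sg (u i + x) = T K u (fun v => ∏ i, sg (v i)) := by
  unfold T
  refine sum_congr rfl fun x _ => ?_
  rw [← prod_mul_distrib]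
  exact prod_congr rfl fun i _ => sg_mod_div K (u i + x)

end Pool.Agent.Lib.MP_8fac0f_nt.AC
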