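import Pool.Agent.Lib.MP_8fac0f_nt.AC.Defs

/-!
# Row TR: transfer of digits

T K u h = sum over x < 2^K of (prod_i sg ((u i + x) mod 2^K)) h(i -> (u i + x) / 2^K).

T_add: x = x1 + 2^K x2 (x1 < 2^K, x2 < 2^L); with v_i = (u i + x1) / 2^K:
(u i + x) mod 2^(K+L) = (u i + x1) mod 2^K + 2^K ((v_i + x2) mod 2^L), (u i + x) / 2^(K+L) =
(v_i + x2) / 2^L, and sg (2^K q + r) = sg r * sg q for r < 2^K (N.sg_split).

T_good (g x = prod_i sg ((u i + x) mod 2^(t+s))): for y = 2^v odd (positive) sg y * sg (y-1) =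
(-1)^(v+1). Take X1 = 2^t q1 - u i0, X2 = X1 + 2^t modulo 2^(t+s), with q1 = 1 mod 4 (so q2 = q1 + 1
= 2 mod 4): for i0 the sign of sg(y) sg(y-1) is (-1)^(t+1) at X1 and (-1)^(t+2) at X2. For i != i0,
u i + X = 2^t q + (u i - u i0) has 2-valuation < t, the same at X1 and X2. So the product
g(X1) g(X1 - 1) g(X2) g(X2 - 1) = -1, hence the four values of g are not all equal: three of one
sign, one of the other. The interval [X1 - 1, X2] must be contained in [0, 2^(t+s)) and must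
contain, after its first point, no x with u i + x = 0 mod 2^(t+s) (then (u i + x)/2^(t+s) is
constant on it for all i). The 2^(s-2) candidates r (q1 = 4 r + 1) give disjoint intervals (length
2^t + 1 < 2^(t+2)), each i kills at most one of them, the ends of [0, 2^(t+s)) at most 2: there is
a free one as card I + 2 <= 2^(s-2) (if s < 2 the hypothesis is false since 2^0 = 1 < 3; note the
hypothesis card I + 2 <= 2^(s-2), if you need one more candidate tell helper20). Then the four terms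
add up to at most 2 M in absolute value and the other 2^(t+s) - 4 terms to M each.
-/

set_option autoImplicit false

namespace Pool.Agent.Lib.MP_8fac0f_nt.AC

open Finset Polynomial N

theorem sum_range_mul' (a b : ℕ) (f : ℕ → ℝ) :
    ∑ n ∈ range (a * b), f n = ∑ i ∈ range a, ∑ j ∈ range b, f (i + a * j) := by
  induction b with
  | zero => simp
  | succ b ih =>
    rw [Nat.mul_succ, sum_range_add, ih]
    simp only [sum_range_succ]
    rw [sum_add_distrib]
    congr 1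
    exact sum_congr rfl fun i _ => by rw [add_comm]

theorem T_add {I : Type*} [Fintype I] (K L : ℕ) (u : I → ℕ) (h : (I → ℕ) → ℝ) :
    T (K + L) u h = T K u (fun v => T L v h) := by
  unfold T
  rw [pow_add, sum_range_mul']
  refine sum_congr rfl fun x _ => ?_
  rw [mul_sum]
  refine sum_congr rfl fun y _ => ?_
  have hK : 0 < 2 ^ K := by positivity
  have e1 : ∀ i, (u i + (x + 2 ^ K * y)) % (2 ^ K * 2 ^ L) = (u i + x) % 2 ^ K + 2 ^ K * (((u i + x) / 2 ^ K + y) % 2 ^ L) := by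
    intro i
    rw [← add_assoc, Nat.mod_mul, Nat.add_mul_mod_self_left, Nat.add_mul_div_left _ _ hK]
  have e2 : ∀ i, (u i + (x + 2 ^ K * y)) / (2 ^ K * 2 ^ L) = ((u i + x) / 2 ^ K + y) / 2 ^ L := by
    intro i
    rw [← add_assoc, ← Nat.div_div_eq_div_mul, Nat.add_mul_div_left _ _ hK]
  simp only [e1, e2]
  rw [← mul_assoc, ← prod_mul_distrib]
  congr 1
  refine prod_congr rfl fun i _ => ?_
  rw [add_comm ((u i + x) % 2 ^ K), sg_split K _ _ (Nat.mod_lt _ hK)]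

private theorem TR_abs {I : Type*} [Fintype I] (f : I → ℕ) : |∏ i, sg (f i)| = 1 := by
  rw [abs_prod]
  simp [abs_sg]

/-- The trivial bound. -/
theorem T_le {I : Type*} [Fintype I] (K : ℕ) (u : I → ℕ) (h : (I → ℕ) → ℝ) (M : ℝ)
    (hM : ∀ x < 2 ^ K, |h (fun i => (u i + x) / 2 ^ K)| ≤ M) : |T K u h| ≤ 2 ^ K * M := by
  unfold T
  refine (abs_sum_le_sum_abs _ _).trans ?_
  refine (sum_le_card_nsmul _ _ M fun x hx => ?_).trans ?_
  · rw [abs_mul, TR_abs, one_mul]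
    exact hM x (mem_range.1 hx)
  · rw [card_range, nsmul_eq_mul]
    push_cast
    exact le_rfl

private theorem TR_pairA (v m n : ℕ) (h : n + 1 = 2 ^ v * (2 * m + 1)) : sg (n + 1) * sg n = (-1) ^ (v + 1) := by
  have hp : 0 < 2 ^ v := by positivity
  have hn : n = 2 ^ v * (2 * m) + (2 ^ v - 1) := by
    rw [mul_add, mul_one] at h
    omega
  have h1 : sg (n + 1) = sg m * (-1) ^ 1 := by
    rw [h, sg_two_pow_mul, sg_two_mul_add 1 m (by norm_num)]
  have h2 : sg (2 ^ v - 1) = (-1) ^ v * sg 0 := sg_compl v 0 (2 ^ v - 1) (by omega)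
  have h3 : sg (2 * m) = sg m := by
    have := sg_two_mul_add 0 m (by norm_num)
    simpa using this
  have h4 : sg n = sg (2 ^ v - 1) * sg (2 * m) := by
    rw [hn]
    exact sg_split v _ _ (by omega)
  rw [h1, h4, h2, h3, sg_zero]
  have h5 := sg_sq m
  calc sg m * (-1) ^ 1 * ((-1) ^ v * 1 * sg m) = (sg m * sg m) * (-1) ^ (v + 1) := by ring
    _ = _ := by rw [h5, one_mul]

private theorem TR_pairB (t n : ℕ) (h : ¬ 2 ^ t ∣ n + 1) :
    sg (n + 1) * sg n * (sg (n + 2 ^ t + 1) * sg (n + 2 ^ t)) = 1 := by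
  obtain ⟨k, m, ⟨p, hp⟩, hn⟩ := Nat.exists_eq_two_pow_mul_odd (Nat.succ_ne_zero n)
  have hn' : n + 1 = 2 ^ k * (2 * p + 1) := by
    rw [← hp]
    exact hn
  have hk : k < t := by
    by_contra hc
    push Not at hc
    exact h (hn' ▸ dvd_mul_of_dvd_left (pow_dvd_pow 2 hc) _)
  have h1 := TR_pairA k p n hn'
  have h2 := TR_pairA k (p + 2 ^ (t - k - 1)) (n + 2 ^ t) (by
    have e : 2 ^ t = 2 ^ k * (2 * 2 ^ (t - k - 1)) := by
      rw [← pow_succ', ← pow_add]
      congr 1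
      omega
    calc n + 2 ^ t + 1 = (n + 1) + 2 ^ t := by ring
      _ = 2 ^ k * (2 * p + 1) + 2 ^ k * (2 * 2 ^ (t - k - 1)) := by rw [hn', ← e]
      _ = _ := by ring)
  rw [h1, h2, ← pow_add]
  exact Even.neg_one_pow ⟨k + 1, rfl⟩

private theorem TR_pairC (t p n : ℕ) (h : n + 1 = 2 ^ t * (4 * p + 1)) :
    sg (n + 1) * sg n * (sg (n + 2 ^ t + 1) * sg (n + 2 ^ t)) = -1 := by
  have h1 := TR_pairA t (2 * p) n (by rw [h]; ring)
  have h2 := TR_pairA (t + 1) p (n + 2 ^ t) (by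
    calc n + 2 ^ t + 1 = (n + 1) + 2 ^ t := by ring
      _ = 2 ^ t * (4 * p + 1) + 2 ^ t := by rw [h]
      _ = _ := by ring)
  rw [h1, h2, ← pow_add]
  exact Odd.neg_one_pow ⟨t + 1, by ring⟩

private theorem TR_four (a b c d : ℝ) (ha : a = 1 ∨ a = -1) (hb : b = 1 ∨ b = -1) (hc : c = 1 ∨ c = -1) (hd : d = 1 ∨ d = -1)
    (h : a * b * (c * d) = -1) : |a + b + (c + d)| ≤ 2 := by
  rcases ha with rfl | rfl <;> rcases hb with rfl | rfl <;> rcases hc with rfl | rfl <;> rcases hd with rfl | rfl <;>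
    first
    | (exfalso; norm_num at h; done)
    | norm_num

/-- a free interval -/
private theorem TR_free {I : Type*} [Fintype I] (t s : ℕ) (ht : 1 ≤ t) (u : I → ℕ) (i₀ : I)
    (hs : Fintype.card I + 2 ≤ 2 ^ (s - 2)) :
    ∃ x p : ℕ, x + 2 ^ t + 1 < 2 ^ (t + s) ∧ u i₀ + x + 1 = 2 ^ t * (4 * p + 1) ∧
      ∀ (i : I) (d : ℕ), 1 ≤ d → d ≤ 2 ^ t + 1 → ¬ 2 ^ (t + s) ∣ u i + x + d := by
  classical
  have hcard : 1 ≤ Fintype.card I := Fintype.card_pos_iff.2 ⟨i₀⟩
  have hs2 : 2 ≤ s := by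
    by_contra hc
    have e : s - 2 = 0 := by omega
    rw [e, pow_zero] at hs
    omega
  obtain ⟨N, hN⟩ : ∃ N, N = 2 ^ (s - 2) := ⟨_, rfl⟩
  obtain ⟨q, hq⟩ : ∃ q, q = 2 ^ t := ⟨_, rfl⟩
  obtain ⟨P, hP⟩ : ∃ P, P = 2 ^ (t + s) := ⟨_, rfl⟩
  have hq2 : 2 ≤ q := by
    rw [hq]
    calc 2 = 2 ^ 1 := by norm_num
      _ ≤ 2 ^ t := Nat.pow_le_pow_right (by norm_num) ht
  have hPN : P = 4 * q * N := by
    rw [hP, hq, hN, show (4 : ℕ) = 2 ^ 2 by norm_num, ← pow_add, ← pow_add]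
    congr 1
    omega
  rw [← hN] at hs
  rw [← hq, ← hP]
  obtain ⟨a, ha⟩ : ∃ a, a = u i₀ / (4 * q) := ⟨_, rfl⟩
  have ha1 : 4 * q * a ≤ u i₀ := by
    rw [ha]
    exact Nat.mul_div_le _ _
  have ha2 : u i₀ < 4 * q * (a + 1) := by
    rw [ha]
    exact Nat.lt_mul_div_succ _ (by omega)
  obtain ⟨e, he⟩ : ∃ e, u i₀ + e + 1 = 4 * q * (a + 1) + q := ⟨4 * q * (a + 1) - u i₀ + q - 1, by omega⟩
  have hfree : ∃ j, j + 2 ≤ N ∧ ∀ (i : I) (d : ℕ), 1 ≤ d → d ≤ q + 1 → ¬ P ∣ u i + (e + 4 * q * j) + d := by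
    by_contra hc
    push Not at hc
    have hc' : ∀ j : Fin (N - 1), ∃ (i : I) (d : ℕ), 1 ≤ d ∧ d ≤ q + 1 ∧ P ∣ u i + (e + 4 * q * j) + d := fun j =>
      hc j (by have := j.2; omega)
    choose f dd h1 h2 h3 using hc'
    have aux : ∀ j j' : Fin (N - 1), j < j' → f j = f j' → False := by
      intro j j' hlt hf
      have hj : (j : ℕ) < j' := hlt
      have hj' := j'.2
      have h4 := h3 j'
      have h5 := h3 j
      rw [hf] at h5
      have h6 := Nat.dvd_sub h4 h5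
      obtain ⟨k, hk⟩ : ∃ k, (j' : ℕ) = j + 1 + k := ⟨j' - j - 1, by omega⟩
      have h7 : k + 3 ≤ N := by omega
      have e1 : 4 * q * (j' : ℕ) = 4 * q * j + 4 * q + 4 * q * k := by
        rw [hk]
        ring
      have e2 : 4 * q * (k + 3) ≤ P := by
        rw [hPN]
        exact Nat.mul_le_mul_left _ h7
      have e3 : 4 * q * (k + 3) = 4 * q * k + 12 * q := by ring
      have a1 := h1 j
      have a2 := h2 j
      have a3 := h1 j'
      have a4 := h2 j'
      rw [e1] at h6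
      have h8 : u (f j') + (e + (4 * q * j + 4 * q + 4 * q * k)) + dd j' - (u (f j') + (e + 4 * q * j) + dd j) =
          4 * q + 4 * q * k + dd j' - dd j := by omega
      rw [h8] at h6
      have h9 := Nat.le_of_dvd (by omega) h6
      omega
    have hinj : Function.Injective f := by
      intro j j' hjj
      by_contra hne
      rcases lt_or_gt_of_ne hne with hlt | hlt
      · exact aux j j' hlt hjj
      · exact aux j' j hlt hjj.symm
    have := Fintype.card_le_of_injective f hinj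
    rw [Fintype.card_fin] at this
    omega
  obtain ⟨j, hj, hj2⟩ := hfree
  refine ⟨e + 4 * q * j, a + 1 + j, ?_, ?_, hj2⟩
  · have e2 : 4 * q * (j + 2) ≤ P := by
      rw [hPN]
      exact Nat.mul_le_mul_left _ hj
    have e3 : 4 * q * (j + 2) = 4 * q * j + 8 * q := by ring
    have e4 : 4 * q * (a + 1) = 4 * q * a + 4 * q := by ring
    omega
  · calc u i₀ + (e + 4 * q * j) + 1 = (u i₀ + e + 1) + 4 * q * j := by ring
      _ = 4 * q * (a + 1) + q + 4 * q * j := by rw [he]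
      _ = _ := by ring

/-- One good block. -/
theorem T_good {I : Type*} [Fintype I] (t s : ℕ) (ht : 1 ≤ t) (u : I → ℕ) (i₀ : I)
    (hs : Fintype.card I + 2 ≤ 2 ^ (s - 2))
    (hgood : ∀ i, i ≠ i₀ → ¬ (2 : ℤ) ^ t ∣ (u i : ℤ) - u i₀) (h : (I → ℕ) → ℝ) (M : ℝ)
    (hM : ∀ x < 2 ^ (t + s), |h (fun i => (u i + x) / 2 ^ (t + s))| ≤ M) :
    |T (t + s) u h| ≤ (2 ^ (t + s) - 2) * M := by
  classical
  obtain ⟨x, p, hx1, hx2, hx3⟩ := TR_free t s ht u i₀ hs
  have hcard : 1 ≤ Fintype.card I := Fintype.card_pos_iff.2 ⟨i₀⟩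
  have hs2 : 2 ≤ s := by
    by_contra hc
    have e : s - 2 = 0 := by omega
    rw [e, pow_zero] at hs
    omega
  have hP0 : 0 < 2 ^ (t + s) := by positivity
  have hq2 : 2 ≤ 2 ^ t := by
    calc 2 = 2 ^ 1 := by norm_num
      _ ≤ 2 ^ t := Nat.pow_le_pow_right (by norm_num) ht
  -- the quotients are constant
  have hdiv : ∀ (i : I) (d : ℕ), d ≤ 2 ^ t + 1 → (u i + (x + d)) / 2 ^ (t + s) = (u i + x) / 2 ^ (t + s) := by
    intro i d
    induction d with
    | zero => intro _; rfl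
    | succ d ih =>
      intro hd
      have h1 := hx3 i (d + 1) (by omega) hd
      have h2 : u i + (x + (d + 1)) = u i + (x + d) + 1 := by ring
      rw [h2, Nat.succ_div, if_neg, add_zero, ih (by omega)]
      rwa [show u i + (x + d) + 1 = u i + x + (d + 1) by ring]
  have hmod : ∀ (i : I) (d : ℕ), d ≤ 2 ^ t + 1 → (u i + (x + d)) % 2 ^ (t + s) = (u i + x) % 2 ^ (t + s) + d := by
    intro i d hd
    have h1 := Nat.div_add_mod (u i + (x + d)) (2 ^ (t + s))
    have h2 := Nat.div_add_mod (u i + x) (2 ^ (t + s))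
    rw [hdiv i d hd] at h1
    omega
  have hH : ∀ d, d ≤ 2 ^ t + 1 → (fun i => (u i + (x + d)) / 2 ^ (t + s)) = fun i => (u i + x) / 2 ^ (t + s) := by
    intro d hd
    funext i
    exact hdiv i d hd
  -- the signs
  obtain ⟨g, hg⟩ : ∃ g : ℕ → ℝ, g = fun x => ∏ i, sg ((u i + x) % 2 ^ (t + s)) := ⟨_, rfl⟩
  have hg1 : ∀ y, g y = 1 ∨ g y = -1 := by
    intro y
    rw [hg]
    exact eq_or_eq_neg_of_abs_eq (TR_abs _)
  have hgd : ∀ d, d ≤ 2 ^ t + 1 → g (x + d) = ∏ i, sg ((u i + x) % 2 ^ (t + s) + d) := by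
    intro d hd
    rw [hg]
    exact prod_congr rfl fun i _ => by rw [hmod i d hd]
  have hg0 : g x = ∏ i, sg ((u i + x) % 2 ^ (t + s)) := by rw [hg]
  have hfac : ∀ i : I, sg ((u i + x) % 2 ^ (t + s) + 1) * sg ((u i + x) % 2 ^ (t + s)) *
      (sg ((u i + x) % 2 ^ (t + s) + (2 ^ t + 1)) * sg ((u i + x) % 2 ^ (t + s) + 2 ^ t)) = if i = i₀ then -1 else 1 := by
    intro i
    have hm1 := hmod i 1 (by omega)
    by_cases hi : i = i₀
    · rw [if_pos hi, ← add_assoc]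
      subst hi
      have hd : 2 ^ (t + 2) ∣ 2 ^ (t + s) := pow_dvd_pow 2 (by omega)
      have h1 : ((u i + x) % 2 ^ (t + s) + 1) % 2 ^ (t + 2) = 2 ^ t := by
        rw [← hm1, Nat.mod_mod_of_dvd _ hd, ← add_assoc, hx2]
        have e1 : 2 ^ t * (4 * p + 1) = 2 ^ t + 2 ^ (t + 2) * p := by ring
        rw [e1, Nat.add_mul_mod_self_left]
        exact Nat.mod_eq_of_lt (Nat.pow_lt_pow_right (by norm_num) (by omega))
      have h2 := Nat.div_add_mod ((u i + x) % 2 ^ (t + s) + 1) (2 ^ (t + 2))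
      rw [h1] at h2
      refine TR_pairC t (((u i + x) % 2 ^ (t + s) + 1) / 2 ^ (t + 2)) _ ?_
      calc (u i + x) % 2 ^ (t + s) + 1 = 2 ^ (t + 2) * (((u i + x) % 2 ^ (t + s) + 1) / 2 ^ (t + 2)) + 2 ^ t := h2.symm
        _ = _ := by ring
    · rw [if_neg hi, ← add_assoc]
      refine TR_pairB t _ fun hdv => hgood i hi ?_
      rw [← hm1, Nat.dvd_mod_iff (pow_dvd_pow 2 (by omega))] at hdv
      have h1 : ((2 : ℤ) ^ t) ∣ ((u i + (x + 1) : ℕ) : ℤ) := by exact_mod_cast hdv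
      have h2 : ((2 : ℤ) ^ t) ∣ ((u i₀ + x + 1 : ℕ) : ℤ) := by
        rw [hx2]
        push_cast
        exact dvd_mul_right _ _
      have h3 := dvd_sub h1 h2
      have e : ((u i + (x + 1) : ℕ) : ℤ) - ((u i₀ + x + 1 : ℕ) : ℤ) = (u i : ℤ) - u i₀ := by
        push_cast
        ring
      rwa [e] at h3
  have hprod : g (x + 1) * g x * (g (x + (2 ^ t + 1)) * g (x + 2 ^ t)) = -1 := by
    rw [hgd 1 (by omega), hg0, hgd (2 ^ t + 1) le_rfl, hgd (2 ^ t) (by omega), ← prod_mul_distrib, ← prod_mul_distrib,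
      ← prod_mul_distrib, prod_congr rfl fun i _ => hfac i]
    simp
  have h4 := TR_four _ _ _ _ (hg1 (x + 1)) (hg1 x) (hg1 (x + (2 ^ t + 1))) (hg1 (x + 2 ^ t)) hprod
  -- the sum
  obtain ⟨F, hF⟩ : ∃ F : ℕ → ℝ, F = fun y => g y * h (fun i => (u i + y) / 2 ^ (t + s)) := ⟨_, rfl⟩
  have hT : T (t + s) u h = ∑ y ∈ range (2 ^ (t + s)), F y := by
    unfold T
    rw [hF, hg]
  have hFle : ∀ y ∈ range (2 ^ (t + s)), |F y| ≤ M := by
    intro y hy
    rw [hF]
    simp only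
    rw [abs_mul]
    have : |g y| = 1 := by
      rcases hg1 y with h | h <;> rw [h] <;> norm_num
    rw [this, one_mul]
    exact hM y (mem_range.1 hy)
  obtain ⟨A, hA⟩ : ∃ A : Finset ℕ, A = {x + 1, x, x + (2 ^ t + 1), x + 2 ^ t} := ⟨_, rfl⟩
  have hAsub : A ⊆ range (2 ^ (t + s)) := by
    intro y hy
    rw [hA] at hy
    simp only [mem_insert, mem_singleton] at hy
    rw [mem_range]
    rcases hy with rfl | rfl | rfl | rfl <;> omega
  have hn1 : x + 1 ∉ ({x, x + (2 ^ t + 1), x + 2 ^ t} : Finset ℕ) := by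
    simp only [mem_insert, mem_singleton]
    omega
  have hn2 : x ∉ ({x + (2 ^ t + 1), x + 2 ^ t} : Finset ℕ) := by
    simp only [mem_insert, mem_singleton]
    omega
  have hn3 : x + (2 ^ t + 1) ∉ ({x + 2 ^ t} : Finset ℕ) := by
    simp only [mem_singleton]
    omega
  have hAcard : A.card = 4 := by
    rw [hA, card_insert_of_notMem hn1, card_insert_of_notMem hn2, card_insert_of_notMem hn3, card_singleton]
  have hAsum : ∑ y ∈ A, F y = (g (x + 1) + g x + (g (x + (2 ^ t + 1)) + g (x + 2 ^ t))) * h (fun i => (u i + x) / 2 ^ (t + s)) := by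
    rw [hA, sum_insert hn1, sum_insert hn2, sum_insert hn3, sum_singleton, hF]
    simp only
    rw [hH 1 (by omega), hH (2 ^ t + 1) le_rfl, hH (2 ^ t) (by omega)]
    ring
  have hM0 := hM x (by omega)
  have hMnn : 0 ≤ M := (abs_nonneg _).trans hM0
  have hAle : |∑ y ∈ A, F y| ≤ 2 * M := by
    rw [hAsum, abs_mul]
    exact mul_le_mul h4 hM0 (abs_nonneg _) (by norm_num)
  have hrest : |∑ y ∈ range (2 ^ (t + s)) \ A, F y| ≤ (2 ^ (t + s) - 4) * M := by
    refine (abs_sum_le_sum_abs _ _).trans ?_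
    refine (sum_le_card_nsmul _ _ M fun y hy => hFle y (mem_sdiff.1 hy).1).trans ?_
    rw [nsmul_eq_mul, card_sdiff_of_subset hAsub, card_range, hAcard, Nat.cast_sub (by omega)]
    push_cast
    exact le_rfl
  rw [hT, ← sum_sdiff hAsub]
  refine (abs_add_le _ _).trans ?_
  linarith

end Pool.Agent.Lib.MP_8fac0f_nt.AC
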