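import Pool.Agent.Lib.MP_8fac0f_nt.AC.Defs

/-!
# Row VA: the 2-adic valuation of a polynomial is small outside few classes

val_classes: induction on e generalizing E, w. e = 0: E is the constant a, 2^w | a impossible
(w >= r). e + 1: if no n has 2^w | E(n) take S empty. Otherwise let n0 be one. E = C (E n0) +
(X - C n0) E1 (E1 = E /ₘ (X - C n0), modByMonic_X_sub_C_eq_C_eval), natDegree E1 <= e, E1.coeff e =
E.coeff (e+1) = a. If 2^w | E n and 2^w | E n0 then 2^w | (n - n0) E1(n); if not 2^u | n - n0 then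
2^(w-u) | E1(n), so n is in the classes of E1 (w - u >= r + u e). S = insert n0 S1.

val_count: the n < 2^M in one class mod 2^u are 2^(M-u) (Int.Ico_filter_modEq_card or by hand).
-/

set_option autoImplicit false

namespace Pool.Agent.Lib.MP_8fac0f_nt.AC

open Finset Polynomial N

private theorem va_dvd (y : ℤ) (u : ℕ) : ∀ (w : ℕ) (x : ℤ), ¬ (2 : ℤ) ^ u ∣ x → u ≤ w → (2 : ℤ) ^ w ∣ x * y →
    (2 : ℤ) ^ (w - u) ∣ y := by
  induction u with
  | zero =>
    intro w x hx
    exact absurd (by rw [pow_zero]; exact one_dvd x) hx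
  | succ u ih =>
    intro w x hx huw hd
    by_cases h2 : (2 : ℤ) ∣ x
    · obtain ⟨x', rfl⟩ := h2
      have h3 : ¬ (2 : ℤ) ^ u ∣ x' := fun h => hx (by rw [pow_succ']; exact mul_dvd_mul_left 2 h)
      obtain ⟨v, rfl⟩ : ∃ v, w = v + 1 := ⟨w - 1, by omega⟩
      have h4 : (2 : ℤ) ^ v ∣ x' * y := by
        rw [pow_succ', mul_assoc] at hd
        exact (mul_dvd_mul_iff_left (by norm_num)).mp hd
      have h5 := ih v x' h3 (by omega) h4
      rwa [Nat.add_sub_add_right]
    · have h3 := Int.prime_two.pow_dvd_of_dvd_mul_left w h2 hd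
      exact (pow_dvd_pow 2 (by omega)).trans h3

theorem val_classes (r u : ℕ) (a : ℤ) (ha : ¬ (2 : ℤ) ^ r ∣ a) (e : ℕ) (E : ℤ[X])
    (he : E.natDegree ≤ e) (hc : E.coeff e = a) (w : ℕ) (hw : r + u * e ≤ w) :
    ∃ S : Finset ℤ, S.card ≤ e ∧ ∀ n : ℤ, (2 : ℤ) ^ w ∣ E.eval n → ∃ s ∈ S, (2 : ℤ) ^ u ∣ n - s := by
  classical
  induction e generalizing E w with
  | zero =>
    refine ⟨∅, by simp, fun n hn => absurd ?_ ha⟩
    have h1 : E = C (E.coeff 0) := Polynomial.eq_C_of_natDegree_le_zero he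
    rw [h1, Polynomial.eval_C, hc] at hn
    exact (pow_dvd_pow 2 (by omega)).trans hn
  | succ e ih =>
    by_cases hex : ∃ n0 : ℤ, (2 : ℤ) ^ w ∣ E.eval n0
    · obtain ⟨n0, h0⟩ := hex
      set E1 : ℤ[X] := E /ₘ (X - C n0) with hE1
      have hE : C (E.eval n0) + (X - C n0) * E1 = E := by
        have h1 := Polynomial.modByMonic_add_div E (X - C n0)
        rwa [Polynomial.modByMonic_X_sub_C_eq_C_eval] at h1
      have hdeg : E1.natDegree ≤ e := by
        rw [hE1, Polynomial.natDegree_divByMonic E (Polynomial.monic_X_sub_C n0), Polynomial.natDegree_X_sub_C]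
        omega
      have hco : E1.coeff e = a := by
        have h1 : (C (E.eval n0) + (X - C n0) * E1).coeff (e + 1) = E.coeff (e + 1) := by rw [hE]
        rw [Polynomial.coeff_add, Polynomial.coeff_C_succ, sub_mul, Polynomial.coeff_sub, Polynomial.coeff_X_mul,
          Polynomial.coeff_C_mul, Polynomial.coeff_eq_zero_of_natDegree_lt (n := e + 1) (by omega), hc] at h1
        linarith
      have hmul : u * (e + 1) = u * e + u := by ring
      obtain ⟨S1, hS1, hS⟩ := ih E1 hdeg hco (w - u) (by omega)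
      refine ⟨insert n0 S1, (Finset.card_insert_le _ _).trans (by omega), fun n hn => ?_⟩
      by_cases hu : (2 : ℤ) ^ u ∣ n - n0
      · exact ⟨n0, Finset.mem_insert_self _ _, hu⟩
      · have h1 : E.eval n - E.eval n0 = (n - n0) * E1.eval n := by
          conv_lhs => rw [← hE]
          simp
        have h2 : (2 : ℤ) ^ w ∣ (n - n0) * E1.eval n := h1 ▸ dvd_sub hn h0
        obtain ⟨s, hs, hsd⟩ := hS n (va_dvd _ u w _ hu (by omega) h2)
        exact ⟨s, Finset.mem_insert_of_mem hs, hsd⟩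
    · exact ⟨∅, by simp, fun n hn => absurd ⟨n, hn⟩ hex⟩

theorem val_count (r u e : ℕ) (E : ℤ[X]) (he : E.natDegree ≤ e) (hc : ¬ (2 : ℤ) ^ r ∣ E.coeff e)
    (w : ℕ) (hw : r + u * e ≤ w) (M : ℕ) (hM : u ≤ M) :
    (((range (2 ^ M)).filter fun n : ℕ => (2 : ℤ) ^ w ∣ E.eval (n : ℤ)).card : ℝ) ≤
      e * 2 ^ M / 2 ^ u := by
  classical
  obtain ⟨S, hS, h⟩ := val_classes r u (E.coeff e) hc e E he rfl w hw
  have hsub : ((range (2 ^ M)).filter fun n : ℕ => (2 : ℤ) ^ w ∣ E.eval (n : ℤ)) ⊆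
      S.biUnion fun s => (range (2 ^ M)).filter fun n : ℕ => (2 : ℤ) ^ u ∣ (n : ℤ) - s := by
    intro n hn
    obtain ⟨hn1, hn2⟩ := Finset.mem_filter.mp hn
    obtain ⟨s, hs, hd⟩ := h n hn2
    exact Finset.mem_biUnion.mpr ⟨s, hs, Finset.mem_filter.mpr ⟨hn1, hd⟩⟩
  have hcl : ∀ s ∈ S, ((range (2 ^ M)).filter fun n : ℕ => (2 : ℤ) ^ u ∣ (n : ℤ) - s).card ≤ 2 ^ (M - u) := by
    intro s _
    have h1 : ((range (2 ^ M)).filter fun n : ℕ => (2 : ℤ) ^ u ∣ (n : ℤ) - s).card ≤ (range (2 ^ (M - u))).card := by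
      refine Finset.card_le_card_of_injOn (fun n => n / 2 ^ u) ?_ ?_
      · intro n hn
        have hn1 := Finset.mem_range.mp (Finset.mem_filter.mp hn).1
        refine Finset.mem_coe.mpr (Finset.mem_range.mpr ?_)
        rw [Nat.div_lt_iff_lt_mul (by positivity), ← pow_add, Nat.sub_add_cancel hM]
        exact hn1
      · intro n hn n' hn' hnn
        have hd1 := (Finset.mem_filter.mp hn).2
        have hd2 := (Finset.mem_filter.mp hn').2
        have hd3 : (2 : ℤ) ^ u ∣ (n : ℤ) - n' := by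
          have := dvd_sub hd1 hd2
          rwa [sub_sub_sub_cancel_right] at this
        have hd4 : n' ≡ n [MOD 2 ^ u] := by
          rw [Nat.modEq_iff_dvd]
          push_cast
          exact hd3
        have hnn' : n / 2 ^ u = n' / 2 ^ u := hnn
        have e1 := Nat.div_add_mod n (2 ^ u)
        have e2 := Nat.div_add_mod n' (2 ^ u)
        have e3 : n' % 2 ^ u = n % 2 ^ u := hd4
        rw [← e1, ← e2, hnn', e3]
    rwa [Finset.card_range] at h1
  have hcard : ((range (2 ^ M)).filter fun n : ℕ => (2 : ℤ) ^ w ∣ E.eval (n : ℤ)).card ≤ e * 2 ^ (M - u) :=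
    (Finset.card_le_card hsub).trans ((Finset.card_biUnion_le_card_mul _ _ _ hcl).trans
      (Nat.mul_le_mul_right _ hS))
  have e1 : ((2 : ℝ)) ^ M = 2 ^ (M - u) * 2 ^ u := by rw [← pow_add, Nat.sub_add_cancel hM]
  rw [e1, mul_div_assoc, mul_div_assoc, div_self (by positivity), mul_one]
  exact_mod_cast hcard

end Pool.Agent.Lib.MP_8fac0f_nt.AC
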