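import Pool.Agent.Lib.MP_8fac0f_nt.AC.Sm2

/-!
# Row WO: from correlations to words

tm n = w iff (-1)^(tm n) = (-1)^w, sg n = (-1)^(tm n): the indicator of the word at n is
prod_i (1 + (-1)^(w i) sg(P i n + a)) / 2 = 2^(-m) sum_{S subset Fin m} prod_{i in S} (-1)^(w i) sg(..)
(Finset.prod_one_add or prod_add), S empty gives N / 2^m, so cnt - N/2^m = 2^(-m) sum_{S nonempty}
(+-) sum_n F (P restricted to S) n a; square with Cauchy-Schwarz (sq_sum_le_card_mul_sum_sq):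
(cnt - N/2^m)^2 <= 2^(-m) sum_{S nonempty} (sum_n F_S)^2. second_moment for J = the subtype S, then
take the smallest c and the sum of the C (A^(-c) is decreasing in c for A >= 1).
-/

set_option autoImplicit false

namespace Pool.Agent.Lib.MP_8fac0f_nt.AC

open Finset Polynomial N

private theorem wo_ind (n : ℕ) (w : Fin 2) : (1 + (-1) ^ (w : ℕ) * sg n) / 2 = if tm n = (w : ℕ) then (1 : ℝ) else 0 := by
  have h1 : sg n = (-1) ^ (tm n) := by
    unfold sg tm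
    rw [← neg_one_pow_eq_pow_mod_two]
  have h2 : tm n < 2 := Nat.mod_lt _ (by norm_num)
  rw [h1]
  interval_cases h : tm n <;> fin_cases w <;> norm_num

private theorem wo_cnt {m : ℕ} (P : Fin m → ℤ[X]) (w : Fin m → Fin 2) (a N : ℕ) :
    (cnt P w a N : ℝ) - N / 2 ^ m = (∑ S ∈ (univ : Finset (Fin m)).powerset.erase ∅, (∏ i ∈ S, (-1 : ℝ) ^ (w i : ℕ)) *
      ∑ n ∈ range N, F (fun j : S => P j) n a) / 2 ^ m := by
  classical
  have h1 : (cnt P w a N : ℝ) = ∑ n ∈ range N,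
      (∑ S ∈ (univ : Finset (Fin m)).powerset, ∏ i ∈ S, ((-1 : ℝ) ^ (w i : ℕ) * sg (((P i).eval (n : ℤ)).toNat + a))) / 2 ^ m := by
    unfold cnt
    rw [natCast_card_filter]
    refine sum_congr rfl fun n _ => ?_
    have h2 : (if ∀ i, tm (((P i).eval (n : ℤ)).toNat + a) = (w i : ℕ) then (1 : ℝ) else 0) =
        ∏ i : Fin m, if tm (((P i).eval (n : ℤ)).toNat + a) = (w i : ℕ) then (1 : ℝ) else 0 := by
      rw [Finset.prod_ite_zero]
      simp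
    rw [h2, ← Finset.prod_one_add]
    have h3 : ∀ i : Fin m, (if tm (((P i).eval (n : ℤ)).toNat + a) = (w i : ℕ) then (1 : ℝ) else 0) =
        (1 + (-1) ^ (w i : ℕ) * sg (((P i).eval (n : ℤ)).toNat + a)) / 2 := fun i => (wo_ind _ _).symm
    rw [prod_congr rfl fun i _ => h3 i, prod_div_distrib, prod_const, card_univ, Fintype.card_fin]
  have h4 : ∑ n ∈ range N,
      (∑ S ∈ (univ : Finset (Fin m)).powerset, ∏ i ∈ S, ((-1 : ℝ) ^ (w i : ℕ) * sg (((P i).eval (n : ℤ)).toNat + a))) / 2 ^ m =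
      (∑ S ∈ (univ : Finset (Fin m)).powerset, (∏ i ∈ S, (-1 : ℝ) ^ (w i : ℕ)) *
      ∑ n ∈ range N, F (fun j : S => P j) n a) / 2 ^ m := by
    rw [← sum_div, sum_comm]
    congr 1
    refine sum_congr rfl fun S _ => ?_
    rw [mul_sum]
    refine sum_congr rfl fun n _ => ?_
    rw [prod_mul_distrib]
    congr 1
    unfold F
    exact (Finset.prod_coe_sort S fun i => sg (((P i).eval (n : ℤ)).toNat + a)).symm
  have h5 : (∑ S ∈ (univ : Finset (Fin m)).powerset, (∏ i ∈ S, (-1 : ℝ) ^ (w i : ℕ)) *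
      ∑ n ∈ range N, F (fun j : S => P j) n a) = N +
      ∑ S ∈ (univ : Finset (Fin m)).powerset.erase ∅, (∏ i ∈ S, (-1 : ℝ) ^ (w i : ℕ)) *
      ∑ n ∈ range N, F (fun j : S => P j) n a := by
    rw [← Finset.add_sum_erase _ _ (Finset.empty_mem_powerset (univ : Finset (Fin m)))]
    congr 1
    simp [F]
  rw [h1, h4, h5]
  ring

/-- The class of families for which the constants are uniform. -/
def Fam {m : ℕ} (P : Fin m → ℤ[X]) (e r : ℕ) : Prop :=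
  (∀ j, ∀ n : ℕ, 0 ≤ (P j).eval (n : ℤ)) ∧ (∀ j, Adm (P j).derivative e r) ∧
    ∀ i j, i ≠ j → Adm ((P i).derivative - (P j).derivative) e r

theorem words_second_moment (m e r : ℕ) :
    ∃ c C : ℝ, 0 < c ∧ 0 < C ∧ ∀ P : Fin m → ℤ[X], Fam P e r →
      ∀ (w : Fin m → Fin 2) (b A N : ℕ), 1 ≤ A → 1 ≤ N →
        ∑ a ∈ Ico b (b + A), ((cnt P w a N : ℝ) - N / 2 ^ m) ^ 2 ≤
          C * A * (N : ℝ) ^ 2 * ((A : ℝ) ^ (-c) + (N : ℝ) ^ (-c)) := by
  classical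
  have hex : ∀ S : Finset (Fin m), ∃ c C : ℝ, 0 < c ∧ 0 < C ∧ (∀ P : Fin m → ℤ[X], Fam P e r →
      S.Nonempty → ∀ b A N : ℕ, 1 ≤ A → 1 ≤ N →
      ∑ a ∈ Ico b (b + A), (∑ n ∈ range N, F (fun j : S => P j) n a) ^ 2 ≤
        C * A * (N : ℝ) ^ 2 * ((A : ℝ) ^ (-c) + (N : ℝ) ^ (-c))) := by
    intro S
    by_cases hS : S.Nonempty
    · have : Nonempty S := hS.coe_sort
      obtain ⟨c, C, hc, hC, h⟩ := second_moment (J := S) e r
      exact ⟨c, C, hc, hC, fun P hP _ => h (fun j : S => P j) (fun j n => hP.1 j n)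
        (fun j => hP.2.1 j) (fun i j hij => hP.2.2 i j fun h => hij (Subtype.ext h))⟩
    · exact ⟨1, 1, one_pos, one_pos, fun _ _ h => absurd h hS⟩
  choose cS CS hc hC hS0' using hex
  obtain ⟨S0, hS0⟩ := Finite.exists_min cS
  refine ⟨cS S0, ∑ S : Finset (Fin m), CS S, hc S0, sum_pos (fun S _ => hC S) ⟨∅, mem_univ _⟩, ?_⟩
  intro P hP w b A N hA hN
  have hS := fun S => hS0' S P hP
  have hA1 : (1 : ℝ) ≤ A := by exact_mod_cast hA
  have hN1 : (1 : ℝ) ≤ N := by exact_mod_cast hN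
  obtain ⟨𝒮, h𝒮⟩ : ∃ 𝒮 : Finset (Finset (Fin m)), 𝒮 = (univ : Finset (Fin m)).powerset.erase ∅ := ⟨_, rfl⟩
  have hcard : (𝒮.card : ℝ) ≤ 2 ^ m := by
    have h1 : 𝒮.card ≤ ((univ : Finset (Fin m)).powerset).card := by
      rw [h𝒮]; exact card_le_card (erase_subset _ _)
    rw [card_powerset, card_univ, Fintype.card_fin] at h1
    exact_mod_cast h1
  have hpt : ∀ a : ℕ, ((cnt P w a N : ℝ) - N / 2 ^ m) ^ 2 ≤ ∑ S ∈ 𝒮, (∑ n ∈ range N, F (fun j : S => P j) n a) ^ 2 := by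
    intro a
    rw [wo_cnt, ← h𝒮, div_pow]
    have h1 := sq_sum_le_card_mul_sum_sq (s := 𝒮) (f := fun S => (∏ i ∈ S, (-1 : ℝ) ^ (w i : ℕ)) *
      ∑ n ∈ range N, F (fun j : S => P j) n a)
    have h2 : ∑ S ∈ 𝒮, ((∏ i ∈ S, (-1 : ℝ) ^ (w i : ℕ)) * ∑ n ∈ range N, F (fun j : S => P j) n a) ^ 2 =
        ∑ S ∈ 𝒮, (∑ n ∈ range N, F (fun j : S => P j) n a) ^ 2 := by
      refine sum_congr rfl fun S _ => ?_
      have h3 : (∏ i ∈ S, (-1 : ℝ) ^ (w i : ℕ)) ^ 2 = 1 := by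
        rw [← prod_pow]
        refine prod_eq_one fun i _ => ?_
        rw [← pow_mul, mul_comm, pow_mul]
        norm_num
      rw [mul_pow, h3, one_mul]
    rw [h2] at h1
    have h0 : 0 ≤ ∑ S ∈ 𝒮, (∑ n ∈ range N, F (fun j : S => P j) n a) ^ 2 := sum_nonneg fun _ _ => sq_nonneg _
    rw [div_le_iff₀ (by positivity)]
    refine h1.trans ?_
    have h4 : (1 : ℝ) ≤ 2 ^ m := one_le_pow₀ (by norm_num)
    have h5 : (𝒮.card : ℝ) ≤ (2 ^ m) ^ 2 := by nlinarith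
    rw [mul_comm]
    exact mul_le_mul_of_nonneg_left h5 h0
  calc ∑ a ∈ Ico b (b + A), ((cnt P w a N : ℝ) - N / 2 ^ m) ^ 2
      ≤ ∑ a ∈ Ico b (b + A), ∑ S ∈ 𝒮, (∑ n ∈ range N, F (fun j : S => P j) n a) ^ 2 := sum_le_sum fun a _ => hpt a
    _ = ∑ S ∈ 𝒮, ∑ a ∈ Ico b (b + A), (∑ n ∈ range N, F (fun j : S => P j) n a) ^ 2 := sum_comm
    _ ≤ ∑ S ∈ 𝒮, CS S * A * (N : ℝ) ^ 2 * ((A : ℝ) ^ (-cS S0) + (N : ℝ) ^ (-cS S0)) := by
        refine sum_le_sum fun S hSm => ?_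
        have hne : S.Nonempty := by
          rw [h𝒮, mem_erase] at hSm
          exact nonempty_iff_ne_empty.2 hSm.1
        refine (hS S hne b A N hA hN).trans ?_
        refine mul_le_mul_of_nonneg_left (add_le_add ?_ ?_) (by have := (hC S).le; positivity)
        · exact Real.rpow_le_rpow_of_exponent_le hA1 (neg_le_neg (hS0 S))
        · exact Real.rpow_le_rpow_of_exponent_le hN1 (neg_le_neg (hS0 S))
    _ ≤ ∑ S : Finset (Fin m), CS S * A * (N : ℝ) ^ 2 * ((A : ℝ) ^ (-cS S0) + (N : ℝ) ^ (-cS S0)) := by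
        refine sum_le_sum_of_subset_of_nonneg (subset_univ _) fun S _ _ => ?_
        have := (hC S).le
        positivity
    _ = (∑ S : Finset (Fin m), CS S) * A * (N : ℝ) ^ 2 * ((A : ℝ) ^ (-cS S0) + (N : ℝ) ^ (-cS S0)) := by
        rw [sum_mul, sum_mul, sum_mul]

end Pool.Agent.Lib.MP_8fac0f_nt.AC
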